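import Pool.Agent.Lib.MP_bd65ca_an.Defs

/-!
# Approximation of a planar symmetric convex body by polygons
-/

open MeasureTheory FourierTransform Pointwise Filter Topology
open scoped RealInnerProductSpace

namespace Pool.Agent.MPbd65ca

namespace ApproxAux

/-! ### Piecewise linear interpolation of a convex function -/

/-- the chord through the nodes `y j`, `y (j + 1)` -/
noncomputable def ch (m : ℝ → ℝ) (y : ℕ → ℝ) (j : ℕ) (t : ℝ) : ℝ :=
  m (y j) + (m (y (j + 1)) - m (y j)) / (y (j + 1) - y j) * (t - y j)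

/-- the maximum of the chords -/
noncomputable def LL (m : ℝ → ℝ) (y : ℕ → ℝ) (N : ℕ) (hN : (Finset.range N).Nonempty) (t : ℝ) : ℝ :=
  (Finset.range N).sup' hN (fun j => ch m y j t)

theorem three {s : Set ℝ} {m : ℝ → ℝ} (hm : ConvexOn ℝ s m) {x y z : ℝ} (hx : x ∈ s) (hz : z ∈ s)
    (hxy : x ≤ y) (hyz : y ≤ z) : (z - x) * m y ≤ (z - y) * m x + (y - x) * m z := by
  rcases eq_or_lt_of_le (hxy.trans hyz) with h | h
  · have h1 : y = x := le_antisymm (by linarith) hxy
    subst h1
    subst h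
    simp
  · have hpos : 0 < z - x := by linarith
    have ha : 0 ≤ (z - y) / (z - x) := div_nonneg (by linarith) hpos.le
    have hb : 0 ≤ (y - x) / (z - x) := div_nonneg (by linarith) hpos.le
    have hab : (z - y) / (z - x) + (y - x) / (z - x) = 1 := by field_simp; ring
    have h1 := hm.2 hx hz ha hb hab
    have h2 : ((z - y) / (z - x)) • x + ((y - x) / (z - x)) • z = y := by
      simp only [smul_eq_mul]
      field_simp
      ring
    rw [h2] at h1
    simp only [smul_eq_mul] at h1
    have h3 : (z - x) * m y ≤ (z - x) * ((z - y) / (z - x) * m x + (y - x) / (z - x) * m z) :=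
      mul_le_mul_of_nonneg_left h1 hpos.le
    refine h3.trans (le_of_eq ?_)
    field_simp

theorem chord_ge {s : Set ℝ} {m : ℝ → ℝ} (hm : ConvexOn ℝ s m) {a b t : ℝ} (ha : a ∈ s)
    (hb : b ∈ s) (hab : a < b) (h1 : a ≤ t) (h2 : t ≤ b) :
    m t ≤ m a + (m b - m a) / (b - a) * (t - a) := by
  have h := three hm ha hb h1 h2
  have hpos : 0 < b - a := by linarith
  have h3 : (b - a) * m t ≤ (b - a) * (m a + (m b - m a) / (b - a) * (t - a)) := by
    refine h.trans (le_of_eq ?_)
    field_simp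
    ring
  exact le_of_mul_le_mul_left h3 hpos

theorem chord_le_right {s : Set ℝ} {m : ℝ → ℝ} (hm : ConvexOn ℝ s m) {a b t : ℝ} (ha : a ∈ s)
    (ht : t ∈ s) (hab : a < b) (h1 : b ≤ t) :
    m a + (m b - m a) / (b - a) * (t - a) ≤ m t := by
  have h := three hm ha ht hab.le h1
  have hpos : 0 < b - a := by linarith
  have h3 : (b - a) * (m a + (m b - m a) / (b - a) * (t - a)) ≤ (b - a) * m t := by
    have : (b - a) * (m a + (m b - m a) / (b - a) * (t - a)) =
        (b - a) * m a + (m b - m a) * (t - a) := by field_simp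
    rw [this]
    nlinarith
  exact le_of_mul_le_mul_left h3 hpos

theorem chord_le_left {s : Set ℝ} {m : ℝ → ℝ} (hm : ConvexOn ℝ s m) {a b t : ℝ} (hb : b ∈ s)
    (ht : t ∈ s) (hab : a < b) (h1 : t ≤ a) :
    m a + (m b - m a) / (b - a) * (t - a) ≤ m t := by
  have h := three hm ht hb h1 hab.le
  have hpos : 0 < b - a := by linarith
  have h3 : (b - a) * (m a + (m b - m a) / (b - a) * (t - a)) ≤ (b - a) * m t := by
    have : (b - a) * (m a + (m b - m a) / (b - a) * (t - a)) =
        (b - a) * m a + (m b - m a) * (t - a) := by field_simp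
    rw [this]
    nlinarith
  exact le_of_mul_le_mul_left h3 hpos

theorem ymono_le {N : ℕ} {y : ℕ → ℝ} (ymono : ∀ j < N, y j < y (j + 1)) :
    ∀ i j, i ≤ j → j ≤ N → y i ≤ y j := by
  intro i j hij hj
  induction j, hij using Nat.le_induction with
  | base => exact le_rfl
  | succ k hk ih => exact (ih (by omega)).trans (ymono k (by omega)).le

theorem exists_node {N : ℕ} {y : ℕ → ℝ} {t : ℝ} (h0 : y 0 ≤ t) (hN : t ≤ y N) (hN1 : 1 ≤ N) :
    ∃ j < N, t ∈ Set.Icc (y j) (y (j + 1)) := by
  by_contra hcon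
  push Not at hcon
  have : ∀ j ≤ N, 1 ≤ j → y j < t := by
    intro j hj h1
    induction j, h1 using Nat.le_induction with
    | base =>
      by_contra h
      push Not at h
      exact hcon 0 (by omega) ⟨h0, h⟩
    | succ k hk ih =>
      have h2 := ih (by omega)
      by_contra h
      push Not at h
      exact hcon k (by omega) ⟨h2.le, h⟩
  exact absurd (this N le_rfl hN1) (not_lt.2 hN)

section

variable {H : ℝ} {N : ℕ} {y : ℕ → ℝ} {m : ℝ → ℝ}

theorem LL_eq (hN : (Finset.range N).Nonempty) (hm : ConvexOn ℝ (Set.Icc (-H) H) m)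
    (y0 : y 0 = -H) (yN : y N = H) (ymono : ∀ j < N, y j < y (j + 1)) {j : ℕ} (hj : j < N) {t : ℝ}
    (ht : t ∈ Set.Icc (y j) (y (j + 1))) : LL m y N hN t = ch m y j t := by
  have hle := ymono_le ymono
  have hmem : ∀ i ≤ N, y i ∈ Set.Icc (-H) H := fun i hi =>
    ⟨by rw [← y0]; exact hle 0 i (by omega) hi, by rw [← yN]; exact hle i N hi le_rfl⟩
  have htm : t ∈ Set.Icc (-H) H :=
    ⟨(hmem j hj.le).1.trans ht.1, ht.2.trans (hmem (j + 1) hj).2⟩
  have h1 : m t ≤ ch m y j t :=
    chord_ge hm (hmem j hj.le) (hmem (j + 1) hj) (ymono j hj) ht.1 ht.2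
  apply le_antisymm
  · apply Finset.sup'_le
    intro i hi
    rw [Finset.mem_range] at hi
    rcases lt_trichotomy i j with h | h | h
    · refine le_trans ?_ h1
      exact chord_le_right hm (hmem i hi.le) htm (ymono i hi) ((hle (i + 1) j h hj.le).trans ht.1)
    · rw [h]
    · refine le_trans ?_ h1
      exact chord_le_left hm (hmem (i + 1) hi) htm (ymono i hi) (ht.2.trans (hle (j + 1) i h hi.le))
  · exact Finset.le_sup' (fun j => ch m y j t) (Finset.mem_range.2 hj)

theorem LL_convex (hN : (Finset.range N).Nonempty) (s : Set ℝ) (hs : Convex ℝ s) :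
    ConvexOn ℝ s (LL m y N hN) := by
  refine ⟨hs, ?_⟩
  intro x _ z _ a b ha hb hab
  apply Finset.sup'_le
  intro i hi
  have h1 : ch m y i (a • x + b • z) = a * ch m y i x + b * ch m y i z := by
    unfold ch
    simp only [smul_eq_mul]
    have : b = 1 - a := by linarith
    subst this
    ring
  rw [h1]
  simp only [smul_eq_mul]
  exact add_le_add
    (mul_le_mul_of_nonneg_left (Finset.le_sup' (fun j => ch m y j x) hi) ha)
    (mul_le_mul_of_nonneg_left (Finset.le_sup' (fun j => ch m y j z) hi) hb)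

end

/-! ### the section function -/

theorem ext2 {p q : E 2} (h0 : p 0 = q 0) (h1 : p 1 = q 1) : p = q := by
  ext i
  fin_cases i
  · exact h0
  · exact h1

theorem norm_sq (p : E 2) : ‖p‖ ^ 2 = (p 0) ^ 2 + (p 1) ^ 2 := by
  rw [EuclideanSpace.norm_sq_eq, Fin.sum_univ_two]
  simp

theorem abs_coord_le (p : E 2) : |p 0| ≤ ‖p‖ ∧ |p 1| ≤ ‖p‖ := by
  have h := norm_sq p
  constructor
  · apply abs_le_of_sq_le_sq _ (norm_nonneg _)
    nlinarith [sq_nonneg (p 1)]
  · apply abs_le_of_sq_le_sq _ (norm_nonneg _)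
    nlinarith [sq_nonneg (p 0)]

theorem norm_le_sum (p : E 2) : ‖p‖ ≤ |p 0| + |p 1| := by
  have h := norm_sq p
  apply le_of_sq_le_sq _ (by positivity)
  rw [h]
  nlinarith [abs_nonneg (p 0), abs_nonneg (p 1), sq_abs (p 0), sq_abs (p 1),
    mul_nonneg (abs_nonneg (p 0)) (abs_nonneg (p 1))]

theorem exists_ball {W : Set (E 2)} (hW : IsBody W) : ∃ r > 0, Metric.closedBall (0 : E 2) r ⊆ W := by
  obtain ⟨x, hx⟩ := hW.nonempty_interior
  have hneg : -x ∈ interior W := by
    have h1 : Neg.neg '' (interior W) ⊆ W := by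
      rintro _ ⟨z, hz, rfl⟩
      exact hW.neg_mem z (interior_subset hz)
    have h2 : IsOpen (Neg.neg '' (interior W)) := by
      rw [Set.image_neg_eq_neg]
      exact isOpen_interior.neg
    exact interior_maximal h1 h2 ⟨x, hx, rfl⟩
  have h0 : (0 : E 2) ∈ interior W := by
    have h := hW.convex.interior hx hneg (a := 1 / 2) (b := 1 / 2) (by norm_num) (by norm_num)
      (by norm_num)
    have h3 : (1 / 2 : ℝ) • x + (1 / 2 : ℝ) • -x = 0 := by
      rw [smul_neg, add_neg_cancel]
    rwa [h3] at h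
  obtain ⟨r, hr, hb⟩ := Metric.isOpen_iff.1 isOpen_interior 0 h0
  exact ⟨r / 2, by positivity,
    (Metric.closedBall_subset_ball (by linarith)).trans (hb.trans interior_subset)⟩

/-- left end of the section at height `t` -/
noncomputable def ell (W : Set (E 2)) (t : ℝ) : ℝ := sInf {u : ℝ | (!₂[u, t] : E 2) ∈ W}

section

variable {W : Set (E 2)} {H : ℝ}

theorem zero_mem (hW : IsBody W) (hM : !₂[0, H] ∈ W) (hH : 0 < H) {t : ℝ}
    (ht : t ∈ Set.Icc (-H) H) : (!₂[0, t] : E 2) ∈ W := by
  have h1 := hW.neg_mem _ hM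
  have h := hW.convex hM h1 (a := (H + t) / (2 * H)) (b := (H - t) / (2 * H))
    (div_nonneg (by linarith [ht.1]) (by linarith)) (div_nonneg (by linarith [ht.2]) (by linarith))
    (by field_simp; ring)
  convert h using 1
  apply ext2
  · simp
  · simp
    field_simp
    ring

theorem sec_closed (hW : IsBody W) (t : ℝ) : IsClosed {u : ℝ | (!₂[u, t] : E 2) ∈ W} := by
  have hc : Continuous (fun u : ℝ => (!₂[u, t] : E 2)) := by fun_prop
  exact hW.isCompact.isClosed.preimage hc

theorem sec_bdd (hball : ∀ p ∈ W, ‖p‖ ≤ H) (t : ℝ) : BddBelow {u : ℝ | (!₂[u, t] : E 2) ∈ W} := by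
  refine ⟨-H, ?_⟩
  intro u hu
  have h1 := (abs_coord_le _).1.trans (hball _ hu)
  simp at h1
  exact (abs_le.1 h1).1

theorem ell_mem (hW : IsBody W) (hH : 0 < H) (hM : !₂[0, H] ∈ W) (hball : ∀ p ∈ W, ‖p‖ ≤ H)
    {t : ℝ} (ht : t ∈ Set.Icc (-H) H) : (!₂[ell W t, t] : E 2) ∈ W :=
  (sec_closed hW t).csInf_mem ⟨0, zero_mem hW hM hH ht⟩ (sec_bdd hball t)

theorem ell_le (hball : ∀ p ∈ W, ‖p‖ ≤ H) {p : E 2} (hp : p ∈ W) : ell W (p 1) ≤ p 0 := by
  apply csInf_le (sec_bdd hball _)
  show (!₂[p 0, p 1] : E 2) ∈ W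
  convert hp using 1
  apply ext2 <;> simp

theorem ell_nonpos (hW : IsBody W) (hH : 0 < H) (hM : !₂[0, H] ∈ W) (hball : ∀ p ∈ W, ‖p‖ ≤ H)
    {t : ℝ} (ht : t ∈ Set.Icc (-H) H) : ell W t ≤ 0 := by
  have h := ell_le hball (zero_mem hW hM hH ht)
  simpa using h

theorem ell_sq (hW : IsBody W) (hH : 0 < H) (hM : !₂[0, H] ∈ W) (hball : ∀ p ∈ W, ‖p‖ ≤ H)
    {t : ℝ} (ht : t ∈ Set.Icc (-H) H) : (ell W t) ^ 2 + t ^ 2 ≤ H ^ 2 := by
  have h := hball _ (ell_mem hW hH hM hball ht)
  have h2 := norm_sq (!₂[ell W t, t] : E 2)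
  simp only [Matrix.cons_val_zero, Matrix.cons_val_one] at h2
  rw [← h2]
  exact pow_le_pow_left₀ (norm_nonneg _) h 2

theorem ell_convex (hW : IsBody W) (hH : 0 < H) (hM : !₂[0, H] ∈ W) (hball : ∀ p ∈ W, ‖p‖ ≤ H) :
    ConvexOn ℝ (Set.Icc (-H) H) (ell W) := by
  refine ⟨convex_Icc _ _, ?_⟩
  intro x hx z hz a b ha hb hab
  have h1 := hW.convex (ell_mem hW hH hM hball hx) (ell_mem hW hH hM hball hz) ha hb hab
  have h2 := ell_le hball h1
  simpa using h2

/-- membership in terms of the section function -/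
theorem mem_of_ell (hW : IsBody W) (hH : 0 < H) (hM : !₂[0, H] ∈ W) (hball : ∀ p ∈ W, ‖p‖ ≤ H)
    {u t : ℝ} (ht : t ∈ Set.Icc (-H) H) (h1 : ell W t ≤ u) (h2 : u ≤ -ell W (-t)) :
    (!₂[u, t] : E 2) ∈ W := by
  have hA := ell_mem hW hH hM hball ht
  have ht' : -t ∈ Set.Icc (-H) H := ⟨by linarith [ht.2], by linarith [ht.1]⟩
  have hB := hW.neg_mem _ (ell_mem hW hH hM hball ht')
  rcases eq_or_lt_of_le (h1.trans h2) with h | h
  · have : u = ell W t := by linarith
    rw [this]; exact hA
  · have hpos : 0 < -ell W (-t) - ell W t := by linarith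
    have hC := hW.convex hA hB (a := (-ell W (-t) - u) / (-ell W (-t) - ell W t))
      (b := (u - ell W t) / (-ell W (-t) - ell W t)) (div_nonneg (by linarith) hpos.le)
      (div_nonneg (by linarith) hpos.le) (by field_simp; ring)
    convert hC using 1
    apply ext2
    · simp
      field_simp
      ring
    · simp
      field_simp
      ring

theorem ell_continuousOn (hW : IsBody W) (hH : 0 < H) (hM : !₂[0, H] ∈ W)
    (hball : ∀ p ∈ W, ‖p‖ ≤ H) : ContinuousOn (ell W) (Set.Icc (-H) H) := by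
  have hconv := ell_convex hW hH hM hball
  have hint : ContinuousOn (ell W) (Set.Ioo (-H) H) :=
    (hconv.subset Set.Ioo_subset_Icc_self (convex_Ioo _ _)).continuousOn isOpen_Ioo
  intro t ht
  by_cases hio : t ∈ Set.Ioo (-H) H
  · exact (hint.continuousAt (isOpen_Ioo.mem_nhds hio)).continuousWithinAt
  · -- endpoints
    have htsq : t ^ 2 = H ^ 2 := by
      rcases eq_or_lt_of_le ht.1 with h | h
      · rw [← h]; ring
      · rcases eq_or_lt_of_le ht.2 with h' | h'
        · rw [h']
        · exact absurd ⟨h, h'⟩ hio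
    have h0 : ell W t = 0 := by
      have := ell_sq hW hH hM hball ht
      rw [htsq] at this
      have : (ell W t) ^ 2 ≤ 0 := by linarith
      exact pow_eq_zero_iff (two_ne_zero) |>.1 (le_antisymm this (sq_nonneg _))
    show Tendsto (ell W) (𝓝[Set.Icc (-H) H] t) (𝓝 (ell W t))
    rw [h0]
    have hup : ∀ᶠ s in 𝓝[Set.Icc (-H) H] t, |ell W s| ≤ Real.sqrt (H ^ 2 - s ^ 2) := by
      filter_upwards [self_mem_nhdsWithin] with s hs
      apply Real.abs_le_sqrt
      linarith [ell_sq hW hH hM hball hs]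
    have hlim : Tendsto (fun s : ℝ => Real.sqrt (H ^ 2 - s ^ 2)) (𝓝[Set.Icc (-H) H] t) (𝓝 0) := by
      have hc : Continuous (fun s : ℝ => Real.sqrt (H ^ 2 - s ^ 2)) := by fun_prop
      have := (hc.tendsto t).mono_left (nhdsWithin_le_nhds (s := Set.Icc (-H) H))
      rwa [htsq, sub_self, Real.sqrt_zero] at this
    exact squeeze_zero_norm' (by simpa [Real.norm_eq_abs] using hup) hlim

end

end ApproxAux

open ApproxAux in
theorem exists_poly {W : Set (E 2)} (hW : IsBody W) {H : ℝ} (hH : 0 < H)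
    (hM : !₂[0, H] ∈ W) (hball : ∀ p ∈ W, ‖p‖ ≤ H) {η : ℝ} (hη : 0 < η) (hη1 : η < 1) :
    ∃ (N : ℕ) (y σ : ℕ → ℝ) (L : ℝ → ℝ), Poly H N y σ L ∧
      (1 - η) • W ⊆ Wset H L ∧ Wset H L ⊆ (1 + η) • W := by
  obtain ⟨r, hr, hrW⟩ := exists_ball hW
  set ε : ℝ := η * r / H ^ 2 with hε
  have hε0 : 0 < ε := by positivity
  have hεH : ε * H ^ 2 = η * r := by rw [hε]; field_simp
  set m : ℝ → ℝ := fun t => ell W t - ε * (H ^ 2 - t ^ 2) with hm
  have hell := ell_convex hW hH hM hball
  -- strict convexity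
  have hsq : StrictConvexOn ℝ (Set.Icc (-H) H) (fun t : ℝ => ε * t ^ 2 - ε * H ^ 2) := by
    refine ⟨convex_Icc _ _, ?_⟩
    intro x _ z _ hxz a b ha hb hab
    have hb' : b = 1 - a := by linarith
    subst hb'
    simp only [smul_eq_mul]
    have h1 : 0 < (x - z) ^ 2 := by
      have : x - z ≠ 0 := sub_ne_zero.2 hxz
      positivity
    have h2 : 0 < a * (1 - a) * (ε * (x - z) ^ 2) := by positivity
    nlinarith
  have hmstrict : StrictConvexOn ℝ (Set.Icc (-H) H) m := by
    have h1 := hell.add_strictConvexOn hsq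
    have h2 : (ell W + fun t : ℝ => ε * t ^ 2 - ε * H ^ 2) = m := by
      funext t
      simp only [Pi.add_apply, hm]
      ring
    rwa [h2] at h1
  have hmconv := hmstrict.convexOn
  have hmcont : ContinuousOn m (Set.Icc (-H) H) := by
    have h1 := ell_continuousOn hW hH hM hball
    exact h1.sub (by fun_prop)
  have hHmem : H ∈ Set.Icc (-H) H := ⟨by linarith, le_rfl⟩
  have hnHmem : -H ∈ Set.Icc (-H) H := ⟨le_rfl, by linarith⟩
  have hellend : ∀ t, t ∈ Set.Icc (-H) H → t ^ 2 = H ^ 2 → m t = 0 := by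
    intro t ht htsq
    have h1 := ell_sq hW hH hM hball ht
    have h2 : (ell W t) ^ 2 ≤ 0 := by linarith
    have h3 : ell W t = 0 := pow_eq_zero_iff (two_ne_zero) |>.1 (le_antisymm h2 (sq_nonneg _))
    simp only [hm, h3, htsq]
    ring
  have hmH : m H = 0 := hellend H hHmem rfl
  have hmnH : m (-H) = 0 := hellend (-H) hnHmem (by ring)
  -- uniform continuity
  set κ : ℝ := min (η * r) ((1 - η) * r / 2) with hκ
  have hκ0 : 0 < κ := lt_min (by positivity) (by
    have : 0 < 1 - η := by linarith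
    positivity)
  have huc := isCompact_Icc.uniformContinuousOn_of_continuous hmcont
  rw [Metric.uniformContinuousOn_iff] at huc
  obtain ⟨δ, hδ, hδm⟩ := huc κ hκ0
  -- choice of N
  obtain ⟨N₀, hN₀⟩ := exists_nat_gt (6 * H / min δ κ)
  set N : ℕ := max N₀ 5 with hN
  have hN5 : 5 ≤ N := le_max_right _ _
  have hNpos : (0 : ℝ) < N := by
    have : 0 < N := by omega
    exact_mod_cast this
  have hNbig : 6 * H / N < min δ κ := by
    have h1 : (N₀ : ℝ) ≤ N := by exact_mod_cast le_max_left N₀ 5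
    have h2 : 6 * H / min δ κ < N := hN₀.trans_le h1
    have h3 : 0 < min δ κ := lt_min hδ hκ0
    rw [div_lt_iff₀ h3] at h2
    rw [div_lt_iff₀ hNpos]
    linarith
  set y : ℕ → ℝ := fun j => -H + 2 * H * j / N with hy
  have y0 : y 0 = -H := by simp [hy]
  have yN : y N = H := by
    simp only [hy]
    field_simp
    ring
  have ystep : ∀ j, y (j + 1) - y j = 2 * H / N := by
    intro j
    simp only [hy]
    push_cast
    field_simp
    ring
  have hstep0 : 0 < 2 * H / N := by positivity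
  have ymono : ∀ j < N, y j < y (j + 1) := fun j _ => by
    have := ystep j
    linarith
  have hNne : (Finset.range N).Nonempty := ⟨0, Finset.mem_range.2 (by omega)⟩
  set L : ℝ → ℝ := LL m y N hNne with hL
  set σ : ℕ → ℝ := fun j => (m (y (j + 1)) - m (y j)) / (y (j + 1) - y j) with hσ
  have hle := ymono_le ymono
  have hmem : ∀ i ≤ N, y i ∈ Set.Icc (-H) H := fun i hi =>
    ⟨by rw [← y0]; exact hle 0 i (by omega) hi, by rw [← yN]; exact hle i N hi le_rfl⟩
  have hLch : ∀ j < N, ∀ t ∈ Set.Icc (y j) (y (j + 1)), L t = ch m y j t := fun j hj t ht =>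
    LL_eq hNne hmconv y0 yN ymono hj ht
  have hLy : ∀ j < N, L (y j) = m (y j) := by
    intro j hj
    rw [hLch j hj (y j) ⟨le_rfl, (ymono j hj).le⟩]
    simp [ch]
  have hLyN : L H = m H := by
    have h1 : N - 1 < N := by omega
    have h2 : N - 1 + 1 = N := by omega
    have h3 := hLch (N - 1) h1 H ⟨by
      rw [← yN]; exact hle (N - 1) N (by omega) le_rfl, by rw [h2, yN]⟩
    rw [h3, ch, h2, yN]
    have h4 : H - y (N - 1) ≠ 0 := by
      have := ystep (N - 1)
      rw [h2, yN] at this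
      rw [this]
      exact hstep0.ne'
    field_simp
    ring
  have hnode : ∀ t ∈ Set.Icc (-H) H, ∃ j < N, t ∈ Set.Icc (y j) (y (j + 1)) := by
    intro t ht
    exact exists_node (by rw [y0]; exact ht.1) (by rw [yN]; exact ht.2) (by omega)
  have hmL : ∀ t ∈ Set.Icc (-H) H, m t ≤ L t := by
    intro t ht
    obtain ⟨j, hj, htj⟩ := hnode t ht
    rw [hLch j hj t htj]
    exact chord_ge hmconv (hmem j hj.le) (hmem (j + 1) hj) (ymono j hj) htj.1 htj.2
  have hLm : ∀ t ∈ Set.Icc (-H) H, L t ≤ m t + κ := by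
    intro t ht
    obtain ⟨j, hj, htj⟩ := hnode t ht
    rw [hLch j hj t htj]
    have hst := ystep j
    have hsmall : 2 * H / N < δ := by
      have h1 : 2 * H / N ≤ 6 * H / N := by
        apply div_le_div_of_nonneg_right _ hNpos.le
        linarith
      exact h1.trans_lt (hNbig.trans_le (min_le_left _ _))
    have hA : m (y j) ≤ m t + κ := by
      have h1 := hδm (y j) (hmem j hj.le) t ht (by
        rw [Real.dist_eq, abs_lt]
        constructor <;> linarith [htj.1, htj.2])
      rw [Real.dist_eq, abs_lt] at h1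
      linarith [h1.2]
    have hB : m (y (j + 1)) ≤ m t + κ := by
      have h1 := hδm (y (j + 1)) (hmem (j + 1) hj) t ht (by
        rw [Real.dist_eq, abs_lt]
        constructor <;> linarith [htj.1, htj.2])
      rw [Real.dist_eq, abs_lt] at h1
      linarith [h1.2]
    have hpos : 0 < y (j + 1) - y j := by linarith
    have h5 : (y (j + 1) - y j) * ch m y j t ≤ (y (j + 1) - y j) * (m t + κ) := by
      have h6 : (y (j + 1) - y j) * ch m y j t =
          (y (j + 1) - t) * m (y j) + (t - y j) * m (y (j + 1)) := by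
        unfold ch
        field_simp
        ring
      rw [h6]
      nlinarith [mul_le_mul_of_nonneg_left hA (sub_nonneg.2 htj.2),
        mul_le_mul_of_nonneg_left hB (sub_nonneg.2 htj.1)]
    exact le_of_mul_le_mul_left h5 hpos
  have hLell : ∀ t ∈ Set.Icc (-H) H, L t ≤ ell W t + η * r := by
    intro t ht
    have h1 := hLm t ht
    have h2 : m t ≤ ell W t := by
      simp only [hm]
      have : 0 ≤ ε * (H ^ 2 - t ^ 2) := by
        apply mul_nonneg hε0.le
        nlinarith [ht.1, ht.2]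
      linarith
    have h3 : κ ≤ η * r := min_le_left _ _
    linarith
  -- inclusion 1
  have hinc1 : (1 - η) • W ⊆ Wset H L := by
    have key : ∀ q ∈ W, |((1 - η) • q) 1| ≤ H ∧ L (((1 - η) • q) 1) ≤ ((1 - η) • q) 0 := by
      intro q hq
      have h1 := (abs_coord_le q).2.trans (hball q hq)
      have h2 : |((1 - η) • q) 1| ≤ H := by
        simp only [PiLp.smul_apply, smul_eq_mul]
        rw [abs_mul, abs_of_nonneg (by linarith : 0 ≤ 1 - η)]
        have : (1 - η) * |q 1| ≤ 1 * |q 1| := mul_le_mul_of_nonneg_right (by linarith) (abs_nonneg _)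
        linarith
      refine ⟨h2, ?_⟩
      have h3 : ((1 - η) • q) 1 ∈ Set.Icc (-H) H := abs_le.1 h2
      have h4 : (!₂[-r, 0] : E 2) ∈ W := by
        apply hrW
        rw [mem_closedBall_zero_iff]
        refine (norm_le_sum _).trans ?_
        simp [abs_of_pos hr]
      have h5 := hW.convex hq h4 (by linarith : 0 ≤ 1 - η) hη.le (by ring)
      have h6 := ell_le hball h5
      have h7 := hLell _ h3
      simp only [PiLp.add_apply, PiLp.smul_apply, smul_eq_mul, Matrix.cons_val_zero,
        Matrix.cons_val_one, mul_zero, add_zero] at h6 h7 ⊢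
      linarith
    rintro p ⟨q, hq, rfl⟩
    obtain ⟨h1, h2⟩ := key q hq
    obtain ⟨_, h4⟩ := key (-q) (hW.neg_mem q hq)
    refine ⟨h1, h2, ?_⟩
    simp only [smul_neg, PiLp.neg_apply] at h4
    show ((1 - η) • q) 0 ≤ -L (-((1 - η) • q) 1)
    linarith
  refine ⟨N, y, σ, L, ⟨hH, hN5, y0, yN, ymono, ?_, ?_, ?_, ?_, ?_, ?_⟩, hinc1, ?_⟩
  · -- lin
    intro j hj t ht
    rw [hLch j hj t ht, hLy j hj, ch]
  · -- σmono
    intro j hj
    exact hmstrict.slope_strict_mono_adjacent (hmem j (by omega)) (hmem (j + 1 + 1) (by omega))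
      (ymono j (by omega)) (ymono (j + 1) hj)
  · exact LL_convex hNne _ (convex_Icc _ _)
  · rw [← y0, hLy 0 (by omega), y0, hmnH]
  · rw [hLyN, hmH]
  · -- shift
    intro j hj1 hj2 p hp0 hp1
    have hnear : ∀ i, N - 3 ≤ i → i < N → |L (y i)| < κ ∧ H - y i ≤ 6 * H / N ∧ 0 ≤ H - y i := by
      intro i hi1 hi2
      have h1 : H - y i ≤ 6 * H / N := by
        have h2 : (N : ℝ) - 3 ≤ i := by
          have : N ≤ i + 3 := by omega
          have : (N : ℝ) ≤ i + 3 := by exact_mod_cast this
          linarith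
        simp only [hy]
        rw [le_div_iff₀ hNpos]
        have : (H - (-H + 2 * H * i / N)) * N = 2 * H * (N - i) := by
          field_simp
          ring
        rw [this]
        nlinarith
      have h3 := (hmem i hi2.le).2
      refine ⟨?_, h1, by linarith⟩
      rw [hLy i hi2]
      have h4 := hδm (y i) (hmem i hi2.le) H hHmem (by
        rw [Real.dist_eq, abs_lt]
        have := hNbig.trans_le (min_le_left δ κ)
        constructor <;> linarith)
      rwa [Real.dist_eq, hmH, sub_zero] at h4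
    obtain ⟨a1, a2, a3⟩ := hnear (N - 2) (by omega) (by omega)
    obtain ⟨b1, b2, b3⟩ := hnear j hj1 hj2
    have hκ6 : 6 * H / N < κ := hNbig.trans_le (min_le_right _ _)
    have hnorm : ‖p‖ < (1 - η) * r := by
      refine (norm_le_sum p).trans_lt ?_
      have h1 : |p 0| < κ := by
        rw [hp0, abs_lt]
        rw [abs_lt] at a1 b1
        constructor <;> linarith [a1.1, a1.2, b1.1, b1.2]
      have h2 : |p 1| < κ := by
        rw [hp1, abs_lt]
        constructor <;> linarith
      have h3 : κ ≤ (1 - η) * r / 2 := min_le_right _ _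
      linarith
    have hsub : Metric.ball (0 : E 2) ((1 - η) * r) ⊆ Wset H L := by
      refine Set.Subset.trans ?_ hinc1
      intro q hq
      rw [mem_ball_zero_iff] at hq
      have h1η : 0 < 1 - η := by linarith
      refine ⟨(1 - η)⁻¹ • q, hrW ?_, ?_⟩
      · rw [mem_closedBall_zero_iff, norm_smul, Real.norm_eq_abs, abs_of_pos (inv_pos.2 h1η)]
        rw [inv_mul_le_iff₀ h1η]
        exact hq.le
      · show (1 - η) • (1 - η)⁻¹ • q = q
        rw [smul_smul, mul_inv_cancel₀ h1η.ne', one_smul]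
    exact interior_maximal hsub Metric.isOpen_ball (mem_ball_zero_iff.2 hnorm)
  · -- inclusion 2
    rintro p ⟨h1, h2, h3⟩
    have ht : p 1 ∈ Set.Icc (-H) H := abs_le.1 h1
    have ht' : -p 1 ∈ Set.Icc (-H) H := ⟨by linarith [ht.2], by linarith [ht.1]⟩
    have h4 := hmL _ ht
    have h5 := hmL _ ht'
    have h6 : ell W (p 1) - η * r ≤ p 0 := by
      have : m (p 1) = ell W (p 1) - η * r + ε * (p 1) ^ 2 := by
        simp only [hm]; rw [← hεH]; ring
      have h7 : 0 ≤ ε * (p 1) ^ 2 := by positivity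
      linarith
    have h8 : p 0 ≤ -ell W (-p 1) + η * r := by
      have : m (-p 1) = ell W (-p 1) - η * r + ε * (p 1) ^ 2 := by
        simp only [hm]; rw [← hεH]; ring
      have h7 : 0 ≤ ε * (p 1) ^ 2 := by positivity
      linarith
    have hAB : ell W (p 1) ≤ -ell W (-p 1) := by
      have h9 := hW.neg_mem _ (ell_mem hW hH hM hball ht')
      have h10 := ell_le hball h9
      simpa using h10
    -- clamp
    set q0 : ℝ := max (ell W (p 1)) (min (p 0) (-ell W (-p 1))) with hq0
    have hq : (!₂[q0, p 1] : E 2) ∈ W :=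
      mem_of_ell hW hH hM hball ht (le_max_left _ _) (max_le hAB (min_le_right _ _))
    have hηr : 0 < η * r := by positivity
    have hd : |p 0 - q0| ≤ η * r := by
      rw [abs_le]
      constructor
      · have : q0 ≤ p 0 + η * r := max_le (by linarith) ((min_le_left _ _).trans (by linarith))
        linarith
      · rcases le_total (p 0) (-ell W (-p 1)) with h | h
        · have : p 0 ≤ q0 := by rw [hq0, min_eq_left h]; exact le_max_right _ _
          linarith
        · have : -ell W (-p 1) ≤ q0 := by rw [hq0, min_eq_right h]; exact le_max_right _ _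
          linarith
    have hz : (!₂[η⁻¹ * (p 0 - q0), 0] : E 2) ∈ W := by
      apply hrW
      rw [mem_closedBall_zero_iff]
      refine (norm_le_sum _).trans ?_
      simp only [Matrix.cons_val_zero, Matrix.cons_val_one, abs_zero, add_zero]
      rw [abs_mul, abs_of_pos (inv_pos.2 hη), inv_mul_le_iff₀ hη]
      exact hd
    have h1η : 0 < 1 + η := by linarith
    have hcomb := hW.convex hq hz (div_nonneg zero_le_one h1η.le) (div_nonneg hη.le h1η.le)
      (by field_simp)
    refine ⟨_, hcomb, ?_⟩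
    apply ext2
    · simp only [PiLp.add_apply, PiLp.smul_apply, smul_eq_mul, Matrix.cons_val_zero]
      field_simp
      ring
    · simp only [PiLp.add_apply, PiLp.smul_apply, smul_eq_mul, Matrix.cons_val_one,
        Matrix.cons_val_zero, mul_zero, add_zero]
      field_simp

end Pool.Agent.MPbd65ca
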