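import Pool.Agent.Lib.MP_bd65ca_an.Defs

/-!
# A nonnegative function with small spectrum
-/

open MeasureTheory FourierTransform Pointwise Filter Topology
open scoped RealInnerProductSpace ContDiff SchwartzMap Convolution

namespace Pool.Agent.MPbd65ca

namespace BumpAux

variable {d : ℕ}

/-- Fourier transform of a Fourier transform. -/
theorem fourier_fourier (g : 𝓢(E d, ℂ)) (ξ : E d) :
    (𝓕 (fun x : E d => (𝓕 g : 𝓢(E d, ℂ)) x) : E d → ℂ) ξ = g (-ξ) := by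
  have h1 : 𝓕⁻ (𝓕 g) (-ξ) = g (-ξ) := by simp
  rw [SchwartzMap.fourierInv_coe, Real.fourierInv_eq_fourier_neg, neg_neg] at h1
  exact h1

/-- The convolution square. -/
noncomputable def sq (f : 𝓢(E d, ℂ)) : 𝓢(E d, ℂ) :=
  SchwartzMap.convolution (ContinuousLinearMap.mul ℂ ℂ) f f

theorem fourier_sq (f : 𝓢(E d, ℂ)) (x : E d) : (𝓕 (sq f)) x = (𝓕 f) x * (𝓕 f) x := by
  rw [sq, SchwartzMap.fourier_convolution]
  rfl

theorem sq_eq_zero {f : 𝓢(E d, ℂ)} {r : ℝ} (hf : ∀ x, r < ‖x‖ → f x = 0) {x : E d}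
    (hx : r + r < ‖x‖) : sq f x = 0 := by
  rw [sq, SchwartzMap.convolution_apply]
  by_contra hne
  have h1 : x ∈ Function.support ((f : E d → ℂ) ⋆[ContinuousLinearMap.mul ℂ ℂ] (f : E d → ℂ)) :=
    hne
  have h2 := support_convolution_subset_swap (ContinuousLinearMap.mul ℂ ℂ) h1
  obtain ⟨a, ha, b, hb, hab⟩ := Set.mem_add.1 h2
  have ha' : ‖a‖ ≤ r := by
    by_contra hcon
    exact ha (hf a (lt_of_not_ge hcon))
  have hb' : ‖b‖ ≤ r := by
    by_contra hcon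
    exact hb (hf b (lt_of_not_ge hcon))
  have h3 : ‖x‖ ≤ ‖a‖ + ‖b‖ := by
    rw [← hab]
    exact norm_add_le a b
  linarith

theorem fourier_real {φ : E d → ℝ} (hφ : ∀ x, φ (-x) = φ x) (ξ : E d) :
    (starRingEnd ℂ) (𝓕 (fun x => (φ x : ℂ)) ξ) = 𝓕 (fun x => (φ x : ℂ)) ξ := by
  rw [Real.fourier_eq', ← integral_conj]
  rw [← integral_neg_eq_self]
  refine integral_congr_ae (Filter.Eventually.of_forall fun v => ?_)
  simp only [smul_eq_mul, map_mul, Complex.conj_ofReal, hφ, ← Complex.exp_conj, Complex.conj_I,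
    inner_neg_left]
  congr 2
  push_cast
  ring

end BumpAux

open BumpAux in
theorem exists_bump (d : ℕ) {ρ : ℝ} (hρ : 0 < ρ) : ∃ Ψ : E d → ℝ, Continuous Ψ ∧
    (∀ x, 0 ≤ Ψ x) ∧ Integrable Ψ ∧ 0 < ∫ x, Ψ x ^ 2 ∧ Tendsto Ψ (cocompact (E d)) (𝓝 0) ∧
    Vanish (Metric.closedBall 0 ρ) (fun x => (Ψ x : ℂ)) ∧
    Vanish (Metric.closedBall 0 ρ) (fun x => ((Ψ x ^ 2 : ℝ) : ℂ)) := by
  let φ : ContDiffBump (0 : E d) := ⟨ρ / 8, ρ / 4, by linarith, by linarith⟩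
  have hcs : HasCompactSupport (fun x => (φ x : ℂ)) :=
    φ.hasCompactSupport.comp_left (g := fun r : ℝ => (r : ℂ)) (by simp)
  have hsm : ContDiff ℝ ∞ (fun x => (φ x : ℂ)) :=
    Complex.ofRealCLM.contDiff.comp φ.contDiff
  let f : 𝓢(E d, ℂ) := hcs.toSchwartzMap hsm
  have hf : ∀ x, f x = (φ x : ℂ) := fun x => rfl
  have hf0 : ∀ x, ρ / 4 < ‖x‖ → f x = 0 := by
    intro x hx
    rw [hf, φ.zero_of_le_dist (by rw [dist_zero_right]; exact hx.le)]
    simp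
  let g : 𝓢(E d, ℂ) := sq f
  let h : 𝓢(E d, ℂ) := sq g
  have hg0 : ∀ x, ρ / 2 < ‖x‖ → g x = 0 := fun x hx => sq_eq_zero hf0 (by linarith)
  have hh0 : ∀ x, ρ < ‖x‖ → h x = 0 := fun x hx => sq_eq_zero hg0 (by linarith)
  have hreal : ∀ x, (((𝓕 f) x).re : ℂ) = (𝓕 f) x := by
    intro x
    have h1 : (starRingEnd ℂ) ((𝓕 f) x) = (𝓕 f) x := fourier_real (φ := φ) (fun x => φ.neg x) x
    exact Complex.conj_eq_iff_re.1 h1
  let Ψ : E d → ℝ := fun x => ((𝓕 f) x).re ^ 2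
  have hΨg : (fun x => (Ψ x : ℂ)) = fun x => (𝓕 g) x := by
    funext x
    change (((((𝓕 f) x).re ^ 2 : ℝ)) : ℂ) = (𝓕 (sq f)) x
    rw [fourier_sq]
    push_cast
    rw [hreal, pow_two]
  have hΨh : (fun x => ((Ψ x ^ 2 : ℝ) : ℂ)) = fun x => (𝓕 h) x := by
    funext x
    change ((Ψ x ^ 2 : ℝ) : ℂ) = (𝓕 (sq g)) x
    rw [fourier_sq]
    have h1 : (Ψ x : ℂ) = (𝓕 g) x := congrFun hΨg x
    push_cast
    rw [h1, pow_two]
  have hΨre : Ψ = fun x => ((𝓕 g) x).re := by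
    funext x
    have h1 : (Ψ x : ℂ) = (𝓕 g) x := congrFun hΨg x
    rw [← h1, Complex.ofReal_re]
  have hΨ2re : (fun x => Ψ x ^ 2) = fun x => ((𝓕 h) x).re := by
    funext x
    have h1 : ((Ψ x ^ 2 : ℝ) : ℂ) = (𝓕 h) x := congrFun hΨh x
    rw [← h1, Complex.ofReal_re]
  have hcont : Continuous Ψ := by
    rw [hΨre]
    exact Complex.continuous_re.comp (𝓕 g).continuous
  have hint : Integrable Ψ := by
    rw [hΨre]
    exact (𝓕 g).integrable.re
  have hint2 : Integrable (fun x => Ψ x ^ 2) := by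
    rw [hΨ2re]
    exact (𝓕 h).integrable.re
  refine ⟨Ψ, hcont, fun x => sq_nonneg _, hint, ?_, ?_, ?_, ?_⟩
  · have h0 : 0 < ((𝓕 f) 0).re := by
      have h1 : (𝓕 f) 0 = ((∫ x, φ x : ℝ) : ℂ) := by
        have h2 : (𝓕 f) 0 = 𝓕 (fun x => (φ x : ℂ)) 0 := rfl
        rw [h2, Real.fourier_eq', ← integral_complex_ofReal]
        simp
      rw [h1, Complex.ofReal_re]
      exact φ.integral_pos
    rw [integral_pos_iff_support_of_nonneg (fun x => sq_nonneg _) hint2]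
    have hopen : IsOpen (Function.support fun x => Ψ x ^ 2) :=
      (hcont.pow 2).isOpen_support
    refine hopen.measure_pos volume ⟨0, ?_⟩
    rw [Function.mem_support]
    have : 0 < Ψ 0 := pow_pos h0 2
    positivity
  · rw [hΨre]
    have h1 := (𝓕 g).tendsto_cocompact
    have h2 := (Complex.continuous_re.tendsto (0 : ℂ)).comp h1
    rw [Complex.zero_re] at h2
    exact h2
  · refine ⟨?_, fun ξ hξ => ?_⟩
    · rw [hΨg]
      exact (𝓕 g).integrable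
    · rw [hΨg, fourier_fourier]
      apply hg0
      rw [Metric.mem_closedBall, dist_zero_right, not_le] at hξ
      rw [norm_neg]
      linarith
  · refine ⟨?_, fun ξ hξ => ?_⟩
    · rw [hΨh]
      exact (𝓕 h).integrable
    · rw [hΨh, fourier_fourier]
      apply hh0
      rw [Metric.mem_closedBall, dist_zero_right, not_le] at hξ
      rw [norm_neg]
      linarith

end Pool.Agent.MPbd65ca
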