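import Pool.Agent.Lib.MP_bd65ca_an.Defs

/-!
# MP_bd65ca_an, module Spectrum

The Fourier transform of an (integrable) characteristic function of a finite measure concentrated
on the closed set `K` vanishes outside `K`.
-/

open MeasureTheory FourierTransform Pointwise Filter Topology
open scoped RealInnerProductSpace

namespace Pool.Agent.MPbd65ca

theorem SpectrumAux.charFun_eq {d : ℕ} (μ : Measure (E d)) (x : E d) :
    charFun μ ((2 * Real.pi) • x) =
      VectorFourier.fourierIntegral Real.fourierChar μ (-(innerₗ (E d))) (fun _ => (1 : ℂ)) x := by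
  rw [charFun_apply, VectorFourier.fourierIntegral]
  congr 1
  ext ω
  rw [Circle.smul_def, Real.fourierChar_apply, smul_eq_mul, mul_one]
  congr 1
  simp only [LinearMap.neg_apply, innerₗ_apply_apply, neg_neg, inner_smul_right]

theorem SpectrumAux.pairing {d : ℕ} (μ : Measure (E d)) [IsFiniteMeasure μ]
    (g : SchwartzMap (E d) ℂ) :
    ∫ x : E d, charFun μ ((2 * Real.pi) • x) • (𝓕 g) x = ∫ ω, g ω ∂μ := by
  have h1 : ∫ x : E d, charFun μ ((2 * Real.pi) • x) • (𝓕 g) x =
      ∫ x : E d, (VectorFourier.fourierIntegral Real.fourierChar μ (-(innerₗ (E d)))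
        (fun _ => (1 : ℂ)) x) • (𝓕 g) x := by
    congr 1
    ext x
    rw [SpectrumAux.charFun_eq]
  rw [h1, VectorFourier.integral_fourierIntegral_smul_eq_flip Real.continuous_fourierChar]
  · congr 1
    ext ω
    rw [one_smul]
    have h2 : 𝓕⁻ (𝓕 g) ω = g ω := by simp
    rw [← h2]
    rw [SchwartzMap.fourierInv_coe]
    rw [Real.fourierInv_eq]
    rw [VectorFourier.fourierIntegral]
    congr 1
    ext v
    simp only [LinearMap.flip_apply, LinearMap.neg_apply, innerₗ_apply_apply, neg_neg]
    rw [real_inner_comm]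
  · exact (continuous_inner.neg : Continuous fun p : E d × E d => -(inner ℝ p.1 p.2 : ℝ))
  · exact integrable_const _
  · exact (𝓕 g).integrable

theorem vanish_of_charFun {d : ℕ} {K : Set (E d)} (hK : IsClosed K) (μ : Measure (E d))
    [IsFiniteMeasure μ] (hμ : ∀ᵐ ω ∂μ, ω ∈ K)
    (hf : Integrable (fun x : E d => charFun μ ((2 * Real.pi) • x))) :
    Vanish K (fun x => charFun μ ((2 * Real.pi) • x)) := by
  refine ⟨hf, ?_⟩
  set f : E d → ℂ := fun x => charFun μ ((2 * Real.pi) • x) with hfdef
  have hcont : Continuous (𝓕 f) :=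
    VectorFourier.fourierIntegral_continuous Real.continuous_fourierChar
      (continuous_inner : Continuous fun p : E d × E d => (inner ℝ p.1 p.2 : ℝ)) hf
  have hae : ∀ᵐ x : E d, x ∈ Kᶜ → 𝓕 f x = 0 := by
    refine hK.isOpen_compl.ae_eq_zero_of_integral_contDiff_smul_eq_zero
      (hcont.locallyIntegrable.locallyIntegrableOn _) ?_
    intro g hg1 hg2 hg3
    have hgc : HasCompactSupport (fun x => (g x : ℂ)) :=
      hg2.comp_left (g := fun r : ℝ => (r : ℂ)) Complex.ofReal_zero
    have hgs : ContDiff ℝ ((⊤ : ℕ∞) : WithTop ℕ∞) (fun x => (g x : ℂ)) :=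
      Complex.ofRealCLM.contDiff.comp hg1
    set G : SchwartzMap (E d) ℂ := hgc.toSchwartzMap hgs with hG
    have hGc : ∀ x, G x = (g x : ℂ) := fun x => rfl
    have h1 : ∫ x, g x • 𝓕 f x = ∫ x, (𝓕 f x) • G x := by
      congr 1
      ext x
      rw [hGc, Complex.real_smul, smul_eq_mul, mul_comm]
    have h2 : ∫ x, (𝓕 f x) • G x = ∫ x, f x • (𝓕 G) x := by
      simpa using! VectorFourier.integral_fourierIntegral_smul_eq_flip (L := innerₗ (E d))
        Real.continuous_fourierChar continuous_inner hf G.integrable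
    rw [h1, h2, hfdef, SpectrumAux.pairing μ G]
    apply integral_eq_zero_of_ae
    filter_upwards [hμ] with ω hω
    rw [hGc]
    have : g ω = 0 := by
      by_contra hne
      exact hg3 (subset_tsupport g hne) hω
    simp [this]
  have hEq : Set.EqOn (𝓕 f) (fun _ => (0 : ℂ)) Kᶜ := by
    apply Measure.eqOn_open_of_ae_eq (μ := volume) _ hK.isOpen_compl hcont.continuousOn
      continuousOn_const
    rw [Filter.EventuallyEq, ae_restrict_iff' hK.isOpen_compl.measurableSet]
    exact hae
  intro ξ hξ
  exact hEq hξ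

end Pool.Agent.MPbd65ca
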