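import Pool.Agent.Lib.MP_bd65ca_an.Defs
import Pool.Agent.Lib.MP_bd65ca_an.Spectrum

/-!
# The cosine transform of the indicator function of a symmetric compact set
-/

open MeasureTheory FourierTransform Pointwise Filter Topology
open scoped RealInnerProductSpace

namespace Pool.Agent.MPbd65ca

namespace CosTAux

variable {d : ℕ} {W : Set (E d)}

theorem neg_setIntegral (hs : ∀ x ∈ W, -x ∈ W) (f : E d → ℝ) :
    ∫ ω in W, f (-ω) = ∫ ω in W, f ω := by
  have h := (Measure.measurePreserving_neg (volume : Measure (E d))).setIntegral_preimage_emb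
    (MeasurableEquiv.neg (E d)).measurableEmbedding f W
  have h2 : (Neg.neg : E d → E d) ⁻¹' W = W := by
    ext x
    constructor
    · intro hx
      have := hs _ hx
      simpa using this
    · intro hx
      exact hs x hx
  rw [h2] at h
  exact h

theorem cosT_eq (hW : IsCompact W) (hs : ∀ x ∈ W, -x ∈ W) (x : E d) :
    ((cosT W x : ℝ) : ℂ) = charFun (volume.restrict W) ((2 * Real.pi) • x) := by
  have : IsFiniteMeasure (volume.restrict W : Measure (E d)) :=
    ⟨by rw [Measure.restrict_apply_univ]; exact hW.measure_lt_top⟩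
  rw [charFun_apply]
  have h1 : ∀ ω : E d, Complex.exp ((⟪ω, (2 * Real.pi) • x⟫ : ℝ) * Complex.I)
      = ((Real.cos (2 * Real.pi * ⟪x, ω⟫) : ℝ) : ℂ)
        + ((Real.sin (2 * Real.pi * ⟪x, ω⟫) : ℝ) : ℂ) * Complex.I := by
    intro ω
    rw [real_inner_smul_right, real_inner_comm, Complex.exp_mul_I, Complex.ofReal_cos,
      Complex.ofReal_sin]
  simp only [h1]
  have hc : Integrable (fun ω : E d => Real.cos (2 * Real.pi * ⟪x, ω⟫)) (volume.restrict W) := by
    refine Integrable.mono' (integrable_const (1:ℝ))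
      (Continuous.aestronglyMeasurable (by fun_prop)) (Eventually.of_forall fun ω => ?_)
    rw [Real.norm_eq_abs]
    exact Real.abs_cos_le_one _
  have hsn : Integrable (fun ω : E d => Real.sin (2 * Real.pi * ⟪x, ω⟫)) (volume.restrict W) := by
    refine Integrable.mono' (integrable_const (1:ℝ))
      (Continuous.aestronglyMeasurable (by fun_prop)) (Eventually.of_forall fun ω => ?_)
    rw [Real.norm_eq_abs]
    exact Real.abs_sin_le_one _
  rw [integral_add hc.ofReal (hsn.ofReal.mul_const _), integral_mul_const,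
    integral_complex_ofReal, integral_complex_ofReal]
  have h2 : ∫ ω in W, Real.sin (2 * Real.pi * ⟪x, ω⟫) = 0 := by
    have h3 := neg_setIntegral hs (fun ω => Real.sin (2 * Real.pi * ⟪x, ω⟫))
    simp only [inner_neg_right, mul_neg, Real.sin_neg, integral_neg] at h3
    linarith
  rw [h2]
  simp [cosT]

/-- Gaussian averages of a characteristic function. -/
theorem gauss (ν : Measure (E d)) [IsFiniteMeasure ν] {ε : ℝ} (hε : 0 < ε) :
    ∫ x : E d, charFun ν ((2 * Real.pi) • x) * Complex.exp (-((Real.pi * ε : ℝ) : ℂ) * ‖x‖ ^ 2)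
      = ∫ ω, ((((1 / ε) ^ ((d : ℝ) / 2) * Real.exp (-(Real.pi / ε) * ‖ω‖ ^ 2) : ℝ)) : ℂ) ∂ν := by
  have hb : 0 < ((Real.pi * ε : ℝ) : ℂ).re := by
    rw [Complex.ofReal_re]; positivity
  have h1 : ∀ x : E d, charFun ν ((2 * Real.pi) • x) *
      Complex.exp (-((Real.pi * ε : ℝ) : ℂ) * ‖x‖ ^ 2)
      = ∫ ω, Complex.exp (-((Real.pi * ε : ℝ) : ℂ) * ‖x‖ ^ 2
        + (2 * Real.pi * Complex.I) * (⟪ω, x⟫ : ℝ)) ∂ν := by
    intro x
    rw [charFun_apply, ← integral_mul_const]
    refine integral_congr_ae (Eventually.of_forall fun ω => ?_)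
    simp only
    rw [← Complex.exp_add, real_inner_smul_right]
    congr 1
    push_cast
    ring
  simp only [h1]
  rw [integral_integral_swap]
  · refine integral_congr_ae (Eventually.of_forall fun ω => ?_)
    simp only
    rw [GaussianFourier.integral_cexp_neg_mul_sq_norm_add hb]
    have hε' : (ε : ℂ) ≠ 0 := by exact_mod_cast hε.ne'
    have hπ : (Real.pi : ℂ) ≠ 0 := by exact_mod_cast Real.pi_pos.ne'
    rw [Complex.ofReal_mul ((1 / ε) ^ ((d : ℝ) / 2)), Complex.ofReal_cpow (by positivity),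
      Complex.ofReal_exp]
    congr 1
    · rw [finrank_euclideanSpace_fin]
      congr 1
      · push_cast
        field_simp
      · push_cast
        ring
    · congr 1
      push_cast
      field_simp
      rw [Complex.I_sq]
      ring
  · -- integrability
    have h2 : Integrable (fun x : E d => Complex.exp (-((Real.pi * ε : ℝ) : ℂ) * ‖x‖ ^ 2)) := by
      simpa using GaussianFourier.integrable_cexp_neg_mul_sq_norm_add hb 0 (0 : E d)
    have h3 := h2.norm.mul_prod (integrable_const (1:ℝ) (μ := ν))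
    refine Integrable.mono' h3 (Continuous.aestronglyMeasurable (by fun_prop))
      (Eventually.of_forall fun z => ?_)
    simp only [Function.uncurry, mul_one]
    rw [Complex.exp_add, norm_mul]
    have h4 : ‖Complex.exp (2 * Real.pi * Complex.I * (⟪z.2, z.1⟫ : ℝ))‖ = 1 := by
      have : (2 * Real.pi * Complex.I * (⟪z.2, z.1⟫ : ℝ) : ℂ)
          = ((2 * Real.pi * ⟪z.2, z.1⟫ : ℝ) : ℂ) * Complex.I := by
        push_cast; ring
      rw [this, Complex.norm_exp_ofReal_mul_I]
    rw [h4, mul_one]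

/-- The kernel has integral one. -/
theorem lintegral_kernel {ε : ℝ} (hε : 0 < ε) :
    ∫⁻ ω : E d, ENNReal.ofReal ((1 / ε) ^ ((d : ℝ) / 2) * Real.exp (-(Real.pi / ε) * ‖ω‖ ^ 2))
      = 1 := by
  have hb : 0 < Real.pi / ε := by positivity
  have h1 := GaussianFourier.integral_rexp_neg_mul_sq_norm (V := E d) hb
  have h2 : Integrable (fun ω : E d => Real.exp (-(Real.pi / ε) * ‖ω‖ ^ 2)) := by
    have h3 : Integrable (fun x : E d => Complex.exp (-((Real.pi / ε : ℝ) : ℂ) * ‖x‖ ^ 2)) := by
      have hb' : 0 < ((Real.pi / ε : ℝ) : ℂ).re := by rw [Complex.ofReal_re]; exact hb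
      simpa using GaussianFourier.integrable_cexp_neg_mul_sq_norm_add hb' 0 (0 : E d)
    refine h3.norm.congr (Eventually.of_forall fun ω => ?_)
    simp only
    rw [Complex.norm_exp]
    congr 1
    have : (-((Real.pi / ε : ℝ) : ℂ) * (‖ω‖ : ℂ) ^ 2) = ((-(Real.pi / ε) * ‖ω‖ ^ 2 : ℝ) : ℂ) := by
      push_cast; ring
    rw [this, Complex.ofReal_re]
  rw [← ofReal_integral_eq_lintegral_ofReal (h2.const_mul _)
    (Eventually.of_forall fun ω => by positivity), integral_const_mul, h1]
  rw [finrank_euclideanSpace_fin, ← Real.mul_rpow (by positivity) (by positivity)]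
  have : 1 / ε * (Real.pi / (Real.pi / ε)) = 1 := by
    field_simp
  rw [this, Real.one_rpow, ENNReal.ofReal_one]

theorem charFun_conv_eq (hW : IsCompact W) (hs : ∀ x ∈ W, -x ∈ W) (x : E d) :
    (((cosT W x) ^ 2 : ℝ) : ℂ) =
      charFun ((volume.restrict W) ∗ (volume.restrict W)) ((2 * Real.pi) • x) := by
  have : IsFiniteMeasure (volume.restrict W : Measure (E d)) :=
    ⟨by rw [Measure.restrict_apply_univ]; exact hW.measure_lt_top⟩
  rw [charFun_conv, ← cosT_eq hW hs]
  push_cast
  ring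

theorem continuous_cosT (hW : IsCompact W) (hs : ∀ x ∈ W, -x ∈ W) : Continuous (cosT W) := by
  have : IsFiniteMeasure (volume.restrict W : Measure (E d)) :=
    ⟨by rw [Measure.restrict_apply_univ]; exact hW.measure_lt_top⟩
  have h1 : Continuous fun x : E d => charFun (volume.restrict W) ((2 * Real.pi) • x) := by
    fun_prop
  have h2 : cosT W = fun x => (charFun (volume.restrict W) ((2 * Real.pi) • x)).re := by
    ext x
    rw [← cosT_eq hW hs, Complex.ofReal_re]
  rw [h2]
  exact Complex.continuous_re.comp h1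

theorem abs_cosT_le (hW : IsCompact W) (x : E d) : |cosT W x| ≤ volume.real W := by
  have : IsFiniteMeasure (volume.restrict W : Measure (E d)) :=
    ⟨by rw [Measure.restrict_apply_univ]; exact hW.measure_lt_top⟩
  unfold cosT
  have h := norm_integral_le_of_norm_le_const (μ := volume.restrict W)
    (f := fun ω : E d => Real.cos (2 * Real.pi * ⟪x, ω⟫)) (C := 1)
    (Eventually.of_forall fun ω => by rw [Real.norm_eq_abs]; exact Real.abs_cos_le_one _)
  rw [one_mul, Real.norm_eq_abs] at h
  simpa [Measure.real] using h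

theorem integrable_gauss {ε : ℝ} (hε : 0 < ε) :
    Integrable (fun x : E d => Real.exp (-(Real.pi * ε) * ‖x‖ ^ 2)) := by
  have hb' : 0 < ((Real.pi * ε : ℝ) : ℂ).re := by rw [Complex.ofReal_re]; positivity
  have h3 : Integrable (fun x : E d => Complex.exp (-((Real.pi * ε : ℝ) : ℂ) * ‖x‖ ^ 2)) := by
    simpa using GaussianFourier.integrable_cexp_neg_mul_sq_norm_add hb' 0 (0 : E d)
  refine h3.norm.congr (Eventually.of_forall fun ω => ?_)
  simp only
  rw [Complex.norm_exp]
  congr 1
  have : (-((Real.pi * ε : ℝ) : ℂ) * (‖ω‖ : ℂ) ^ 2) = ((-(Real.pi * ε) * ‖ω‖ ^ 2 : ℝ) : ℂ) := by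
    push_cast; ring
  rw [this, Complex.ofReal_re]

theorem lintegral_gauss_le (hW : IsCompact W) (hs : ∀ x ∈ W, -x ∈ W) {ε : ℝ} (hε : 0 < ε) :
    ∫⁻ x : E d, ENNReal.ofReal (cosT W x ^ 2 * Real.exp (-(Real.pi * ε) * ‖x‖ ^ 2))
      ≤ volume W := by
  have : IsFiniteMeasure (volume.restrict W : Measure (E d)) :=
    ⟨by rw [Measure.restrict_apply_univ]; exact hW.measure_lt_top⟩
  set μ : Measure (E d) := volume.restrict W with hμ
  set k : E d → ℝ := fun ω => (1 / ε) ^ ((d : ℝ) / 2) * Real.exp (-(Real.pi / ε) * ‖ω‖ ^ 2)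
    with hk
  have hk0 : ∀ ω, 0 ≤ k ω := fun ω => by simp only [hk]; positivity
  have hkc : Continuous k := by simp only [hk]; fun_prop
  have hint : Integrable (fun x : E d => cosT W x ^ 2 * Real.exp (-(Real.pi * ε) * ‖x‖ ^ 2)) := by
    refine Integrable.bdd_mul (c := volume.real W ^ 2) (integrable_gauss hε)
      ((continuous_cosT hW hs).pow 2).aestronglyMeasurable (Eventually.of_forall fun x => ?_)
    rw [Real.norm_eq_abs, abs_pow]
    exact pow_le_pow_left₀ (abs_nonneg _) (abs_cosT_le hW x) 2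
  have h1 : ∫ x : E d, cosT W x ^ 2 * Real.exp (-(Real.pi * ε) * ‖x‖ ^ 2)
      = ∫ ω, k ω ∂(μ ∗ μ) := by
    have h2 := gauss (μ ∗ μ) hε
    have h3 : ∀ x : E d, charFun (μ ∗ μ) ((2 * Real.pi) • x) *
        Complex.exp (-((Real.pi * ε : ℝ) : ℂ) * ‖x‖ ^ 2)
        = ((cosT W x ^ 2 * Real.exp (-(Real.pi * ε) * ‖x‖ ^ 2) : ℝ) : ℂ) := by
      intro x
      rw [← charFun_conv_eq hW hs]
      push_cast
      ring_nf
    simp only [h3] at h2
    rw [integral_complex_ofReal, integral_complex_ofReal] at h2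
    exact_mod_cast h2
  rw [← ofReal_integral_eq_lintegral_ofReal hint
    (Eventually.of_forall fun x => by positivity), h1]
  have h4 : Integrable k (μ ∗ μ) := by
    refine Integrable.mono' (integrable_const ((1 / ε) ^ ((d : ℝ) / 2)))
      hkc.aestronglyMeasurable (Eventually.of_forall fun ω => ?_)
    rw [Real.norm_eq_abs, abs_of_nonneg (hk0 ω)]
    simp only [hk]
    have h5 : Real.exp (-(Real.pi / ε) * ‖ω‖ ^ 2) ≤ 1 := by
      rw [Real.exp_le_one_iff]
      have : 0 ≤ Real.pi / ε * ‖ω‖ ^ 2 := by positivity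
      linarith
    calc (1 / ε) ^ ((d : ℝ) / 2) * Real.exp (-(Real.pi / ε) * ‖ω‖ ^ 2)
        ≤ (1 / ε) ^ ((d : ℝ) / 2) * 1 := mul_le_mul_of_nonneg_left h5 (by positivity)
      _ = _ := mul_one _
  rw [ofReal_integral_eq_lintegral_ofReal h4 (Eventually.of_forall hk0),
    Measure.lintegral_conv (by fun_prop)]
  calc ∫⁻ a, ∫⁻ b, ENNReal.ofReal (k (a + b)) ∂μ ∂μ
      ≤ ∫⁻ a, 1 ∂μ := by
        refine lintegral_mono fun a => ?_
        calc ∫⁻ b, ENNReal.ofReal (k (a + b)) ∂μ
            ≤ ∫⁻ b, ENNReal.ofReal (k (a + b)) := lintegral_mono' Measure.restrict_le_self le_rfl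
          _ = ∫⁻ b, ENNReal.ofReal (k b) := lintegral_add_left_eq_self
                (fun b => ENNReal.ofReal (k b)) a
          _ = 1 := lintegral_kernel hε
    _ = volume W := by
        rw [lintegral_one, hμ, Measure.restrict_apply_univ]

theorem lintegral_sq_le (hW : IsCompact W) (hs : ∀ x ∈ W, -x ∈ W) :
    ∫⁻ x : E d, ENNReal.ofReal (cosT W x ^ 2) ≤ volume W := by
  set f : ℕ → E d → ENNReal := fun n x =>
    ENNReal.ofReal (cosT W x ^ 2 * Real.exp (-(Real.pi * (1 / ((n : ℝ) + 1))) * ‖x‖ ^ 2)) with hf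
  have hfm : ∀ n, Measurable (f n) := by
    intro n
    have := continuous_cosT hW hs
    simp only [hf]
    fun_prop
  have h1 : ∀ x, liminf (fun n => f n x) atTop = ENNReal.ofReal (cosT W x ^ 2) := by
    intro x
    refine Tendsto.liminf_eq ?_
    refine (ENNReal.continuous_ofReal.tendsto _).comp ?_
    have h2 : Tendsto (fun n : ℕ => Real.exp (-(Real.pi * (1 / ((n : ℝ) + 1))) * ‖x‖ ^ 2)) atTop
        (𝓝 (Real.exp (-(Real.pi * 0) * ‖x‖ ^ 2))) := by
      refine (Real.continuous_exp.tendsto _).comp ?_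
      exact ((tendsto_one_div_add_atTop_nhds_zero_nat.const_mul _).neg).mul_const _
    have h3 := h2.const_mul (cosT W x ^ 2)
    simpa using h3
  calc ∫⁻ x : E d, ENNReal.ofReal (cosT W x ^ 2)
      = ∫⁻ x, liminf (fun n => f n x) atTop := by simp only [h1]
    _ ≤ liminf (fun n => ∫⁻ x, f n x) atTop := lintegral_liminf_le hfm
    _ ≤ volume W := by
        refine liminf_le_of_le (by isBoundedDefault) fun b hb => ?_
        obtain ⟨n, hn⟩ := hb.exists
        exact hn.trans (lintegral_gauss_le hW hs (by positivity))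

end CosTAux

open CosTAux in
theorem cosT_props {d : ℕ} {W : Set (E d)} (hW : IsCompact W) (hs : ∀ x ∈ W, -x ∈ W) :
    Continuous (cosT W) ∧ cosT W 0 = volume.real W ∧
    Integrable (fun x => cosT W x ^ 2) ∧ ∫ x, cosT W x ^ 2 ≤ volume.real W ∧
    Vanish (W + W) (fun x => ((cosT W x ^ 2 : ℝ) : ℂ)) := by
  have : IsFiniteMeasure (volume.restrict W : Measure (E d)) :=
    ⟨by rw [Measure.restrict_apply_univ]; exact hW.measure_lt_top⟩
  have hc := continuous_cosT hW hs
  have hle := lintegral_sq_le hW hs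
  have hint : Integrable (fun x => cosT W x ^ 2) := by
    refine ⟨(hc.pow 2).aestronglyMeasurable, ?_⟩
    rw [hasFiniteIntegral_iff_ofReal (Eventually.of_forall fun x => by positivity)]
    exact hle.trans_lt hW.measure_lt_top
  refine ⟨hc, ?_, hint, ?_, ?_⟩
  · simp [cosT, Measure.real]
  · rw [integral_eq_lintegral_of_nonneg_ae (f := fun x => cosT W x ^ 2)
      (Eventually.of_forall fun x => sq_nonneg _) hint.aestronglyMeasurable]
    exact ENNReal.toReal_mono hW.measure_lt_top.ne hle
  · have h1 : (fun x => ((cosT W x ^ 2 : ℝ) : ℂ)) = fun x : E d =>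
        charFun ((volume.restrict W) ∗ (volume.restrict W)) ((2 * Real.pi) • x) := by
      ext x
      exact charFun_conv_eq hW hs x
    have h2 : Integrable (fun x => ((cosT W x ^ 2 : ℝ) : ℂ)) := hint.ofReal
    rw [h1] at h2 ⊢
    refine vanish_of_charFun (hW.add hW).isClosed _ ?_ h2
    have hcl := (hW.add hW).isClosed
    have h3 : Measurable fun x : E d × E d => x.1 + x.2 := by fun_prop
    rw [Measure.conv, ae_map_iff (p := fun ω => ω ∈ W + W) h3.aemeasurable hcl.measurableSet,
      Measure.prod_restrict]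
    filter_upwards [ae_restrict_mem (hW.isClosed.measurableSet.prod hW.isClosed.measurableSet)]
      with p hp
    exact Set.add_mem_add hp.1 hp.2

end Pool.Agent.MPbd65ca
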