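import Mathlib

/-!
# The Turán extremal problem for symmetric convex bodies: definitions
-/

open MeasureTheory FourierTransform Pointwise
open scoped RealInnerProductSpace

namespace Pool.Agent.MPbd65ca

/-- `d`-dimensional Euclidean space. -/
abbrev E (d : ℕ) := EuclideanSpace ℝ (Fin d)

/-- Symmetric convex bodies: compact convex sets with nonempty interior and `K = -K`. -/
structure IsBody {d : ℕ} (K : Set (E d)) : Prop where
  isCompact : IsCompact K
  convex : Convex ℝ K
  nonempty_interior : (interior K).Nonempty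
  neg_mem : ∀ x ∈ K, -x ∈ K

/-- The class `A(K)`: continuous integrable functions `F ≥ 0` with `F 0 ≥ 1` whose Fourier
transform has support in `K`. -/
def cls {d : ℕ} (K : Set (E d)) : Set (E d → ℝ) :=
  {F | Continuous F ∧ Integrable F ∧ (∀ x, 0 ≤ F x) ∧ 1 ≤ F 0 ∧
    tsupport (𝓕 (fun x => (F x : ℂ))) ⊆ K}

/-- The infimum `I(K)` of the integrals of the functions in the class `A(K)`. -/
noncomputable def turan {d : ℕ} (K : Set (E d)) : ℝ :=
  sInf ((fun F : E d → ℝ => ∫ x, F x) '' cls K)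

/-- Integrable functions whose Fourier transform vanishes outside `K`. -/
def Vanish {d : ℕ} (K : Set (E d)) (f : E d → ℂ) : Prop :=
  Integrable f ∧ ∀ ξ ∉ K, 𝓕 f ξ = 0

/-- The cosine transform of the indicator function of `W`. -/
noncomputable def cosT {d : ℕ} (W : Set (E d)) (x : E d) : ℝ :=
  ∫ ω in W, Real.cos (2 * Real.pi * ⟪x, ω⟫)

/-- The set of all points `p = (p 0, p 1)` of the plane with `|p 1| ≤ H` and
`L (p 1) ≤ p 0 ≤ -L (-p 1)`. -/
def Wset (H : ℝ) (L : ℝ → ℝ) : Set (E 2) :=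
  {p | |p 1| ≤ H ∧ L (p 1) ≤ p 0 ∧ p 0 ≤ -L (-p 1)}

/-- Data of a centrally symmetric convex polygon `Wset H L` with the apexes `(0, H)`, `(0, -H)`
whose left boundary is the graph of the function `L`, convex on `[-H, H]`, and affine with slope
`σ j` on `[y j, y (j + 1)]`, where `-H = y 0 < y 1 < ... < y N = H`.  The last condition says that
the three vertices before the apex are near to the apex. -/
structure Poly (H : ℝ) (N : ℕ) (y σ : ℕ → ℝ) (L : ℝ → ℝ) : Prop where
  hH : 0 < H
  hN : 5 ≤ N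
  y0 : y 0 = -H
  yN : y N = H
  ymono : ∀ j < N, y j < y (j + 1)
  lin : ∀ j < N, ∀ t ∈ Set.Icc (y j) (y (j + 1)), L t = L (y j) + σ j * (t - y j)
  σmono : ∀ j, j + 1 < N → σ j < σ (j + 1)
  conv : ConvexOn ℝ (Set.Icc (-H) H) L
  L0 : L (-H) = 0
  LN : L H = 0
  shift : ∀ j, N - 3 ≤ j → j < N → ∀ p : E 2,
    p 0 = (L (y (N - 2)) + L (y j)) / 2 → p 1 = (y (N - 2) + y j) / 2 - H →
    p ∈ interior (Wset H L)

end Pool.Agent.MPbd65ca
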