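import Pool.Agent.Lib.MP_bd65ca_an.Defs

/-!
# Products of bodies and of functions of the class
-/

open MeasureTheory FourierTransform Pointwise Filter Topology
open scoped RealInnerProductSpace

namespace Pool.Agent.MPbd65ca

/-- first `m` coordinates -/
def fstE {m n : ℕ} (x : E (m + n)) : E m := WithLp.toLp 2 fun i => x (Fin.castAdd n i)
/-- last `n` coordinates -/
def sndE {m n : ℕ} (x : E (m + n)) : E n := WithLp.toLp 2 fun i => x (Fin.natAdd m i)
/-- product -/
def prodSet {m n : ℕ} (K : Set (E m)) (L : Set (E n)) : Set (E (m + n)) :=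
  {x | fstE x ∈ K ∧ sndE x ∈ L}

namespace ProdAux

variable {m n : ℕ}

/-- The coordinate equivalence. -/
noncomputable def Phi (m n : ℕ) : E (m + n) ≃ᵐ E m × E n :=
  (MeasurableEquiv.toLp 2 (Fin (m + n) → ℝ)).symm.trans
    ((MeasurableEquiv.piCongrLeft (fun _ => ℝ) finSumFinEquiv).symm.trans
      ((MeasurableEquiv.sumPiEquivProdPi (fun _ : Fin m ⊕ Fin n => ℝ)).trans
        ((MeasurableEquiv.toLp 2 (Fin m → ℝ)).prodCongr (MeasurableEquiv.toLp 2 (Fin n → ℝ)))))

lemma Phi_apply (x : E (m + n)) : Phi m n x = (fstE x, sndE x) := by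
  rfl

lemma Phi_mp : MeasurePreserving (Phi m n) := by
  have h1 := EuclideanSpace.volume_preserving_symm_measurableEquiv_toLp (Fin (m + n))
  have h2 := (volume_measurePreserving_piCongrLeft (fun _ : Fin (m + n) => ℝ)
    (finSumFinEquiv (m := m) (n := n))).symm
  have h3 := volume_measurePreserving_sumPiEquivProdPi (fun _ : Fin m ⊕ Fin n => ℝ)
  have h4 := (PiLp.volume_preserving_toLp (Fin m)).prod (PiLp.volume_preserving_toLp (Fin n))
  exact h4.comp (h3.comp (h2.comp h1))

lemma fst_mp : Continuous (fstE : E (m + n) → E m) := by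
  unfold fstE
  fun_prop

lemma snd_mp : Continuous (sndE : E (m + n) → E n) := by
  unfold sndE
  fun_prop

/-- The inverse map. -/
def pairE (z : E m × E n) : E (m + n) := WithLp.toLp 2 (Fin.append z.1 z.2)

lemma fst_pair (z : E m × E n) : fstE (pairE z) = z.1 := by
  ext i
  simp [fstE, pairE]

lemma snd_pair (z : E m × E n) : sndE (pairE z) = z.2 := by
  ext i
  simp [sndE, pairE]

lemma pair_eta (x : E (m + n)) : pairE (fstE x, sndE x) = x := by
  ext i
  refine Fin.addCases (fun j => ?_) (fun j => ?_) i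
  · simp [fstE, sndE, pairE]
  · simp [fstE, sndE, pairE]

lemma continuous_pair : Continuous (pairE : E m × E n → E (m + n)) := by
  unfold pairE
  refine (PiLp.continuous_toLp 2 _).comp (continuous_pi ?_)
  intro i
  refine Fin.addCases (fun j => ?_) (fun j => ?_) i
  · simp only [Fin.append_left]
    fun_prop
  · simp only [Fin.append_right]
    fun_prop

lemma fst_add (x y : E (m + n)) : fstE (x + y) = fstE x + fstE y := by ext i; simp [fstE]
lemma snd_add (x y : E (m + n)) : sndE (x + y) = sndE x + sndE y := by ext i; simp [sndE]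
lemma fst_smul (c : ℝ) (x : E (m + n)) : fstE (c • x) = c • fstE x := by ext i; simp [fstE]
lemma snd_smul (c : ℝ) (x : E (m + n)) : sndE (c • x) = c • sndE x := by ext i; simp [sndE]
lemma fst_neg (x : E (m + n)) : fstE (-x) = -fstE x := by ext i; simp [fstE]
lemma snd_neg (x : E (m + n)) : sndE (-x) = -sndE x := by ext i; simp [sndE]
lemma fst_zero : fstE (0 : E (m + n)) = 0 := by ext i; simp [fstE]
lemma snd_zero : sndE (0 : E (m + n)) = 0 := by ext i; simp [sndE]

lemma inner_split (x y : E (m + n)) :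
    ⟪x, y⟫ = ⟪fstE x, fstE y⟫ + ⟪sndE x, sndE y⟫ := by
  simp only [PiLp.inner_apply, fstE, sndE]
  rw [Fin.sum_univ_add]

lemma prodSet_eq_preimage (K : Set (E m)) (L : Set (E n)) :
    prodSet K L = Phi m n ⁻¹' (K ×ˢ L) := by
  ext x
  simp only [prodSet, Set.mem_setOf_eq, Set.mem_preimage, Phi_apply, Set.mem_prod]

lemma prodSet_eq_image (K : Set (E m)) (L : Set (E n)) :
    prodSet K L = pairE '' (K ×ˢ L) := by
  ext x
  constructor
  · intro hx
    exact ⟨(fstE x, sndE x), hx, pair_eta x⟩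
  · rintro ⟨z, hz, rfl⟩
    refine ⟨?_, ?_⟩
    · rw [fst_pair]; exact hz.1
    · rw [snd_pair]; exact hz.2

lemma fourier_prod (F : E m → ℝ) (G : E n → ℝ) (ξ : E (m + n)) :
    𝓕 (fun x : E (m + n) => ((F (fstE x) * G (sndE x) : ℝ) : ℂ)) ξ
      = 𝓕 (fun x => (F x : ℂ)) (fstE ξ) * 𝓕 (fun x => (G x : ℂ)) (sndE ξ) := by
  simp only [Real.fourier_eq']
  rw [← integral_prod_mul, ← Measure.volume_eq_prod, ← (Phi_mp (m := m) (n := n)).integral_comp
    (Phi m n).measurableEmbedding]
  refine integral_congr_ae (Eventually.of_forall fun x => ?_)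
  simp only [Phi_apply, smul_eq_mul]
  rw [inner_split]
  push_cast
  rw [mul_add, add_mul, Complex.exp_add]
  ring

end ProdAux

open ProdAux

theorem prod_body {m n : ℕ} {K : Set (E m)} {L : Set (E n)} (hK : IsBody K) (hL : IsBody L) :
    IsBody (prodSet K L) ∧ volume.real (prodSet K L) = volume.real K * volume.real L := by
  refine ⟨⟨?_, ?_, ?_, ?_⟩, ?_⟩
  · rw [prodSet_eq_image]
    exact (hK.isCompact.prod hL.isCompact).image continuous_pair
  · intro x hx y hy a b ha hb hab
    refine ⟨?_, ?_⟩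
    · rw [fst_add, fst_smul, fst_smul]
      exact hK.convex hx.1 hy.1 ha hb hab
    · rw [snd_add, snd_smul, snd_smul]
      exact hL.convex hx.2 hy.2 ha hb hab
  · obtain ⟨x, hx⟩ := hK.nonempty_interior
    obtain ⟨y, hy⟩ := hL.nonempty_interior
    refine ⟨pairE (x, y), ?_⟩
    rw [mem_interior]
    refine ⟨{z | fstE z ∈ interior K ∧ sndE z ∈ interior L}, ?_, ?_, ?_⟩
    · intro z hz
      exact ⟨interior_subset hz.1, interior_subset hz.2⟩
    · exact (isOpen_interior.preimage fst_mp).inter (isOpen_interior.preimage snd_mp)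
    · refine ⟨?_, ?_⟩
      · rw [fst_pair]; exact hx
      · rw [snd_pair]; exact hy
  · intro x hx
    refine ⟨?_, ?_⟩
    · rw [fst_neg]; exact hK.neg_mem _ hx.1
    · rw [snd_neg]; exact hL.neg_mem _ hx.2
  · rw [prodSet_eq_preimage, measureReal_def,
      (Phi_mp (m := m) (n := n)).measure_preimage_equiv, Measure.volume_eq_prod,
      Measure.prod_prod, ENNReal.toReal_mul]
    rfl

theorem prod_cls {m n : ℕ} {K : Set (E m)} {L : Set (E n)} (hK : IsClosed K) (hL : IsClosed L)
    {F : E m → ℝ} {G : E n → ℝ} (hF : F ∈ cls K) (hG : G ∈ cls L) :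
    (fun x => F (fstE x) * G (sndE x)) ∈ cls (prodSet K L) ∧
    ∫ x : E (m + n), F (fstE x) * G (sndE x) = (∫ x, F x) * ∫ x, G x := by
  obtain ⟨hF1, hF2, hF3, hF4, hF5⟩ := hF
  obtain ⟨hG1, hG2, hG3, hG4, hG5⟩ := hG
  refine ⟨⟨?_, ?_, ?_, ?_, ?_⟩, ?_⟩
  · exact (hF1.comp fst_mp).mul (hG1.comp snd_mp)
  · have h := hF2.mul_prod hG2
    rw [← Measure.volume_eq_prod, ← (Phi_mp (m := m) (n := n)).integrable_comp_emb
      (Phi m n).measurableEmbedding] at h
    exact h
  · intro x
    exact mul_nonneg (hF3 _) (hG3 _)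
  · simp only [fst_zero, snd_zero]
    nlinarith
  · have hcl : IsClosed (prodSet K L) := (hK.preimage fst_mp).inter (hL.preimage snd_mp)
    refine closure_minimal ?_ hcl
    intro ξ hξ
    have h1 : 𝓕 (fun x => (F x : ℂ)) (fstE ξ) * 𝓕 (fun x => (G x : ℂ)) (sndE ξ) ≠ 0 := by
      rw [← fourier_prod]; exact hξ
    exact ⟨hF5 (subset_tsupport _ (left_ne_zero_of_mul h1)),
      hG5 (subset_tsupport _ (right_ne_zero_of_mul h1))⟩
  · rw [← integral_prod_mul, ← Measure.volume_eq_prod, ← (Phi_mp (m := m) (n := n)).integral_comp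
      (Phi m n).measurableEmbedding]
    rfl

end Pool.Agent.MPbd65ca
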