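import Pool.Agent.Lib.MP_bd65ca_an.Defs

/-!
# Rotations and dilations in the Turán problem
-/

open MeasureTheory FourierTransform Pointwise Filter Topology
open scoped RealInnerProductSpace

namespace Pool.Agent.MPbd65ca

namespace ScaleAux

/-- Closed set criterion for topological supports. -/
theorem tsupport_sub {X Y : Type*} [TopologicalSpace X] [TopologicalSpace Y] {f : X → ℂ}
    {g : Y → ℂ} {T : X → Y} (hT : Continuous T) (h : ∀ x, g (T x) = 0 → f x = 0) :
    tsupport f ⊆ T ⁻¹' tsupport g := by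
  apply closure_minimal _ ((isClosed_tsupport g).preimage hT)
  intro x hx
  apply subset_tsupport g
  intro h0
  exact hx (h x h0)

end ScaleAux

theorem cls_isometry {d : ℕ} (A : E d ≃ₗᵢ[ℝ] E d) {K : Set (E d)} {F : E d → ℝ}
    (hF : F ∈ cls K) : (fun x => F (A.symm x)) ∈ cls (A '' K) ∧
    ∫ x, F (A.symm x) = ∫ x, F x := by
  obtain ⟨h1, h2, h3, h4, h5⟩ := hF
  have hmp : MeasurePreserving (A.symm : E d → E d) := A.symm.measurePreserving
  have hme : MeasurableEmbedding (A.symm : E d → E d) :=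
    A.symm.toHomeomorph.measurableEmbedding
  refine ⟨⟨h1.comp A.symm.continuous, ?_, fun x => h3 _, ?_, ?_⟩, ?_⟩
  · exact (hmp.integrable_comp_emb hme).2 h2
  · show 1 ≤ F (A.symm 0)
    rw [map_zero]; exact h4
  · have e : 𝓕 (fun x => ((F (A.symm x) : ℝ) : ℂ)) =
        fun ξ => 𝓕 (fun x => (F x : ℂ)) (A.symm ξ) := by
      funext ξ
      exact Real.fourier_comp_linearIsometry A.symm (fun x => (F x : ℂ)) ξ
    rw [e]
    refine (ScaleAux.tsupport_sub (g := 𝓕 (fun x => (F x : ℂ))) (T := A.symm)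
      A.symm.continuous (fun x hx => hx)).trans ?_
    intro x hx
    exact ⟨A.symm x, h5 hx, A.apply_symm_apply x⟩
  · exact hmp.integral_comp hme F

theorem cls_smul {d : ℕ} {c : ℝ} (hc : 0 < c) {K : Set (E d)} {F : E d → ℝ}
    (hF : F ∈ cls K) : (fun x => F (c • x)) ∈ cls (c • K) ∧
    ∫ x, F (c • x) = (c ^ d)⁻¹ * ∫ x, F x := by
  obtain ⟨h1, h2, h3, h4, h5⟩ := hF
  have hfr : Module.finrank ℝ (E d) = d := by simp
  have habs : |(c ^ d)⁻¹| = (c ^ d)⁻¹ := abs_of_pos (by positivity)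
  refine ⟨⟨h1.comp (continuous_const_smul c), ?_, fun x => h3 _, ?_, ?_⟩, ?_⟩
  · exact h2.comp_smul hc.ne'
  · show 1 ≤ F (c • 0)
    rw [smul_zero]; exact h4
  · have e : ∀ ξ : E d, 𝓕 (fun x => ((F (c • x) : ℝ) : ℂ)) ξ =
        (c ^ d)⁻¹ • 𝓕 (fun x => (F x : ℂ)) (c⁻¹ • ξ) := by
      intro ξ
      rw [Real.fourier_eq, Real.fourier_eq]
      have h6 := Measure.integral_comp_smul (volume : Measure (E d))
        (fun v : E d => Real.fourierChar (-⟪v, c⁻¹ • ξ⟫) • (F v : ℂ)) c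
      rw [hfr, habs] at h6
      rw [← h6]
      congr 1
      funext x
      congr 3
      rw [inner_smul_left, inner_smul_right]
      simp only [conj_trivial]
      field_simp
    refine (ScaleAux.tsupport_sub (g := 𝓕 (fun x => (F x : ℂ))) (T := fun x => c⁻¹ • x)
      (continuous_const_smul _) (fun x hx => ?_)).trans ?_
    · rw [e, hx, smul_zero]
    · intro x hx
      rw [Set.mem_smul_set_iff_inv_smul_mem₀ hc.ne']
      exact h5 hx
  · rw [Measure.integral_comp_smul, hfr, habs, smul_eq_mul]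

theorem exists_rotation {W : Set (E 2)} (hW : IsBody W) : ∃ (A : E 2 ≃ₗᵢ[ℝ] E 2) (H : ℝ),
    0 < H ∧ !₂[0, H] ∈ A '' W ∧ ∀ p ∈ A '' W, ‖p‖ ≤ H := by
  have hne : W.Nonempty := hW.nonempty_interior.mono interior_subset
  obtain ⟨p, hp, hmax⟩ := hW.isCompact.exists_isMaxOn hne (continuous_norm.continuousOn)
  have hH : 0 < ‖p‖ := by
    by_contra hcon
    have h0 : ‖p‖ = 0 := le_antisymm (not_lt.1 hcon) (norm_nonneg p)
    have h1 : W ⊆ {0} := by
      intro x hx
      have h2 : ‖x‖ ≤ ‖p‖ := hmax hx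
      rw [h0] at h2
      exact norm_le_zero_iff.1 h2
    have h3 := hW.nonempty_interior.mono (interior_mono h1)
    rw [interior_singleton] at h3
    exact Set.not_nonempty_empty h3
  have hn : ‖(!₂[0, ‖p‖] : E 2)‖ = ‖p‖ := by
    rw [EuclideanSpace.norm_eq, Fin.sum_univ_two]
    simp
  refine ⟨Submodule.reflection (Submodule.span ℝ {p - !₂[0, ‖p‖]})ᗮ, ‖p‖, hH,
    ⟨p, hp, Submodule.reflection_sub hn.symm⟩, ?_⟩
  rintro q ⟨x, hx, rfl⟩
  rw [LinearIsometryEquiv.norm_map]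
  exact hmax hx

namespace ScaleAux

theorem turan_bdd {d : ℕ} (K : Set (E d)) :
    BddBelow ((fun F : E d → ℝ => ∫ x, F x) '' cls K) := by
  refine ⟨0, ?_⟩
  rintro _ ⟨F, hF, rfl⟩
  exact integral_nonneg hF.2.2.1

theorem turan_nonneg {d : ℕ} (K : Set (E d)) : 0 ≤ turan K := by
  apply Real.sInf_nonneg
  rintro _ ⟨F, hF, rfl⟩
  exact integral_nonneg hF.2.2.1

theorem cls_mono {d : ℕ} {K K' : Set (E d)} (h : K ⊆ K') : cls K ⊆ cls K' :=
  fun _ hF => ⟨hF.1, hF.2.1, hF.2.2.1, hF.2.2.2.1, hF.2.2.2.2.trans h⟩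

theorem turan_le {d : ℕ} {K K' : Set (E d)} {c : ℝ} (hc : 0 < c) (h : c • K ⊆ K')
    (hne : (cls K).Nonempty) : turan K' ≤ (c ^ d)⁻¹ * turan K := by
  have hc' : 0 < (c ^ d)⁻¹ := by positivity
  rw [← div_le_iff₀' hc']
  apply le_csInf (hne.image _)
  rintro _ ⟨F, hF, rfl⟩
  rw [div_le_iff₀' hc']
  obtain ⟨h1, h2⟩ := cls_smul hc hF
  rw [← h2]
  exact csInf_le (turan_bdd K') ⟨_, cls_mono h h1, rfl⟩

theorem vol_pos {d : ℕ} {K : Set (E d)} (hK : IsBody K) : 0 < volume.real K := by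
  rw [measureReal_def]
  apply ENNReal.toReal_pos
  · exact (Measure.measure_pos_of_nonempty_interior _ hK.nonempty_interior).ne'
  · exact hK.isCompact.measure_lt_top.ne

theorem vol_smul {d : ℕ} {K : Set (E d)} {c : ℝ} (hc : 0 < c) :
    volume.real (c • K) = c ^ d * volume.real K := by
  rw [measureReal_def, measureReal_def, Measure.addHaar_smul]
  have hfr : Module.finrank ℝ (E d) = d := by simp
  rw [hfr, ENNReal.toReal_mul, ENNReal.toReal_ofReal (abs_nonneg _), abs_of_pos (by positivity)]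

end ScaleAux

open ScaleAux in
theorem turan_open {d : ℕ} {K : Set (E d)} (hK : IsBody K)
    (h : turan K < 2 ^ d / volume.real K) (hne : (cls K).Nonempty) : ∃ η : ℝ, 0 < η ∧ η < 1 ∧
    ∀ K' : Set (E d), IsBody K' → (1 - η) • K ⊆ K' → K' ⊆ (1 + η) • K →
      turan K' < 2 ^ d / volume.real K' := by
  have hv := vol_pos hK
  have hcont : ContinuousAt (fun η : ℝ => ((1 - η) ^ d)⁻¹ * turan K * ((1 + η) ^ d * volume.real K))
      0 := by
    have h1 : ContinuousAt (fun η : ℝ => (1 - η) ^ d) 0 := by fun_prop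
    have h2 : ContinuousAt (fun η : ℝ => ((1 - η) ^ d)⁻¹) 0 := h1.inv₀ (by simp)
    have h3 : ContinuousAt (fun η : ℝ => (1 + η) ^ d * volume.real K) 0 := by fun_prop
    exact (h2.mul continuousAt_const).mul h3
  have h0 : ((1 - (0 : ℝ)) ^ d)⁻¹ * turan K * ((1 + (0 : ℝ)) ^ d * volume.real K) < 2 ^ d := by
    rw [lt_div_iff₀ hv] at h
    simpa using h
  have hev := hcont.eventually_lt continuousAt_const h0
  obtain ⟨r, hr, hr'⟩ := Metric.eventually_nhds_iff.1 hev
  set η : ℝ := min (r / 2) (1 / 2) with hη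
  have η0 : 0 < η := by positivity
  have η1 : η < 1 := lt_of_le_of_lt (min_le_right _ _) (by norm_num)
  have η2 : η < r := lt_of_le_of_lt (min_le_left _ _) (by linarith)
  refine ⟨η, η0, η1, fun K' hK' hsub hsup => ?_⟩
  have h4 := hr' (y := η) (by rw [Real.dist_eq, sub_zero, abs_of_pos η0]; exact η2)
  have h5 : turan K' ≤ ((1 - η) ^ d)⁻¹ * turan K := turan_le (by linarith) hsub hne
  have h6 : volume.real K' ≤ (1 + η) ^ d * volume.real K := by
    rw [← vol_smul (by linarith)]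
    exact measureReal_mono hsup (hK.isCompact.smul (1 + η)).measure_lt_top.ne
  have hv' := vol_pos hK'
  rw [lt_div_iff₀ hv']
  have h7 : 0 ≤ ((1 - η) ^ d)⁻¹ * turan K := by
    have : 0 < 1 - η := by linarith
    have := turan_nonneg K
    positivity
  calc turan K' * volume.real K' ≤ ((1 - η) ^ d)⁻¹ * turan K * ((1 + η) ^ d * volume.real K) :=
        mul_le_mul h5 h6 hv'.le h7
    _ < 2 ^ d := h4

end Pool.Agent.MPbd65ca
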