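import Pool.Agent.Lib.MP_bd65ca_an.PolyMain
import Pool.Agent.Lib.MP_bd65ca_an.Scale
import Pool.Agent.Lib.MP_bd65ca_an.Prod
import Pool.Agent.Lib.MP_bd65ca_an.Approx

/-!
# Assembly
-/

open MeasureTheory Pointwise Filter Topology Set
open scoped RealInnerProductSpace

namespace Pool.Agent.MPbd65ca

open ScaleAux

variable {d : ℕ}

theorem IsBody.zero_mem {K : Set (E d)} (h : IsBody K) : (0 : E d) ∈ interior K := by
  obtain ⟨p, hp⟩ := h.nonempty_interior
  have hn : -p ∈ K := h.neg_mem _ (interior_subset hp)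
  have := h.convex.combo_interior_self_mem_interior hp hn (a := 1 / 2) (b := 1 / 2)
    (by norm_num) (by norm_num) (by norm_num)
  simpa using this

theorem IsBody.smul {K : Set (E d)} (h : IsBody K) {c : ℝ} (hc : 0 < c) : IsBody (c • K) := by
  refine ⟨h.isCompact.smul c, h.convex.smul c, ?_, ?_⟩
  · rw [interior_smul₀ hc.ne']
    exact h.nonempty_interior.smul_set
  · rintro _ ⟨x, hx, rfl⟩
    exact ⟨-x, h.neg_mem x hx, by simp⟩

theorem IsBody.image {K : Set (E d)} (h : IsBody K) (A : E d ≃ₗᵢ[ℝ] E d) : IsBody (A '' K) := by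
  refine ⟨h.isCompact.image A.continuous, h.convex.is_linear_image A.toLinearEquiv.isLinear, ?_, ?_⟩
  · have := A.toHomeomorph.image_interior K
    have h2 : interior (A '' K) = A '' interior K := this.symm
    rw [h2]
    exact h.nonempty_interior.image _
  · rintro _ ⟨x, hx, rfl⟩
    exact ⟨-x, h.neg_mem x hx, by simp⟩

theorem Convex.add_self {K : Set (E d)} (h : Convex ℝ K) : K + K = (2 : ℝ) • K := by
  have := h.add_smul (p := 1) (q := 1) zero_le_one zero_le_one
  rw [one_smul] at this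
  rw [← this]
  norm_num

theorem volume_image (A : E d ≃ₗᵢ[ℝ] E d) (K : Set (E d)) :
    volume.real (A '' K) = volume.real K := by
  rw [measureReal_def, measureReal_def]
  congr 1
  have : A '' K = A.symm ⁻¹' K := by
    ext x
    constructor
    · rintro ⟨y, hy, rfl⟩; simpa using hy
    · intro hx; exact ⟨A.symm x, hx, by simp⟩
  rw [this]
  exact A.symm.measurePreserving.measure_preimage_emb A.symm.toHomeomorph.measurableEmbedding K

/-- the trivial bound -/
theorem cls_trivial {K : Set (E d)} (h : IsBody K) : ∃ F ∈ cls K, ∫ x, F x ≤ 2 ^ d / volume.real K := by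
  set W : Set (E d) := (1 / 2 : ℝ) • K with hW
  have hWb : IsBody W := h.smul (by norm_num)
  have hWW : W + W = K := by
    rw [Convex.add_self hWb.convex, hW, smul_smul]
    norm_num
  have hpos := vol_pos hWb
  have hvol : volume.real K = 2 ^ d * volume.real W := by
    rw [hW, vol_smul (by norm_num), ← mul_assoc, ← mul_pow]
    norm_num
  obtain ⟨h1, h2, h3, h4, h5⟩ := cosT_props hWb.isCompact hWb.neg_mem
  refine ⟨fun x => (volume.real W ^ 2)⁻¹ * cosT W x ^ 2, ⟨?_, ?_, ?_, ?_, ?_⟩, ?_⟩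
  · exact continuous_const.mul (h1.pow 2)
  · exact h3.const_mul _
  · intro x; positivity
  · simp only
    rw [h2, inv_mul_cancel₀ (by positivity)]
  · have h6 : Vanish K (fun x => (((volume.real W ^ 2)⁻¹ * cosT W x ^ 2 : ℝ) : ℂ)) := by
      rw [← hWW]
      refine (h5.const_mul (((volume.real W ^ 2)⁻¹ : ℝ) : ℂ)).congr fun x => ?_
      push_cast
      ring
    exact h6.tsupport_subset h.isCompact.isClosed
  · rw [integral_const_mul, hvol]
    calc (volume.real W ^ 2)⁻¹ * ∫ x, cosT W x ^ 2 ≤ (volume.real W ^ 2)⁻¹ * volume.real W :=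
          mul_le_mul_of_nonneg_left h4 (by positivity)
      _ = 2 ^ d / (2 ^ d * volume.real W) := by
          field_simp

theorem Wset_shift {H : ℝ} {L : ℝ → ℝ} (hL : ∀ t ∈ Icc (-H) H, L t ≤ 0) {lam : ℝ}
    (hlam : 0 ≤ lam) {p : E 2}
    (hp : p ∈ Wset H (fun t => L t - lam)) :
    ∃ q ∈ Wset H L, ∃ s : ℝ, |s| ≤ lam ∧ p = q + s • !₂[1, 0] := by
  obtain ⟨h1, h2, h3⟩ := hp
  have h4 := abs_le.1 h1
  have i1 := hL _ h4
  have i2 := hL (-p 1) ⟨by linarith [h4.2], by linarith [h4.1]⟩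
  simp only at h2 h3
  rcases le_total (L (p 1)) (p 0) with c1 | c1
  · rcases le_total (p 0) (-L (-p 1)) with c2 | c2
    · refine ⟨p, ⟨h1, c1, c2⟩, 0, ?_, by simp⟩
      simpa using hlam
    · refine ⟨!₂[-L (-p 1), p 1], ⟨by simpa using h1, ?_, ?_⟩, p 0 - (-L (-p 1)), ?_, ?_⟩
      · simp; linarith
      · simp
      · rw [abs_of_nonneg (by linarith)]; linarith
      · ext i; fin_cases i <;> simp
  · refine ⟨!₂[L (p 1), p 1], ⟨by simpa using h1, ?_, ?_⟩, p 0 - L (p 1), ?_, ?_⟩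
    · simp
    · simp; linarith
    · rw [abs_of_nonpos (by linarith)]; linarith
    · ext i; fin_cases i <;> simp

theorem plane_dense {K₀ : Set (E 2)} (hK : IsBody K₀) {η : ℝ} (hη : 0 < η) (hη1 : η < 1) :
    ∃ K : Set (E 2), IsBody K ∧ (1 - η) • K₀ ⊆ K ∧ K ⊆ (1 + η) • K₀ ∧
      ∃ F ∈ cls K, ∫ x, F x < 2 ^ 2 / volume.real K := by
  set W₀ : Set (E 2) := (1 / 2 : ℝ) • K₀ with hW₀
  have hW₀b : IsBody W₀ := hK.smul (by norm_num)
  obtain ⟨A, H, hH, hM, hball⟩ := exists_rotation hW₀b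
  set W₁ : Set (E 2) := A '' W₀ with hW₁
  have hW₁b : IsBody W₁ := hW₀b.image A
  obtain ⟨N, y, σ, L, hP, hin, hout⟩ := exists_poly hW₁b hH hM hball
    (half_pos hη) (by linarith)
  obtain ⟨r, hr, hrs⟩ := Metric.nhds_basis_closedBall.mem_iff.1
    (mem_interior_iff_mem_nhds.1 hW₁b.zero_mem)
  obtain ⟨lam, hlam, hlame, F, hF, hFi⟩ := poly_main hP (ε' := η / 2 * r) (by positivity)
  set W : Set (E 2) := Wset H (fun t => L t - lam) with hW
  have hWb : IsBody W := hP.isBody hlam.le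
  have h1 : (1 - η) • W₁ ⊆ W := by
    have e1 : (1 - η) • W₁ ⊆ (1 - η / 2) • W₁ := by
      rintro _ ⟨x, hx, rfl⟩
      have h0 : (0 : E 2) ∈ W₁ := interior_subset hW₁b.zero_mem
      have hc : ((1 - η) / (1 - η / 2)) • x ∈ W₁ := by
        have := hW₁b.convex hx h0 (a := (1 - η) / (1 - η / 2))
          (b := 1 - (1 - η) / (1 - η / 2)) (div_nonneg (by linarith) (by linarith)) (by
            rw [sub_nonneg, div_le_one (by linarith)]; linarith) (by ring)
        simpa using this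
      refine ⟨_, hc, ?_⟩
      simp only
      rw [smul_smul, mul_div_cancel₀ _ (by linarith : (1 - η / 2) ≠ 0)]
    exact (e1.trans hin).trans fun p hp => (Wset_mono hlam.le hp).1
  have h2 : W ⊆ (1 + η) • W₁ := by
    intro p hp
    obtain ⟨q, hq, s, hs, rfl⟩ := Wset_shift (fun t ht => hP.nonpos_of_mem ht) hlam.le hp
    have h3 := hout hq
    have h4 : s • (!₂[1, 0] : E 2) ∈ (η / 2) • W₁ := by
      have : s • (!₂[1, 0] : E 2) = (η / 2) • ((s / (η / 2)) • (!₂[1, 0] : E 2)) := by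
        rw [smul_smul]
        congr 1
        field_simp
      rw [this]
      refine smul_mem_smul_set (hrs ?_)
      rw [mem_closedBall_iff_norm, sub_zero, norm_smul]
      have : ‖(!₂[1, 0] : E 2)‖ = 1 := by
        rw [EuclideanSpace.norm_eq, Fin.sum_univ_two]
        simp
      rw [this, mul_one, Real.norm_eq_abs, abs_div, abs_of_pos (half_pos hη),
        div_le_iff₀ (half_pos hη)]
      linarith
    have h5 : q + s • (!₂[1, 0] : E 2) ∈ (1 + η / 2) • W₁ + (η / 2) • W₁ := add_mem_add h3 h4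
    rw [← hW₁b.convex.add_smul (by linarith) (by linarith)] at h5
    have e : 1 + η / 2 + η / 2 = 1 + η := by ring
    rwa [e] at h5
  have hmap : ∀ c : ℝ, A.symm '' (c • W₁) = c • W₀ := by
    intro c
    rw [hW₁]
    ext x
    constructor
    · rintro ⟨_, ⟨_, ⟨z, hz, rfl⟩, rfl⟩, rfl⟩
      refine ⟨z, hz, ?_⟩
      simp
    · rintro ⟨z, hz, rfl⟩
      refine ⟨c • A z, ⟨A z, ⟨z, hz, rfl⟩, rfl⟩, ?_⟩
      simp
  have h2K : (2 : ℝ) • W₀ = K₀ := by
    rw [hW₀, smul_smul]
    norm_num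
  refine ⟨A.symm '' (W + W), ?_, ?_, ?_, _, (cls_isometry A.symm hF).1, ?_⟩
  · rw [Convex.add_self hWb.convex]
    exact (hWb.smul two_pos).image A.symm
  · rw [Convex.add_self hWb.convex]
    rw [← h2K, smul_comm]
    rintro _ ⟨x, hx, rfl⟩
    rw [← hmap] at hx
    obtain ⟨z, hz, rfl⟩ := hx
    refine ⟨(2 : ℝ) • z, smul_mem_smul_set (h1 hz), ?_⟩
    simp
  · rw [Convex.add_self hWb.convex]
    rw [← h2K, smul_comm]
    rintro _ ⟨_, ⟨x, hx, rfl⟩, rfl⟩
    simp only
    rw [map_smul]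
    refine smul_mem_smul_set ?_
    rw [← hmap]
    exact ⟨x, h2 hx, rfl⟩
  · rw [(cls_isometry A.symm hF).2, volume_image, Convex.add_self hWb.convex,
      vol_smul two_pos]
    refine hFi.trans_le (le_of_eq ?_)
    have := vol_pos hWb
    field_simp

end Pool.Agent.MPbd65ca
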