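import Pool.Agent.Lib.MP_bd65ca_an.Dense

/-!
# All dimensions
-/

open MeasureTheory Pointwise Filter Topology Set
open scoped RealInnerProductSpace

namespace Pool.Agent.MPbd65ca

open ScaleAux

theorem isBody_closedBall (d : ℕ) : IsBody (Metric.closedBall (0 : E d) 1) := by
  refine ⟨isCompact_closedBall _ _, convex_closedBall _ _, ?_, ?_⟩
  · refine ⟨0, interior_mono (Metric.ball_subset_closedBall) ?_⟩
    rw [Metric.isOpen_ball.interior_eq]
    simp
  · intro x hx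
    simpa using hx

theorem exists_planar : ∃ c : ℝ, 0 < c ∧ c < 1 ∧ ∃ K : Set (E 2), IsBody K ∧
    ∃ F ∈ cls K, ∫ x, F x ≤ c * (2 ^ 2 / volume.real K) := by
  obtain ⟨K, hK, -, -, F, hF, hFi⟩ := plane_dense (isBody_closedBall 2) (η := 1 / 2)
    (by norm_num) (by norm_num)
  have hv := vol_pos hK
  refine ⟨max (1 / 2) ((∫ x, F x) / (2 ^ 2 / volume.real K)), by positivity, ?_, K, hK, F, hF, ?_⟩
  · refine max_lt (by norm_num) ?_
    rwa [div_lt_one (by positivity)]
  · have h1 : (∫ x, F x) / (2 ^ 2 / volume.real K) ≤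
        max (1 / 2) ((∫ x, F x) / (2 ^ 2 / volume.real K)) := le_max_right _ _
    have h2 : 0 < 2 ^ 2 / volume.real K := by positivity
    rwa [div_le_iff₀ h2] at h1

theorem exists_gap : ∃ c : ℝ, 0 < c ∧ c < 1 ∧ ∀ d ≥ 2, ∃ K : Set (E d), IsBody K ∧
    ∃ F ∈ cls K, ∫ x, F x ≤ c ^ d * (2 ^ d / volume.real K) := by
  obtain ⟨c, hc0, hc1, K₂, hK₂, F₂, hF₂, hF₂i⟩ := exists_planar
  have key : ∀ d ≥ 1, ∃ K : Set (E d), IsBody K ∧
      ∃ F ∈ cls K, ∫ x, F x ≤ c ^ (d / 2) * (2 ^ d / volume.real K) := by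
    intro d
    induction d using Nat.strong_induction_on with
    | _ d ih =>
      intro hd
      rcases Nat.lt_or_ge d 2 with h | h
      · obtain rfl : d = 1 := by omega
        obtain ⟨F, hF, hFi⟩ := cls_trivial (isBody_closedBall 1)
        exact ⟨_, isBody_closedBall 1, F, hF, by simpa using hFi⟩
      rcases Nat.lt_or_ge d 3 with h' | h'
      · obtain rfl : d = 2 := by omega
        exact ⟨K₂, hK₂, F₂, hF₂, by simpa using hF₂i⟩
      obtain ⟨e, rfl⟩ : ∃ e, d = e + 2 := ⟨d - 2, by omega⟩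
      obtain ⟨K, hK, F, hF, hFi⟩ := ih e (by omega) (by omega)
      obtain ⟨hb, hv⟩ := prod_body hK hK₂
      obtain ⟨h1, h2⟩ := prod_cls hK.isCompact.isClosed hK₂.isCompact.isClosed hF hF₂
      refine ⟨prodSet K K₂, hb, _, h1, ?_⟩
      rw [h2, hv]
      have p1 := vol_pos hK
      have p2 := vol_pos hK₂
      have p3 : 0 ≤ ∫ x, F x := integral_nonneg hF.2.2.1
      have p4 : 0 ≤ ∫ x, F₂ x := integral_nonneg hF₂.2.2.1
      calc (∫ x, F x) * ∫ x, F₂ x ≤
            (c ^ (e / 2) * (2 ^ e / volume.real K)) * (c * (2 ^ 2 / volume.real K₂)) :=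
            mul_le_mul hFi hF₂i p4 (by positivity)
        _ = c ^ ((e + 2) / 2) * (2 ^ (e + 2) / (volume.real K * volume.real K₂)) := by
            have : (e + 2) / 2 = e / 2 + 1 := by omega
            rw [this]
            field_simp
            ring
  set b : ℝ := 1 - (1 - c) / 3 with hb
  have hb0 : 0 < b := by rw [hb]; linarith
  have hb1 : b < 1 := by rw [hb]; linarith
  have hbc : c ≤ b ^ 3 := by
    rw [hb]
    nlinarith [sq_nonneg (1 - c), mul_nonneg (sq_nonneg (1 - c)) hc0.le]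
  refine ⟨b, hb0, hb1, fun d hd => ?_⟩
  obtain ⟨K, hK, F, hF, hFi⟩ := key d (by omega)
  refine ⟨K, hK, F, hF, hFi.trans ?_⟩
  have p1 := vol_pos hK
  refine mul_le_mul_of_nonneg_right ?_ (by positivity)
  calc c ^ (d / 2) ≤ (b ^ 3) ^ (d / 2) := pow_le_pow_left₀ hc0.le hbc _
    _ = b ^ (3 * (d / 2)) := by rw [← pow_mul]
    _ ≤ b ^ d := pow_le_pow_of_le_one hb0.le hb1.le (by omega)

theorem turan_le_integral {d : ℕ} {K : Set (E d)} {F : E d → ℝ} (hF : F ∈ cls K) :
    turan K ≤ ∫ x, F x := csInf_le (turan_bdd K) ⟨F, hF, rfl⟩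

end Pool.Agent.MPbd65ca
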