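import Mathlib

/-!
# The trigonometric inequality
-/

open Finset Real

namespace Pool.Agent.MPbd65ca

/-- Summation by parts. -/
theorem sum_parts (n : ℕ) (G c : ℕ → ℝ) :
    ∑ i ∈ range (n + 1), G i * (c (i + 1) - c i) =
      G n * c (n + 1) - G 0 * c 0 + ∑ i ∈ range n, (G i - G (i + 1)) * c (i + 1) := by
  induction n with
  | zero => simp; ring
  | succ n ih => rw [sum_range_succ, ih, sum_range_succ _ n]; ring

/-- The trigonometric polynomial `h` for the nodes `θ 0, ..., θ (n + 1)`. -/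
noncomputable def hfun (n κ : ℕ) (G0 θ : ℕ → ℝ) (q : ℕ → Prop) [DecidablePred q] (u : ℝ) : ℝ :=
  2 * cos (θ (κ + 1)) * (G0 0 * cos (θ 0) - G0 n * cos (θ (n + 1)))
    - ∑ i ∈ (range n).erase κ, (G0 i - G0 (i + 1)) * cos (θ (κ + 1) - θ (i + 1))
    - ∑ i ∈ range n, (G0 i - G0 (i + 1)) *
        (if q i then cos (θ (κ + 1) + θ (i + 1) - 2 * u) else cos (θ (κ + 1) + θ (i + 1)))
    - (G0 κ - G0 (κ + 1)) / 4

theorem abs_cos_sub_cos (a u : ℝ) : |cos a - cos (a - 2 * u)| ≤ 2 * |sin u| := by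
  rw [cos_sub_cos]
  have e1 : (a + (a - 2 * u)) / 2 = a - u := by ring
  have e2 : (a - (a - 2 * u)) / 2 = u := by ring
  rw [e1, e2, abs_mul, abs_mul, abs_neg]
  have := abs_sin_le_one (a - u)
  have h2 : |(2 : ℝ)| = 2 := abs_of_pos two_pos
  rw [h2]
  have h3 := abs_nonneg (sin u)
  nlinarith

theorem ineq_aux {z z1 z2 z3 z4 z5 z6 p ε E su : ℝ} (e1 : z5 = -z6 + z3 + z4)
    (e2 : z4 = ε + z1) (e3 : z2 ≤ z3 + 2 * E * su) (e4 : -(2 * p) ≤ z5 ∧ z5 ≤ 2 * p)
    (e5 : z = z6 - z1 - z2 - ε / 4) : -2 * p - 2 * E * su + 3 / 4 * ε ≤ z := by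
  linarith [e4.1, e4.2]

theorem ineq_aux2 {P P0 ε E su h n δ : ℝ} (hPP : |P - P0| ≤ 2 * (n + 1) * δ)
    (hsin : su ≤ |P0| + 2 * E) (hh : -2 * |P0| - 2 * E * su + 3 / 4 * ε ≤ h) (hE0 : 0 ≤ E)
    (hE : 16 * E ^ 2 ≤ ε) (hE2 : E ≤ 1 / 2) (hδ2 : 24 * (n + 1) * δ ≤ ε) (hε : 0 < ε) :
    0 ≤ h + 9 / ε * P ^ 2 := by
  have hP0le : |P0| ≤ |P| + 2 * (n + 1) * δ := by
    have : |P0| ≤ |P| + |P - P0| := by
      have := abs_sub_abs_le_abs_sub P0 P
      rw [abs_sub_comm P0 P] at this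
      linarith
    linarith
  have hfin : -3 * |P| + ε / 4 ≤ h := by
    have h3 := abs_nonneg P0
    have h4 : 2 * E * su ≤ 2 * E * (|P0| + 2 * E) :=
      mul_le_mul_of_nonneg_left hsin (by linarith)
    have h5 : 2 * E * |P0| ≤ |P0| := by nlinarith
    nlinarith
  have h6 : 0 ≤ -3 * |P| + ε / 4 + 9 / ε * P ^ 2 := by
    rw [← sq_abs P]
    have : -3 * |P| + ε / 4 + 9 / ε * |P| ^ 2 = (6 * |P| - ε) ^ 2 / (4 * ε) := by
      field_simp
      ring
    rw [this]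
    positivity
  linarith

theorem ineq {n κ : ℕ} (hκ : κ < n) {G0 G θ : ℕ → ℝ} (q : ℕ → Prop) [DecidablePred q]
    {u s δ : ℝ} (hG0 : ∀ i < n, G0 (i + 1) ≤ G0 i) (h1 : 1 ≤ G0 0) (hs : 1 / 2 ≤ |sin s|)
    (hθ0 : θ 0 = -u - s) (hθN : θ (n + 1) = u - s)
    (hδ : ∀ i ≤ n, |G i - G0 i| ≤ δ)
    (hδ2 : 24 * (n + 1) * δ ≤ G0 κ - G0 (κ + 1))
    (hE : 16 * (G0 0 - G0 n) ^ 2 ≤ G0 κ - G0 (κ + 1)) (hE2 : G0 0 - G0 n ≤ 1 / 2)
    (hε : 0 < G0 κ - G0 (κ + 1)) :
    0 ≤ hfun n κ G0 θ q u + 9 / (G0 κ - G0 (κ + 1)) *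
      (∑ i ∈ range (n + 1), G i * (cos (θ (i + 1)) - cos (θ i))) ^ 2 := by
  set ε := G0 κ - G0 (κ + 1) with hεdef
  set P := ∑ i ∈ range (n + 1), G i * (cos (θ (i + 1)) - cos (θ i)) with hP
  set P0 := ∑ i ∈ range (n + 1), G0 i * (cos (θ (i + 1)) - cos (θ i)) with hP0
  set E := G0 0 - G0 n with hEdef
  have hEsum : ∑ i ∈ range n, (G0 i - G0 (i + 1)) = E := by
    rw [Finset.sum_range_sub', hEdef]
  have hE0 : 0 ≤ E := by
    rw [← hEsum]
    exact Finset.sum_nonneg fun i hi => sub_nonneg.2 (hG0 i (mem_range.1 hi))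
  have hparts := sum_parts n G0 (fun i => cos (θ i))
  rw [← hP0] at hparts
  -- P close to P0
  have hPP : |P - P0| ≤ 2 * (n + 1) * δ := by
    rw [hP, hP0, ← Finset.sum_sub_distrib]
    refine (abs_sum_le_sum_abs _ _).trans ?_
    have : ∀ i ∈ range (n + 1), |G i * (cos (θ (i + 1)) - cos (θ i)) -
        G0 i * (cos (θ (i + 1)) - cos (θ i))| ≤ 2 * δ := by
      intro i hi
      rw [← sub_mul, abs_mul]
      have a1 := hδ i (Nat.lt_succ_iff.1 (mem_range.1 hi))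
      have a2 : |cos (θ (i + 1)) - cos (θ i)| ≤ 2 := by
        have := abs_sub (cos (θ (i + 1))) (cos (θ i))
        have b1 := abs_cos_le_one (θ (i + 1))
        have b2 := abs_cos_le_one (θ i)
        linarith
      calc |G i - G0 i| * |cos (θ (i + 1)) - cos (θ i)| ≤ δ * 2 :=
            mul_le_mul a1 a2 (abs_nonneg _) ((abs_nonneg _).trans a1)
        _ = 2 * δ := by ring
    refine (Finset.sum_le_sum this).trans ?_
    rw [Finset.sum_const, card_range, nsmul_eq_mul]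
    push_cast
    apply le_of_eq
    ring
  -- bound of sin u
  have hsin : |sin u| ≤ |P0| + 2 * E := by
    have e1 : cos (θ 0) = cos (u + s) := by
      rw [hθ0, ← cos_neg]; ring_nf
    have e2 : 2 * G0 0 * (sin u * sin s) = P0 + E * cos (u - s) -
        ∑ i ∈ range n, (G0 i - G0 (i + 1)) * cos (θ (i + 1)) := by
      rw [hparts, e1, hθN, cos_add, cos_sub, hEdef]
      ring
    have e3 : |∑ i ∈ range n, (G0 i - G0 (i + 1)) * cos (θ (i + 1))| ≤ E := by
      refine (abs_sum_le_sum_abs _ _).trans ?_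
      rw [← hEsum]
      refine Finset.sum_le_sum fun i hi => ?_
      rw [abs_mul, abs_of_nonneg (sub_nonneg.2 (hG0 i (mem_range.1 hi)))]
      have := abs_cos_le_one (θ (i + 1))
      have h0 := sub_nonneg.2 (hG0 i (mem_range.1 hi))
      nlinarith
    have e4 : |E * cos (u - s)| ≤ E := by
      rw [abs_mul, abs_of_nonneg hE0]
      have := abs_cos_le_one (u - s)
      nlinarith
    have e5 : |2 * G0 0 * (sin u * sin s)| = 2 * G0 0 * (|sin u| * |sin s|) := by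
      rw [abs_mul, abs_mul (sin u), abs_of_nonneg (by linarith : (0 : ℝ) ≤ 2 * G0 0)]
    have e6 : 2 * G0 0 * (|sin u| * |sin s|) ≤ |P0| + E + E := by
      rw [← e5, e2]
      refine (abs_sub _ _).trans ?_
      refine add_le_add ((abs_add_le _ _).trans (add_le_add le_rfl e4)) e3
    have e7 : |sin u| ≤ 2 * G0 0 * (|sin u| * |sin s|) := by
      have h0 := abs_nonneg (sin u)
      have h2 : |sin u| * (1 / 2) ≤ |sin u| * |sin s| := mul_le_mul_of_nonneg_left hs h0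
      nlinarith [mul_nonneg h0 (abs_nonneg (sin s))]
    linarith
  -- lower bound of h
  have hh : -2 * |P0| - 2 * E * |sin u| + 3 / 4 * ε ≤ hfun n κ G0 θ q u := by
    have hκm : κ ∈ range n := mem_range.2 hκ
    have e1 : 2 * cos (θ (κ + 1)) * P0 = -(2 * cos (θ (κ + 1)) *
        (G0 0 * cos (θ 0) - G0 n * cos (θ (n + 1)))) +
        ∑ i ∈ range n, (G0 i - G0 (i + 1)) * cos (θ (κ + 1) + θ (i + 1)) +
        ∑ i ∈ range n, (G0 i - G0 (i + 1)) * cos (θ (κ + 1) - θ (i + 1)) := by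
      rw [hparts, mul_add, Finset.mul_sum, add_assoc, ← Finset.sum_add_distrib]
      congr 1
      · ring
      · refine Finset.sum_congr rfl fun i _ => ?_
        rw [cos_add, cos_sub]
        ring
    have e2 : ∑ i ∈ range n, (G0 i - G0 (i + 1)) * cos (θ (κ + 1) - θ (i + 1)) =
        ε + ∑ i ∈ (range n).erase κ, (G0 i - G0 (i + 1)) * cos (θ (κ + 1) - θ (i + 1)) := by
      rw [← Finset.add_sum_erase _ _ hκm, sub_self, cos_zero, mul_one]
    have e3 : ∑ i ∈ range n, (G0 i - G0 (i + 1)) *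
        (if q i then cos (θ (κ + 1) + θ (i + 1) - 2 * u) else cos (θ (κ + 1) + θ (i + 1))) ≤
        ∑ i ∈ range n, (G0 i - G0 (i + 1)) * cos (θ (κ + 1) + θ (i + 1)) + 2 * E * |sin u| := by
      rw [← hEsum, Finset.mul_sum, Finset.sum_mul, ← Finset.sum_add_distrib]
      refine Finset.sum_le_sum fun i hi => ?_
      have h0 := sub_nonneg.2 (hG0 i (mem_range.1 hi))
      have h3 := abs_nonneg (sin u)
      split_ifs with hqi
      · have := abs_cos_sub_cos (θ (κ + 1) + θ (i + 1)) u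
        rw [abs_le] at this
        nlinarith [this.1]
      · have := mul_nonneg h0 h3
        nlinarith
    have e4 : |2 * cos (θ (κ + 1)) * P0| ≤ 2 * |P0| := by
      rw [abs_mul, abs_mul, abs_of_pos (two_pos : (0 : ℝ) < 2)]
      have := abs_cos_le_one (θ (κ + 1))
      have h3 := abs_nonneg P0
      nlinarith
    rw [abs_le] at e4
    have e5 : hfun n κ G0 θ q u =
        2 * cos (θ (κ + 1)) * (G0 0 * cos (θ 0) - G0 n * cos (θ (n + 1)))
        - ∑ i ∈ (range n).erase κ, (G0 i - G0 (i + 1)) * cos (θ (κ + 1) - θ (i + 1))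
        - ∑ i ∈ range n, (G0 i - G0 (i + 1)) *
          (if q i then cos (θ (κ + 1) + θ (i + 1) - 2 * u) else cos (θ (κ + 1) + θ (i + 1)))
        - ε / 4 := rfl
    exact ineq_aux e1 e2 e3 e4 e5
  exact ineq_aux2 hPP hsin hh hE0 hE hE2 hδ2 hε

theorem abs_hfun_le {n κ : ℕ} (hκ : κ < n) {G0 θ : ℕ → ℝ} (q : ℕ → Prop) [DecidablePred q]
    {u : ℝ} (hG0 : ∀ i < n, G0 (i + 1) ≤ G0 i) (hn : 0 ≤ G0 n) :
    |hfun n κ G0 θ q u| ≤ 8 * G0 0 := by
  set E := G0 0 - G0 n with hEdef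
  have hEsum : ∑ i ∈ range n, (G0 i - G0 (i + 1)) = E := by
    rw [Finset.sum_range_sub', hEdef]
  have hpos : ∀ i ∈ range n, 0 ≤ G0 i - G0 (i + 1) :=
    fun i hi => sub_nonneg.2 (hG0 i (mem_range.1 hi))
  have hE0 : 0 ≤ E := by
    rw [← hEsum]
    exact Finset.sum_nonneg hpos
  have hκm : κ ∈ range n := mem_range.2 hκ
  have b1 : |∑ i ∈ (range n).erase κ, (G0 i - G0 (i + 1)) * cos (θ (κ + 1) - θ (i + 1))| ≤ E := by
    refine (abs_sum_le_sum_abs _ _).trans ?_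
    rw [← hEsum]
    refine (Finset.sum_le_sum fun i hi => ?_).trans
      (Finset.sum_le_sum_of_subset_of_nonneg (Finset.erase_subset κ (range n))
        fun i hi _ => hpos i hi)
    have h0 := hpos i (Finset.mem_of_mem_erase hi)
    rw [abs_mul, abs_of_nonneg h0]
    have := abs_cos_le_one (θ (κ + 1) - θ (i + 1))
    nlinarith
  have b2 : |∑ i ∈ range n, (G0 i - G0 (i + 1)) *
        (if q i then cos (θ (κ + 1) + θ (i + 1) - 2 * u) else cos (θ (κ + 1) + θ (i + 1)))| ≤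
        E := by
    refine (abs_sum_le_sum_abs _ _).trans ?_
    rw [← hEsum]
    refine Finset.sum_le_sum fun i hi => ?_
    have h0 := hpos i hi
    rw [abs_mul, abs_of_nonneg h0]
    split_ifs
    · have := abs_cos_le_one (θ (κ + 1) + θ (i + 1) - 2 * u)
      nlinarith
    · have := abs_cos_le_one (θ (κ + 1) + θ (i + 1))
      nlinarith
  have b3 : |2 * cos (θ (κ + 1)) * (G0 0 * cos (θ 0) - G0 n * cos (θ (n + 1)))| ≤
      2 * (G0 0 + G0 n) := by
    rw [abs_mul, abs_mul, abs_of_pos (two_pos : (0 : ℝ) < 2)]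
    have c1 := abs_cos_le_one (θ (κ + 1))
    have c2 : |G0 0 * cos (θ 0) - G0 n * cos (θ (n + 1))| ≤ G0 0 + G0 n := by
      refine (abs_sub _ _).trans ?_
      rw [abs_mul, abs_mul, abs_of_nonneg hn, abs_of_nonneg (by linarith : 0 ≤ G0 0)]
      have d1 := abs_cos_le_one (θ 0)
      have d2 := abs_cos_le_one (θ (n + 1))
      nlinarith
    have c3 := abs_nonneg (cos (θ (κ + 1)))
    have c4 := abs_nonneg (G0 0 * cos (θ 0) - G0 n * cos (θ (n + 1)))
    nlinarith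
  have b4 : G0 κ - G0 (κ + 1) ≤ E := by
    rw [← hEsum]
    exact Finset.single_le_sum hpos hκm
  have b5 := hpos κ hκm
  unfold hfun
  rw [abs_le] at b1 b2 b3 ⊢
  constructor <;> linarith [b1.1, b1.2, b2.1, b2.2, b3.1, b3.2]

end Pool.Agent.MPbd65ca
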