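import Pool.Agent.Lib.MP_bd65ca_an.Defs

/-!
# Lowering the integral by a small modulated lump far away
-/

open MeasureTheory FourierTransform Pointwise Filter Topology Real
open scoped RealInnerProductSpace

namespace Pool.Agent.MPbd65ca

variable {d : ℕ}

theorem Vanish.mono {K K' : Set (E d)} (h : K ⊆ K') {f : E d → ℂ} (hf : Vanish K f) :
    Vanish K' f :=
  ⟨hf.1, fun ξ hξ => hf.2 ξ fun h' => hξ (h h')⟩

theorem Vanish.congr {K : Set (E d)} {f g : E d → ℂ} (hf : Vanish K f) (h : ∀ x, f x = g x) :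
    Vanish K g := by
  have : f = g := funext h
  rwa [← this]

theorem Vanish.add {K : Set (E d)} {f g : E d → ℂ} (hf : Vanish K f) (hg : Vanish K g) :
    Vanish K (fun x => f x + g x) := by
  refine ⟨hf.1.add hg.1, fun ξ hξ => ?_⟩
  have h1 := hf.2 ξ hξ
  have h2 := hg.2 ξ hξ
  rw [fourier_eq] at h1 h2 ⊢
  have h3 : ∀ v : E d, 𝐞 (-⟪v, ξ⟫) • (f v + g v) = 𝐞 (-⟪v, ξ⟫) • f v + 𝐞 (-⟪v, ξ⟫) • g v :=
    fun v => smul_add _ _ _
  simp_rw [h3]
  rw [integral_add, h1, h2, add_zero]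
  · exact (fourierIntegral_convergent_iff ξ).2 hf.1
  · exact (fourierIntegral_convergent_iff ξ).2 hg.1

theorem Vanish.const_mul {K : Set (E d)} {f : E d → ℂ} (hf : Vanish K f) (c : ℂ) :
    Vanish K (fun x => c * f x) := by
  refine ⟨hf.1.const_mul c, fun ξ hξ => ?_⟩
  have h1 := hf.2 ξ hξ
  rw [fourier_eq] at h1 ⊢
  have h3 : ∀ v : E d, 𝐞 (-⟪v, ξ⟫) • (c * f v) = c * (𝐞 (-⟪v, ξ⟫) • f v) := by
    intro v
    rw [Circle.smul_def, Circle.smul_def, smul_eq_mul, smul_eq_mul]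
    ring
  simp_rw [h3]
  rw [integral_const_mul, h1, mul_zero]

theorem Vanish.zero (K : Set (E d)) : Vanish K (fun _ => (0 : ℂ)) := by
  refine ⟨integrable_zero _ _ _, fun ξ _ => ?_⟩
  rw [fourier_eq]
  simp

theorem Vanish.sum {K : Set (E d)} {ι : Type*} (s : Finset ι) (f : ι → E d → ℂ)
    (hf : ∀ i ∈ s, Vanish K (f i)) : Vanish K (fun x => ∑ i ∈ s, f i x) := by
  classical
  induction s using Finset.induction_on with
  | empty => simpa using Vanish.zero K
  | insert a s ha ih =>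
    have h1 := (hf a (Finset.mem_insert_self a s)).add
      (ih fun i hi => hf i (Finset.mem_insert_of_mem hi))
    refine h1.congr fun x => ?_
    rw [Finset.sum_insert ha]

theorem Vanish.translate {K : Set (E d)} {f : E d → ℂ} (hf : Vanish K f) (x₀ : E d) :
    Vanish K (fun x => f (x - x₀)) := by
  refine ⟨hf.1.comp_sub_right x₀, fun ξ hξ => ?_⟩
  have h := congrFun (VectorFourier.fourierIntegral_comp_add_right 𝐞 volume (innerₗ (E d)) f
    (-x₀)) ξ
  have h2 : 𝓕 (fun x => f (x - x₀)) ξ = VectorFourier.fourierIntegral 𝐞 volume (innerₗ (E d))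
    (f ∘ fun v ↦ v + -x₀) ξ := by
    congr 1
  rw [h2, h]
  have h3 : VectorFourier.fourierIntegral 𝐞 volume (innerₗ (E d)) f ξ = 𝓕 f ξ := rfl
  rw [h3, hf.2 ξ hξ, smul_zero]

theorem Vanish.modulate {ρ : ℝ} {f : E d → ℂ} (hf : Vanish (Metric.closedBall 0 ρ) f) (v : E d) :
    Vanish (Metric.closedBall v ρ) (fun x => 𝐞 ⟪x, v⟫ • f x) := by
  constructor
  · have := (fourierIntegral_convergent_iff (μ := (volume : Measure (E d))) (f := f) (-v)).2 hf.1
    refine this.congr (Eventually.of_forall fun x => ?_)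
    simp only [inner_neg_right, neg_neg]
  · intro ξ hξ
    have h1 : ξ - v ∉ Metric.closedBall (0 : E d) ρ := by
      intro h
      apply hξ
      rw [mem_closedBall_iff_norm] at h ⊢
      simpa using h
    have h2 := hf.2 _ h1
    rw [fourier_eq] at h2 ⊢
    rw [← h2]
    congr 1
    ext x
    rw [smul_smul, ← AddChar.map_add_eq_mul]
    congr 2
    rw [inner_sub_right]
    ring

theorem Vanish.cos_mul {ρ : ℝ} {f : E d → ℂ} (hf : Vanish (Metric.closedBall 0 ρ) f) (v x₀ : E d) :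
    Vanish (Metric.closedBall v ρ ∪ Metric.closedBall (-v) ρ)
      (fun x => ((Real.cos (2 * π * ⟪x, v⟫) : ℝ) : ℂ) * f (x - x₀)) := by
  have h1 := (hf.modulate v).translate x₀
  have h2 := (hf.modulate (-v)).translate x₀
  have h3 := (h1.const_mul ((1 / 2 : ℂ) * (𝐞 ⟪x₀, v⟫ : ℂ))).mono
    (K' := Metric.closedBall v ρ ∪ Metric.closedBall (-v) ρ) Set.subset_union_left
  have h4 := (h2.const_mul ((1 / 2 : ℂ) * (𝐞 ⟪x₀, -v⟫ : ℂ))).mono
    (K' := Metric.closedBall v ρ ∪ Metric.closedBall (-v) ρ) Set.subset_union_right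
  refine (h3.add h4).congr fun x => ?_
  have e1 : (𝐞 ⟪x₀, v⟫ : ℂ) * (𝐞 ⟪x - x₀, v⟫ : ℂ) = 𝐞 ⟪x, v⟫ := by
    rw [← Circle.coe_mul, ← AddChar.map_add_eq_mul, inner_sub_left]
    congr 2
    ring
  have e2 : (𝐞 ⟪x₀, -v⟫ : ℂ) * (𝐞 ⟪x - x₀, -v⟫ : ℂ) = 𝐞 ⟪x, -v⟫ := by
    rw [← Circle.coe_mul, ← AddChar.map_add_eq_mul, inner_sub_left]
    congr 2
    ring
  rw [Circle.smul_def, Circle.smul_def, smul_eq_mul, smul_eq_mul]
  have e3 : ((Real.cos (2 * π * ⟪x, v⟫) : ℝ) : ℂ) = (1 / 2 : ℂ) * (𝐞 ⟪x, v⟫ : ℂ)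
      + (1 / 2 : ℂ) * (𝐞 ⟪x, -v⟫ : ℂ) := by
    rw [Real.fourierChar_apply, Real.fourierChar_apply, inner_neg_right, Complex.ofReal_cos,
      Complex.cos]
    push_cast
    ring_nf
  rw [e3, ← e1, ← e2]
  ring

theorem Vanish.integral_eq_zero {K : Set (E d)} {f : E d → ℂ} (hf : Vanish K f)
    (h0 : (0 : E d) ∉ K) : ∫ x, f x = 0 := by
  have := hf.2 0 h0
  rw [fourier_eq] at this
  simpa using this

theorem Vanish.tsupport_subset {K : Set (E d)} (hK : IsClosed K) {f : E d → ℂ}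
    (hf : Vanish K f) : tsupport (𝓕 f) ⊆ K := by
  refine closure_minimal (fun ξ hξ => ?_) hK
  by_contra h
  exact hξ (hf.2 ξ h)

/-- If a modulated lump of small spectrum, far away from the origin, can be added to the square of
the cosine transform of `W` such that the sum is nonnegative and the integral becomes smaller,
then the value of the extremal problem for `W + W` is less than `1 / |W|`. -/
theorem perturb {W : Set (E d)} (hW : IsCompact W) (hs : ∀ x ∈ W, -x ∈ W)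
    (hpos : 0 < volume.real W)
    (hcos : Continuous (cosT W) ∧ cosT W 0 = volume.real W ∧
      Integrable (fun x => cosT W x ^ 2) ∧ ∫ x, cosT W x ^ 2 ≤ volume.real W ∧
      Vanish (W + W) (fun x => ((cosT W x ^ 2 : ℝ) : ℂ)))
    {ρ : ℝ} {Ψ : E d → ℝ} (hΨc : Continuous Ψ)
    (hΨ1 : Vanish (Metric.closedBall 0 ρ) (fun x => (Ψ x : ℂ)))
    (hΨ2 : Vanish (Metric.closedBall 0 ρ) (fun x => ((Ψ x ^ 2 : ℝ) : ℂ)))
    {ι : Type*} (s : Finset ι) (f : ι → E d) (a : ι → ℝ) {β M t : ℝ} (ht : 0 < t)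
    (hf : ∀ i ∈ s, Metric.closedBall (f i) ρ ⊆ W + W) (hf0 : ∀ i ∈ s, ρ < ‖f i‖)
    (h0 : Metric.closedBall 0 ρ ⊆ W + W) (x₀ : E d)
    (hnn : ∀ x, 0 ≤ cosT W x ^ 2 + t * (Ψ (x - x₀) ^ 2 *
      (∑ i ∈ s, a i * Real.cos (2 * π * ⟪x, f i⟫) - β) + M * Ψ (x - x₀)))
    (hzero : 0 ≤ Ψ (-x₀) ^ 2 * (∑ i ∈ s, a i - β) + M * Ψ (-x₀))
    (hint : M * ∫ x, Ψ x < β * ∫ x, Ψ x ^ 2) :
    ∃ F ∈ cls (W + W), ∫ x, F x < 1 / volume.real W := by
  obtain ⟨hgc, hg0, hgi, hgint, hgv⟩ := hcos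
  have hKc : IsClosed (W + W) := (hW.add hW).isClosed
  -- integrability of the lumps
  have hΨi : Integrable Ψ := by
    have := hΨ1.1.re
    simpa using this
  have hΨ2i : Integrable (fun x => Ψ x ^ 2) := by
    have := hΨ2.1.re
    refine this.congr (Eventually.of_forall fun x => ?_)
    simp only [RCLike.re_to_complex, Complex.ofReal_re]
  have hterm : ∀ i ∈ s, Vanish (Metric.closedBall (f i) ρ ∪ Metric.closedBall (-f i) ρ)
      (fun x => ((Real.cos (2 * π * ⟪x, f i⟫) : ℝ) : ℂ) * (((Ψ (x - x₀)) ^ 2 : ℝ) : ℂ)) :=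
    fun i _ => hΨ2.cos_mul (f i) x₀
  have hneg : ∀ i ∈ s, Metric.closedBall (-f i) ρ ⊆ W + W := by
    intro i hi x hx
    have h1 : -x ∈ Metric.closedBall (f i) ρ := by
      rw [mem_closedBall_iff_norm] at hx ⊢
      have h2 : -x - f i = -(x - -f i) := by abel
      rw [h2, norm_neg]
      exact hx
    obtain ⟨u, hu, v, hv, huv⟩ := hf i hi h1
    refine ⟨-u, hs u hu, -v, hs v hv, ?_⟩
    simp only at huv ⊢
    rw [← neg_add, huv, neg_neg]
  have hsub : ∀ i ∈ s, Metric.closedBall (f i) ρ ∪ Metric.closedBall (-f i) ρ ⊆ W + W :=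
    fun i hi => Set.union_subset (hf i hi) (hneg i hi)
  have hz : ∀ i ∈ s, (0 : E d) ∉ Metric.closedBall (f i) ρ ∪ Metric.closedBall (-f i) ρ := by
    intro i hi h
    have := hf0 i hi
    rcases h with h | h
    · rw [mem_closedBall_iff_norm] at h
      simp at h
      linarith
    · rw [mem_closedBall_iff_norm] at h
      simp at h
      linarith
  -- the function
  set c : ℝ := (volume.real W ^ 2)⁻¹ with hc
  have hcpos : 0 < c := by positivity
  let G : E d → ℝ := fun x => cosT W x ^ 2 + t * (Ψ (x - x₀) ^ 2 *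
      (∑ i ∈ s, a i * Real.cos (2 * π * ⟪x, f i⟫) - β) + M * Ψ (x - x₀))
  have hGc : Continuous G := by
    have h1 : Continuous fun x => Ψ (x - x₀) := hΨc.comp (continuous_id.sub continuous_const)
    have h2 : Continuous fun x : E d => ∑ i ∈ s, a i * Real.cos (2 * π * ⟪x, f i⟫) := by
      refine continuous_finsetSum _ fun i _ => ?_
      fun_prop
    exact (hgc.pow 2).add (continuous_const.mul (((h1.pow 2).mul (h2.sub continuous_const)).add
      (continuous_const.mul h1)))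
  -- complex form
  have hGeq : ∀ x, (G x : ℂ) = ((cosT W x ^ 2 : ℝ) : ℂ) + ((t : ℂ) * (∑ i ∈ s, (a i : ℂ) *
      (((Real.cos (2 * π * ⟪x, f i⟫) : ℝ) : ℂ) * (((Ψ (x - x₀)) ^ 2 : ℝ) : ℂ))) +
      ((-(t * β) : ℂ) * (((Ψ (x - x₀)) ^ 2 : ℝ) : ℂ) + (t * M : ℂ) * ((Ψ (x - x₀) : ℝ) : ℂ))) := by
    intro x
    have h1 : (∑ i ∈ s, (a i : ℂ) *
      (((Real.cos (2 * π * ⟪x, f i⟫) : ℝ) : ℂ) * (((Ψ (x - x₀)) ^ 2 : ℝ) : ℂ)))
      = ((∑ i ∈ s, a i * Real.cos (2 * π * ⟪x, f i⟫) : ℝ) : ℂ) *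
        (((Ψ (x - x₀)) ^ 2 : ℝ) : ℂ) := by
      push_cast
      rw [Finset.sum_mul]
      refine Finset.sum_congr rfl fun i _ => ?_
      ring
    rw [h1]
    simp only [G]
    push_cast
    ring
  have hS : Vanish (W + W) (fun x => ∑ i ∈ s, (a i : ℂ) *
      (((Real.cos (2 * π * ⟪x, f i⟫) : ℝ) : ℂ) * (((Ψ (x - x₀)) ^ 2 : ℝ) : ℂ))) :=
    Vanish.sum s _ fun i hi => ((hterm i hi).mono (hsub i hi)).const_mul _
  have hP2 := (hΨ2.translate x₀)
  have hP1 := (hΨ1.translate x₀)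
  have hGv : Vanish (W + W) (fun x => (G x : ℂ)) := by
    refine Vanish.congr ?_ fun x => (hGeq x).symm
    exact hgv.add ((hS.const_mul _).add (((hP2.mono h0).const_mul _).add
      ((hP1.mono h0).const_mul _)))
  -- the integral
  have hSint : ∫ x, (∑ i ∈ s, (a i : ℂ) *
      (((Real.cos (2 * π * ⟪x, f i⟫) : ℝ) : ℂ) * (((Ψ (x - x₀)) ^ 2 : ℝ) : ℂ))) = 0 := by
    rw [integral_finsetSum]
    · refine Finset.sum_eq_zero fun i hi => ?_
      rw [integral_const_mul, (hterm i hi).integral_eq_zero (hz i hi), mul_zero]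
    · intro i hi
      exact ((hterm i hi).const_mul _).1
  have hGi : ((∫ x, G x : ℝ) : ℂ) = ((∫ x, cosT W x ^ 2 : ℝ) : ℂ) +
      ((-(t * β) : ℂ) * ((∫ x, (Ψ x) ^ 2 : ℝ) : ℂ) + (t * M : ℂ) * ((∫ x, Ψ x : ℝ) : ℂ)) := by
    rw [← integral_complex_ofReal, ← integral_complex_ofReal, ← integral_complex_ofReal,
      ← integral_complex_ofReal]
    simp_rw [hGeq]
    rw [integral_add hgv.1 ((hS.const_mul _).add ((hP2.mono h0).const_mul _ |>.add
      ((hP1.mono h0).const_mul _))).1]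
    rw [integral_add (hS.const_mul _).1 ((hP2.mono h0).const_mul _ |>.add
      ((hP1.mono h0).const_mul _)).1]
    rw [integral_const_mul, hSint, mul_zero, zero_add]
    rw [integral_add ((hP2.mono h0).const_mul _).1 ((hP1.mono h0).const_mul _).1]
    rw [integral_const_mul, integral_const_mul]
    rw [integral_sub_right_eq_self (fun x => ((Ψ x ^ 2 : ℝ) : ℂ)) x₀,
      integral_sub_right_eq_self (fun x => ((Ψ x : ℝ) : ℂ)) x₀]
  have hGr : ∫ x, G x = (∫ x, cosT W x ^ 2) + (-(t * β) * (∫ x, (Ψ x) ^ 2) +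
      (t * M) * ∫ x, Ψ x) := by
    exact_mod_cast hGi
  refine ⟨fun x => c * G x, ⟨continuous_const.mul hGc, ?_, ?_, ?_, ?_⟩, ?_⟩
  · have h1 := hGv.1.re
    refine (Integrable.const_mul ?_ c)
    refine h1.congr (Eventually.of_forall fun x => ?_)
    simp only [RCLike.re_to_complex, Complex.ofReal_re]
  · intro x
    exact mul_nonneg hcpos.le (hnn x)
  · have h1 : G 0 = volume.real W ^ 2 + t * (Ψ (-x₀) ^ 2 * (∑ i ∈ s, a i - β) + M * Ψ (-x₀)) := by
      simp only [G, hg0, zero_sub, inner_zero_left, mul_zero, Real.cos_zero, mul_one]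
    simp only
    rw [h1, hc, mul_add, inv_mul_cancel₀ (by positivity)]
    have := mul_nonneg hcpos.le (mul_nonneg ht.le hzero)
    linarith
  · have h1 : Vanish (W + W) (fun x => ((c * G x : ℝ) : ℂ)) := by
      refine (hGv.const_mul (c : ℂ)).congr fun x => ?_
      push_cast
      ring
    exact h1.tsupport_subset hKc
  · rw [integral_const_mul, hGr, hc, one_div]
    have h2 : (∫ x, cosT W x ^ 2) + (-(t * β) * (∫ x, (Ψ x) ^ 2) + (t * M) * ∫ x, Ψ x) <
        volume.real W := by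
      have := mul_lt_mul_of_pos_left hint ht
      nlinarith
    calc _ < (volume.real W ^ 2)⁻¹ * volume.real W := by
          exact mul_lt_mul_of_pos_left h2 (by positivity)
      _ = (volume.real W)⁻¹ := by
          field_simp

end Pool.Agent.MPbd65ca
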