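import Pool.Agent.Lib.MP_bd65ca_an.Defs

/-!
# The cosine transform of a planar polygon
-/

open MeasureTheory FourierTransform Pointwise Filter Topology
open scoped RealInnerProductSpace

namespace Pool.Agent.MPbd65ca

namespace PlaneAux

/-- The set in `ℝ × ℝ`. -/
def W2 (H : ℝ) (L : ℝ → ℝ) : Set (ℝ × ℝ) :=
  {p | |p.2| ≤ H ∧ L p.2 ≤ p.1 ∧ p.1 ≤ -L (-p.2)}

theorem isClosed_W2 {H : ℝ} {L : ℝ → ℝ} (hL : Continuous L) : IsClosed (W2 H L) := by
  have h1 : IsClosed {p : ℝ × ℝ | |p.2| ≤ H} := isClosed_le (by fun_prop) (by fun_prop)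
  have h2 : IsClosed {p : ℝ × ℝ | L p.2 ≤ p.1} := isClosed_le (by fun_prop) (by fun_prop)
  have h3 : IsClosed {p : ℝ × ℝ | p.1 ≤ -L (-p.2)} := isClosed_le (by fun_prop) (by fun_prop)
  exact h1.inter (h2.inter h3)

theorem isCompact_W2 {H : ℝ} {L : ℝ → ℝ} (hL : Continuous L) : IsCompact (W2 H L) := by
  obtain ⟨C, hC⟩ := (isCompact_Icc (a := -H) (b := H)).exists_bound_of_continuousOn
    (f := L) hL.continuousOn
  refine IsCompact.of_isClosed_subset (isCompact_Icc (a := ((-C, -H) : ℝ × ℝ)) (b := (C, H)))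
    (isClosed_W2 hL) ?_
  rintro ⟨u, t⟩ ⟨h1, h2, h3⟩
  simp only at h1 h2 h3
  have h4 := abs_le.1 h1
  have h5 := hC t h4
  have h6 := hC (-t) ⟨by linarith [h4.2], by linarith [h4.1]⟩
  rw [Real.norm_eq_abs] at h5 h6
  have h7 := abs_le.1 h5
  have h8 := abs_le.1 h6
  exact ⟨⟨by simp only; linarith, h4.1⟩, ⟨by simp only; linarith, h4.2⟩⟩

theorem cosT_eq {H : ℝ} {L : ℝ → ℝ} (x : E 2) :
    cosT (Wset H L) x =
      ∫ p in W2 H L, Real.cos (2 * Real.pi * x 0 * p.1 + 2 * Real.pi * x 1 * p.2) := by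
  have h1 : MeasurePreserving (fun ω : E 2 => ((ω 0, ω 1) : ℝ × ℝ)) :=
    (volume_preserving_finTwoArrow ℝ).comp (EuclideanSpace.volume_preserving_symm_measurableEquiv_toLp _)
  have h2 : MeasurableEmbedding (fun ω : E 2 => ((ω 0, ω 1) : ℝ × ℝ)) :=
    (MeasurableEquiv.finTwoArrow (α := ℝ)).measurableEmbedding.comp
      (MeasurableEquiv.toLp 2 (Fin 2 → ℝ)).symm.measurableEmbedding
  unfold cosT
  have h3 : Wset H L = (fun ω : E 2 => ((ω 0, ω 1) : ℝ × ℝ)) ⁻¹' (W2 H L) := rfl
  rw [h3, ← h1.setIntegral_preimage_emb h2]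
  congr 1
  funext ω
  congr 1
  rw [PiLp.inner_apply, Fin.sum_univ_two]
  simp only [RCLike.inner_apply, conj_trivial]
  ring

theorem inner_int {X Y a b t : ℝ} (hX : X ≠ 0) :
    ∫ u in a..b, Real.cos (X * u + Y * t) = X⁻¹ * (Real.sin (X * b + Y * t) -
      Real.sin (X * a + Y * t)) := by
  rw [intervalIntegral.integral_comp_mul_add (fun u => Real.cos u) hX, integral_cos, smul_eq_mul]

theorem double_int {H : ℝ} (hH : 0 < H) {L : ℝ → ℝ} (hL : Continuous L)
    (hneg : ∀ t ∈ Set.Icc (-H) H, L t ≤ -L (-t)) {X Y : ℝ} (hX : X ≠ 0) :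
    ∫ p in W2 H L, Real.cos (X * p.1 + Y * p.2) =
      -(2 * X⁻¹) * ∫ t in (-H)..H, Real.sin (X * L t + Y * t) := by
  have hm : MeasurableSet (W2 H L) := (isClosed_W2 hL).measurableSet
  have hint : IntegrableOn (fun p : ℝ × ℝ => Real.cos (X * p.1 + Y * p.2)) (W2 H L) :=
    ContinuousOn.integrableOn_compact (isCompact_W2 hL) (by fun_prop)
  rw [← integral_indicator hm]
  have hint2 : Integrable ((W2 H L).indicator (fun p : ℝ × ℝ => Real.cos (X * p.1 + Y * p.2)))
      ((volume : Measure ℝ).prod volume) := (integrable_indicator_iff hm).2 hint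
  rw [Measure.volume_eq_prod, integral_prod_symm _ hint2]
  have e1 : ∀ t : ℝ, (∫ u : ℝ, (W2 H L).indicator
      (fun p : ℝ × ℝ => Real.cos (X * p.1 + Y * p.2)) (u, t)) =
      (Set.Icc (-H) H).indicator (fun t => X⁻¹ * (Real.sin (X * (-L (-t)) + Y * t) -
        Real.sin (X * L t + Y * t))) t := by
    intro t
    by_cases ht : t ∈ Set.Icc (-H) H
    · rw [Set.indicator_of_mem ht, ← inner_int hX, intervalIntegral.integral_of_le (hneg t ht),
        ← integral_Icc_eq_integral_Ioc, ← integral_indicator measurableSet_Icc]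
      congr 1
      funext u
      by_cases hu : u ∈ Set.Icc (L t) (-L (-t))
      · rw [Set.indicator_of_mem hu, Set.indicator_of_mem]
        exact ⟨abs_le.2 ht, hu.1, hu.2⟩
      · rw [Set.indicator_of_notMem hu, Set.indicator_of_notMem]
        rintro ⟨-, h2, h3⟩
        exact hu ⟨h2, h3⟩
    · rw [Set.indicator_of_notMem ht]
      have : ∀ u : ℝ, (W2 H L).indicator
          (fun p : ℝ × ℝ => Real.cos (X * p.1 + Y * p.2)) (u, t) = 0 := by
        intro u
        rw [Set.indicator_of_notMem]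
        rintro ⟨h1, -, -⟩
        exact ht (abs_le.1 h1)
      simp only [this, integral_zero]
  rw [integral_congr_ae (Filter.Eventually.of_forall e1), integral_indicator measurableSet_Icc,
    integral_Icc_eq_integral_Ioc, ← intervalIntegral.integral_of_le (by linarith),
    intervalIntegral.integral_const_mul, intervalIntegral.integral_sub
      (Continuous.intervalIntegrable (by fun_prop) _ _)
      (Continuous.intervalIntegrable (by fun_prop) _ _)]
  have e2 : ∫ t in (-H)..H, Real.sin (X * (-L (-t)) + Y * t) =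
      - ∫ t in (-H)..H, Real.sin (X * L t + Y * t) := by
    have e3 : ∀ t, Real.sin (X * (-L (-t)) + Y * t) =
        (fun s => - Real.sin (X * L s + Y * s)) (-t) := by
      intro t
      simp only
      rw [← Real.sin_neg]
      congr 1
      ring
    rw [intervalIntegral.integral_congr (g := fun t => (fun s => - Real.sin (X * L s + Y * s)) (-t))
      (fun t _ => e3 t), intervalIntegral.integral_comp_neg (fun s => - Real.sin (X * L s + Y * s)),
      neg_neg, intervalIntegral.integral_neg]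
  rw [e2]
  ring

theorem single_int {L : ℝ → ℝ} {X Y a b s : ℝ} (hab : a ≤ b)
    (lin : ∀ t ∈ Set.Icc a b, L t = L a + s * (t - a)) (hs : Y + s * X ≠ 0) :
    ∫ t in a..b, Real.sin (X * L t + Y * t) =
      - ((Real.cos (X * L b + Y * b) - Real.cos (X * L a + Y * a)) / (Y + s * X)) := by
  have e1 : ∫ t in a..b, Real.sin (X * L t + Y * t) =
      ∫ t in a..b, Real.sin ((Y + s * X) * t + X * (L a - s * a)) := by
    apply intervalIntegral.integral_congr
    intro t ht
    rw [Set.uIcc_of_le hab] at ht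
    simp only
    rw [lin t ht]
    congr 1
    ring
  rw [e1, intervalIntegral.integral_comp_mul_add (fun u => Real.sin u) hs, integral_sin,
    smul_eq_mul]
  have e2 : (Y + s * X) * a + X * (L a - s * a) = X * L a + Y * a := by ring
  have e3 : (Y + s * X) * b + X * (L a - s * a) = X * L b + Y * b := by
    rw [lin b ⟨hab, le_refl b⟩]
    ring
  rw [e2, e3]
  field_simp
  ring

theorem main {H : ℝ} (hH : 0 < H) {N : ℕ} {y σ : ℕ → ℝ} {L : ℝ → ℝ} (hL : Continuous L)
    (y0 : y 0 = -H) (yN : y N = H) (ymono : ∀ j < N, y j < y (j + 1))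
    (lin : ∀ j < N, ∀ t ∈ Set.Icc (y j) (y (j + 1)), L t = L (y j) + σ j * (t - y j))
    (hneg : ∀ t ∈ Set.Icc (-H) H, L t ≤ -L (-t)) (x : E 2) (hx : x 0 ≠ 0)
    (hσ : ∀ j < N, x 1 + σ j * x 0 ≠ 0) :
    cosT (Wset H L) x = (2 * Real.pi ^ 2 * x 0)⁻¹ * ∑ j ∈ Finset.range N,
      (Real.cos (2 * Real.pi * (L (y (j + 1)) * x 0 + y (j + 1) * x 1)) -
        Real.cos (2 * Real.pi * (L (y j) * x 0 + y j * x 1))) / (x 1 + σ j * x 0) := by
  have hpi : Real.pi ≠ 0 := Real.pi_ne_zero
  rw [cosT_eq, double_int hH hL hneg (by positivity), ← y0, ← yN,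
    ← intervalIntegral.sum_integral_adjacent_intervals (a := y) (n := N)
      (fun k _ => Continuous.intervalIntegrable (by fun_prop) _ _)]
  rw [Finset.mul_sum, Finset.mul_sum]
  apply Finset.sum_congr rfl
  intro j hj
  rw [Finset.mem_range] at hj
  have h1 := hσ j hj
  have h2 : 2 * Real.pi * x 1 + σ j * (2 * Real.pi * x 0) ≠ 0 := by
    have : 2 * Real.pi * x 1 + σ j * (2 * Real.pi * x 0) =
        2 * Real.pi * (x 1 + σ j * x 0) := by ring
    rw [this]
    positivity
  rw [single_int (ymono j hj).le (lin j hj) h2]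
  have e1 : ∀ a b : ℝ, 2 * Real.pi * x 0 * a + 2 * Real.pi * x 1 * b =
      2 * Real.pi * (a * x 0 + b * x 1) := by
    intro a b
    ring
  rw [e1, e1]
  have h3 : 2 * Real.pi * x 1 + σ j * (2 * Real.pi * x 0) =
        2 * Real.pi * (x 1 + σ j * x 0) := by ring
  rw [h3]
  field_simp

end PlaneAux

open PlaneAux in
theorem cosT_Wset {H : ℝ} (hH : 0 < H) {N : ℕ} {y σ : ℕ → ℝ} {L : ℝ → ℝ}
    (y0 : y 0 = -H) (yN : y N = H) (ymono : ∀ j < N, y j < y (j + 1))
    (lin : ∀ j < N, ∀ t ∈ Set.Icc (y j) (y (j + 1)), L t = L (y j) + σ j * (t - y j))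
    (hneg : ∀ t ∈ Set.Icc (-H) H, L t ≤ -L (-t)) (x : E 2) (hx : x 0 ≠ 0)
    (hσ : ∀ j < N, x 1 + σ j * x 0 ≠ 0) :
    cosT (Wset H L) x = (2 * Real.pi ^ 2 * x 0)⁻¹ * ∑ j ∈ Finset.range N,
      (Real.cos (2 * Real.pi * (L (y (j + 1)) * x 0 + y (j + 1) * x 1)) -
        Real.cos (2 * Real.pi * (L (y j) * x 0 + y j * x 1))) / (x 1 + σ j * x 0) := by
  have hHH : -H ≤ H := by linarith
  -- monotonicity of the nodes
  have hmono : ∀ j, j ≤ N → ∀ i, i ≤ j → y i ≤ y j := by
    intro j
    induction j with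
    | zero =>
      intro _ i hi
      obtain rfl : i = 0 := by omega
      exact le_refl _
    | succ j ih =>
      intro hj i hi
      rcases Nat.lt_or_ge i (j + 1) with h | h
      · exact (ih (by omega) i (by omega)).trans (ymono j (by omega)).le
      · obtain rfl : i = j + 1 := by omega
        exact le_refl _
  have hmem : ∀ j, j ≤ N → y j ∈ Set.Icc (-H) H := by
    intro j hj
    exact ⟨by rw [← y0]; exact hmono j hj 0 (Nat.zero_le _),
      by rw [← yN]; exact hmono N le_rfl j hj⟩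
  -- continuity
  have hcont : ∀ j, j ≤ N → ContinuousOn L (Set.Icc (-H) (y j)) := by
    intro j
    induction j with
    | zero =>
      intro _
      rw [y0, Set.Icc_self]
      exact continuousOn_singleton _ _
    | succ j ih =>
      intro hj
      have h1 : Set.Icc (-H) (y (j + 1)) = Set.Icc (-H) (y j) ∪ Set.Icc (y j) (y (j + 1)) :=
        (Set.Icc_union_Icc_eq_Icc (hmem j (by omega)).1 (ymono j (by omega)).le).symm
      rw [h1]
      refine ContinuousOn.union_of_isClosed (ih (by omega)) ?_ isClosed_Icc isClosed_Icc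
      refine ContinuousOn.congr (f := fun t => L (y j) + σ j * (t - y j)) (by fun_prop) ?_
      intro t ht
      exact lin j (by omega) t ht
  have hLc : ContinuousOn L (Set.Icc (-H) H) := by
    have := hcont N le_rfl
    rwa [yN] at this
  set L' : ℝ → ℝ := Set.IccExtend hHH (Set.domRestrict (Set.Icc (-H) H) L) with hL'
  have hL'c : Continuous L' := (continuousOn_iff_continuous_domRestrict.1 hLc).Icc_extend'
  have hLL' : ∀ t ∈ Set.Icc (-H) H, L' t = L t := by
    intro t ht
    rw [hL', Set.IccExtend_of_mem hHH _ ht]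
    rfl
  have hW : Wset H L = Wset H L' := by
    ext p
    unfold Wset
    constructor
    · rintro ⟨h1, h2, h3⟩
      have h4 := abs_le.1 h1
      refine ⟨h1, ?_, ?_⟩
      · rw [hLL' _ h4]
        exact h2
      · rw [hLL' _ ⟨by linarith [h4.2], by linarith [h4.1]⟩]
        exact h3
    · rintro ⟨h1, h2, h3⟩
      have h4 := abs_le.1 h1
      refine ⟨h1, ?_, ?_⟩
      · rw [hLL' _ h4] at h2
        exact h2
      · rw [hLL' _ ⟨by linarith [h4.2], by linarith [h4.1]⟩] at h3
        exact h3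
  rw [hW, main hH hL'c y0 yN ymono (σ := σ) ?_ ?_ x hx hσ]
  · congr 1
    apply Finset.sum_congr rfl
    intro j hj
    rw [Finset.mem_range] at hj
    rw [hLL' _ (hmem j hj.le), hLL' _ (hmem (j + 1) hj)]
  · intro j hj t ht
    rw [hLL' t ⟨(hmem j hj.le).1.trans ht.1, ht.2.trans (hmem (j + 1) hj).2⟩,
      hLL' _ (hmem j hj.le)]
    exact lin j hj t ht
  · intro t ht
    rw [hLL' t ht, hLL' (-t) ⟨by linarith [ht.2], by linarith [ht.1]⟩]
    exact hneg t ht

end Pool.Agent.MPbd65ca
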