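import Pool.Agent.Lib.MP_bd65ca_an.Defs

/-!
# Elementary properties of the polygons
-/

open MeasureTheory Pointwise Filter Topology Set

namespace Pool.Agent.MPbd65ca

variable {H : ℝ} {N : ℕ} {y σ : ℕ → ℝ} {L : ℝ → ℝ}

namespace Poly

theorem y_mono (h : Poly H N y σ L) {i j : ℕ} (hij : i ≤ j) (hj : j ≤ N) : y i ≤ y j := by
  induction j, hij using Nat.le_induction with
  | base => exact le_rfl
  | succ j hij ih => exact (ih (by omega)).trans (h.ymono j (by omega)).le

theorem y_strict (h : Poly H N y σ L) {i j : ℕ} (hij : i < j) (hj : j ≤ N) : y i < y j :=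
  (h.ymono i (by omega)).trans_le (h.y_mono hij hj)

theorem y_mem (h : Poly H N y σ L) {i : ℕ} (hi : i ≤ N) : y i ∈ Icc (-H) H := by
  constructor
  · rw [← h.y0]; exact h.y_mono (Nat.zero_le _) hi
  · rw [← h.yN]; exact h.y_mono hi le_rfl

theorem y_mem' (h : Poly H N y σ L) {i : ℕ} (hi : 0 < i) (hi' : i < N) : y i ∈ Ioo (-H) H := by
  constructor
  · rw [← h.y0]; exact h.y_strict hi hi'.le
  · rw [← h.yN]; exact h.y_strict hi' le_rfl

/-- The function is strictly below the chord if there is a node between. -/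
theorem lt_chord (h : Poly H N y σ L) {a b : ℝ} (ha : a ∈ Icc (-H) H) (hb : b ∈ Icc (-H) H)
    {i : ℕ} (hi : 0 < i) (hi' : i < N) (hai : a < y i) (hib : y i < b) {t : ℝ} (hat : a < t)
    (htb : t < b) : (b - a) * L t < (b - t) * L a + (t - a) * L b := by
  have hmi := h.y_mem hi'.le
  -- left slope
  have h1 : (L (y i) - L a) ≤ σ (i - 1) * (y i - a) := by
    have hy1 : y (i - 1) < y i := h.y_strict (by omega) hi'.le
    have hl := h.lin (i - 1) (by omega)
    rw [Nat.sub_add_cancel hi] at hl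
    have hli := hl (y i) ⟨hy1.le, le_rfl⟩
    rcases le_or_gt (y (i - 1)) a with hc | hc
    · have := hl a ⟨hc, hai.le⟩
      rw [hli, this]; ring_nf; rfl
    · have hs := h.conv.slope_mono_adjacent ha hmi hc hy1
      rw [hli] at hs ⊢
      have e : (L (y (i - 1)) + σ (i - 1) * (y i - y (i - 1)) - L (y (i - 1))) /
          (y i - y (i - 1)) = σ (i - 1) := by
        field_simp [sub_ne_zero.2 hy1.ne']
        ring
      rw [e, div_le_iff₀ (by linarith)] at hs
      linarith
  have h2 : σ i * (b - y i) ≤ L b - L (y i) := by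
    have hy1 : y i < y (i + 1) := h.ymono i hi'
    have hl := h.lin i hi'
    rcases le_or_gt b (y (i + 1)) with hc | hc
    · have := hl b ⟨hib.le, hc⟩
      rw [this]; ring_nf; rfl
    · have hs := h.conv.slope_mono_adjacent hmi hb hy1 hc
      have hli := hl (y (i + 1)) ⟨hy1.le, le_rfl⟩
      rw [hli] at hs
      have e : (L (y i) + σ i * (y (i + 1) - y i) - L (y i)) /
          (y (i + 1) - y i) = σ i := by
        field_simp [sub_ne_zero.2 hy1.ne']
        ring
      rw [e, le_div_iff₀ (by linarith)] at hs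
      linarith
  have h3 : σ (i - 1) < σ i := by
    have := h.σmono (i - 1) (by omega)
    rwa [Nat.sub_add_cancel hi] at this
  -- strict at the node
  have h4 : (b - a) * L (y i) < (b - y i) * L a + (y i - a) * L b := by
    have p1 : 0 < y i - a := by linarith
    have p2 : 0 < b - y i := by linarith
    have q1 := mul_le_mul_of_nonneg_left h1 p2.le
    have q2 := mul_le_mul_of_nonneg_left h2 p1.le
    have q3 := mul_lt_mul_of_pos_left h3 (mul_pos p1 p2)
    nlinarith
  -- general point
  rcases lt_trichotomy t (y i) with hc | hc | hc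
  · have hs := h.conv.slope_mono_adjacent ha hmi hat hc
    rw [div_le_div_iff₀ (by linarith) (by linarith)] at hs
    -- (y i - a) L t ≤ (y i - t) L a + (t - a) L (y i)
    have hs' : (y i - a) * L t ≤ (y i - t) * L a + (t - a) * L (y i) := by nlinarith
    have p1 : 0 < y i - a := by linarith
    have p2 : 0 < t - a := by linarith
    have p3 : 0 < b - a := by linarith
    have q1 := mul_le_mul_of_nonneg_left hs' p3.le
    have q2 := mul_lt_mul_of_pos_left h4 p2
    have : (y i - a) * ((b - a) * L t) < (y i - a) * ((b - t) * L a + (t - a) * L b) := by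
      nlinarith
    exact lt_of_mul_lt_mul_left this p1.le
  · rw [hc]; exact h4
  · have hs := h.conv.slope_mono_adjacent hmi hb hc htb
    rw [div_le_div_iff₀ (by linarith) (by linarith)] at hs
    have hs' : (b - y i) * L t ≤ (b - t) * L (y i) + (t - y i) * L b := by nlinarith
    have p1 : 0 < b - y i := by linarith
    have p2 : 0 < b - t := by linarith
    have p3 : 0 < b - a := by linarith
    have q1 := mul_le_mul_of_nonneg_left hs' p3.le
    have q2 := mul_lt_mul_of_pos_left h4 p2
    have : (b - y i) * ((b - a) * L t) < (b - y i) * ((b - t) * L a + (t - a) * L b) := by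
      nlinarith
    exact lt_of_mul_lt_mul_left this p1.le

theorem mid_lt (h : Poly H N y σ L) {a b : ℝ} (ha : a ∈ Icc (-H) H) (hb : b ∈ Icc (-H) H)
    {i : ℕ} (hi : 0 < i) (hi' : i < N) (hai : a < y i) (hib : y i < b) :
    L ((a + b) / 2) < (L a + L b) / 2 := by
  have := h.lt_chord ha hb hi hi' hai hib (t := (a + b) / 2) (by linarith) (by linarith)
  have hab : 0 < b - a := by linarith
  have e : (b - (a + b) / 2) * L a + ((a + b) / 2 - a) * L b = (b - a) * ((L a + L b) / 2) := by
    ring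
  rw [e] at this
  exact lt_of_mul_lt_mul_left this hab.le

theorem neg_of_mem (h : Poly H N y σ L) {t : ℝ} (ht : t ∈ Ioo (-H) H) : L t < 0 := by
  have hH := h.hH
  have h1 := h.y_mem' (i := 1) one_pos (by have := h.hN; omega)
  have := h.lt_chord (a := -H) (b := H) ⟨le_rfl, by linarith⟩ ⟨by linarith, le_rfl⟩ one_pos
    (by have := h.hN; omega) h1.1 h1.2 ht.1 ht.2
  rw [h.L0, h.LN] at this
  have h2 : (H - -H) * L t < (H - -H) * 0 := by linarith
  exact lt_of_mul_lt_mul_left h2 (by linarith)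

theorem nonpos_of_mem (h : Poly H N y σ L) {t : ℝ} (ht : t ∈ Icc (-H) H) : L t ≤ 0 := by
  rcases eq_or_lt_of_le ht.1 with h1 | h1
  · rw [← h1, h.L0]
  rcases eq_or_lt_of_le ht.2 with h2 | h2
  · rw [h2, h.LN]
  exact (h.neg_of_mem ⟨h1, h2⟩).le

theorem mid_le (h : Poly H N y σ L) {a b : ℝ} (ha : a ∈ Icc (-H) H) (hb : b ∈ Icc (-H) H) :
    L ((a + b) / 2) ≤ (L a + L b) / 2 := by
  have := h.conv.2 ha hb (by norm_num : (0 : ℝ) ≤ 1 / 2) (by norm_num : (0 : ℝ) ≤ 1 / 2)
    (by norm_num)
  simp only [smul_eq_mul] at this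
  have e : 1 / 2 * a + 1 / 2 * b = (a + b) / 2 := by ring
  rw [e] at this
  linarith

theorem continuousOn (h : Poly H N y σ L) : ContinuousOn L (Ioo (-H) H) := by
  have := h.conv.continuousOn_interior
  rwa [interior_Icc] at this

theorem mem_interior (h : Poly H N y σ L) {p : E 2} (h1 : |p 1| < H) (h2 : L (p 1) < p 0)
    (h3 : p 0 < -L (-p 1)) : p ∈ interior (Wset H L) := by
  have hc1 : Continuous fun p : E 2 => p 1 := by fun_prop
  have hc0 : Continuous fun p : E 2 => p 0 := by fun_prop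
  have hm1 : p 1 ∈ Ioo (-H) H := abs_lt.1 h1
  have hm2 : -p 1 ∈ Ioo (-H) H := by constructor <;> linarith [hm1.1, hm1.2]
  have hL1 : ContinuousAt L (p 1) := h.continuousOn.continuousAt (Ioo_mem_nhds hm1.1 hm1.2)
  have hL2 : ContinuousAt L (-p 1) := h.continuousOn.continuousAt (Ioo_mem_nhds hm2.1 hm2.2)
  have e1 : ∀ᶠ q : E 2 in 𝓝 p, |q 1| < H :=
    (hc1.abs.continuousAt (x := p)).eventually_lt continuousAt_const h1
  have e2 : ∀ᶠ q : E 2 in 𝓝 p, L (q 1) < q 0 :=
    ContinuousAt.eventually_lt (ContinuousAt.comp (f := fun p : E 2 => p 1) hL1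
      hc1.continuousAt) hc0.continuousAt h2
  have e3 : ∀ᶠ q : E 2 in 𝓝 p, q 0 < -L (-q 1) :=
    ContinuousAt.eventually_lt hc0.continuousAt
      (ContinuousAt.comp (f := fun p : E 2 => -p 1) hL2 hc1.neg.continuousAt).neg h3
  rw [mem_interior_iff_mem_nhds]
  filter_upwards [e1, e2, e3] with q a1 a2 a3
  exact ⟨a1.le, a2.le, a3.le⟩

theorem continuousOn_Icc (h : Poly H N y σ L) : ContinuousOn L (Icc (-H) H) := by
  have hcont : ∀ j, j ≤ N → ContinuousOn L (Icc (-H) (y j)) := by
    intro j
    induction j with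
    | zero =>
      intro _
      rw [h.y0, Icc_self]
      exact continuousOn_singleton _ _
    | succ j ih =>
      intro hj
      have h1 : Icc (-H) (y (j + 1)) = Icc (-H) (y j) ∪ Icc (y j) (y (j + 1)) :=
        (Icc_union_Icc_eq_Icc (h.y_mem (by omega)).1 (h.ymono j (by omega)).le).symm
      rw [h1]
      refine ContinuousOn.union_of_isClosed (ih (by omega)) ?_ isClosed_Icc isClosed_Icc
      refine ContinuousOn.congr (f := fun t => L (y j) + σ j * (t - y j)) (by fun_prop) ?_
      intro t ht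
      exact h.lin j (by omega) t ht
  have := hcont N le_rfl
  rwa [h.yN] at this

theorem isBody (h : Poly H N y σ L) {lam : ℝ} (hl : 0 ≤ lam) :
    IsBody (Wset H (fun t => L t - lam)) := by
  have hHH : -H ≤ H := by linarith [h.hH]
  have hc0 : Continuous fun p : E 2 => p 0 := by fun_prop
  have hc1 : Continuous fun p : E 2 => p 1 := by fun_prop
  refine ⟨?_, ?_, ?_, ?_⟩
  · -- compactness
    set L' : ℝ → ℝ := IccExtend hHH ((Icc (-H) H).domRestrict L) with hL'
    have hL'c : Continuous L' :=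
      (continuousOn_iff_continuous_domRestrict.1 h.continuousOn_Icc).Icc_extend'
    have hLL' : ∀ t ∈ Icc (-H) H, L' t = L t := by
      intro t ht
      rw [hL', IccExtend_of_mem hHH _ ht]
      rfl
    have hW : Wset H (fun t => L t - lam) = {p : E 2 | |p 1| ≤ H} ∩
        ({p : E 2 | L' (p 1) - lam ≤ p 0} ∩ {p : E 2 | p 0 ≤ -(L' (-p 1) - lam)}) := by
      ext p
      unfold Wset
      simp only [mem_setOf_eq, mem_inter_iff]
      constructor
      · rintro ⟨h1, h2, h3⟩
        have h4 := abs_le.1 h1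
        rw [hLL' _ h4, hLL' _ ⟨by linarith [h4.2], by linarith [h4.1]⟩]
        exact ⟨h1, h2, h3⟩
      · rintro ⟨h1, h2, h3⟩
        have h4 := abs_le.1 h1
        rw [hLL' _ h4] at h2
        rw [hLL' _ ⟨by linarith [h4.2], by linarith [h4.1]⟩] at h3
        exact ⟨h1, h2, h3⟩
    have hcl : IsClosed (Wset H (fun t => L t - lam)) := by
      rw [hW]
      refine (isClosed_le hc1.abs continuous_const).inter
        ((isClosed_le ((hL'c.comp hc1).sub continuous_const) hc0).inter
        (isClosed_le hc0 ((hL'c.comp hc1.neg).sub continuous_const).neg))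
    obtain ⟨C, hC⟩ := (isCompact_Icc (a := -H) (b := H)).exists_bound_of_continuousOn
      (f := L) h.continuousOn_Icc
    refine Metric.isCompact_of_isClosed_isBounded hcl ?_
    rw [isBounded_iff_forall_norm_le]
    refine ⟨(C + lam) + H, ?_⟩
    rintro p ⟨h1, h2, h3⟩
    have h4 := abs_le.1 h1
    have h5 := hC _ h4
    have h6 := hC (-p 1) ⟨by linarith [h4.2], by linarith [h4.1]⟩
    rw [Real.norm_eq_abs] at h5 h6
    have h7 := abs_le.1 h5
    have h8 := abs_le.1 h6
    have h9 : |p 0| ≤ C + lam := by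
      rw [abs_le]
      constructor <;> linarith
    rw [EuclideanSpace.norm_eq, Fin.sum_univ_two, Real.norm_eq_abs, Real.norm_eq_abs]
    refine Real.sqrt_le_iff.2 ⟨?_, ?_⟩
    · linarith [abs_nonneg (p 0), abs_nonneg (p 1)]
    · nlinarith [abs_nonneg (p 0), abs_nonneg (p 1), h.hH]
  · -- convexity
    rintro p ⟨h1, h2, h3⟩ q ⟨g1, g2, g3⟩ a b ha hb hab
    have h4 := abs_le.1 h1
    have g4 := abs_le.1 g1
    have k1 := h.conv.2 h4 g4 ha hb hab
    have k2 := h.conv.2 (x := -p 1) (y := -q 1) ⟨by linarith [h4.2], by linarith [h4.1]⟩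
      ⟨by linarith [g4.2], by linarith [g4.1]⟩ ha hb hab
    simp only [smul_eq_mul] at k1 k2
    have e1 : (a • p + b • q) 1 = a * p 1 + b * q 1 := by simp
    have e0 : (a • p + b • q) 0 = a * p 0 + b * q 0 := by simp
    have e2 : -(a * p 1 + b * q 1) = a * -p 1 + b * -q 1 := by ring
    refine ⟨?_, ?_, ?_⟩
    · rw [e1, abs_le]
      constructor <;> nlinarith
    · rw [e1, e0]
      have m1 := mul_le_mul_of_nonneg_left h2 ha
      have m2 := mul_le_mul_of_nonneg_left g2 hb
      simp only at m1 m2 ⊢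
      have m3 : lam = a * lam + b * lam := by rw [← add_mul, hab, one_mul]
      linarith
    · rw [e1, e0, e2]
      have m1 := mul_le_mul_of_nonneg_left h3 ha
      have m2 := mul_le_mul_of_nonneg_left g3 hb
      simp only at m1 m2 ⊢
      have m3 : lam = a * lam + b * lam := by rw [← add_mul, hab, one_mul]
      linarith
  · -- interior
    have h0 : L 0 < 0 := h.neg_of_mem ⟨by linarith [h.hH], h.hH⟩
    refine ⟨0, interior_mono (fun p hp => ?_) (h.mem_interior (p := 0) ?_ ?_ ?_)⟩
    · obtain ⟨h1, h2, h3⟩ := hp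
      refine ⟨h1, ?_, ?_⟩
      · simp only; linarith
      · simp only; linarith
    · simpa using h.hH
    · simpa using h0
    · simpa using h0
  · rintro p ⟨h1, h2, h3⟩
    refine ⟨?_, ?_, ?_⟩
    · simpa using h1
    · simp only [PiLp.neg_apply] at h3 ⊢
      linarith
    · simp only [PiLp.neg_apply, neg_neg] at h2 ⊢
      linarith

/-- The midpoints which are needed lie in the interior. -/
theorem mid_mem (h : Poly H N y σ L) {a b : ℝ} (ha : a ∈ Icc (-H) H) (hb : b ∈ Icc (-H) H)
    {i : ℕ} (hi : 0 < i) (hi' : i < N) (hai : a < y i) (hib : y i < b) {p : E 2}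
    (h0 : p 0 = (L a + L b) / 2) (h1 : p 1 = (a + b) / 2) : p ∈ interior (Wset H L) := by
  have hH := h.hH
  have m1 : (a + b) / 2 ∈ Ioo (-H) H := ⟨by linarith [ha.1], by linarith [hb.2]⟩
  have m2 : -((a + b) / 2) ∈ Ioo (-H) H := ⟨by linarith [m1.2], by linarith [m1.1]⟩
  refine h.mem_interior ?_ ?_ ?_
  · rw [h1, abs_lt]; exact m1
  · rw [h1, h0]; exact h.mid_lt ha hb hi hi' hai hib
  · rw [h1, h0]
    have := h.neg_of_mem m2
    have k1 := h.nonpos_of_mem ha
    have k2 := h.nonpos_of_mem hb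
    linarith

theorem diff_mem (h : Poly H N y σ L) {a b : ℝ} (ha : a ∈ Ioo (-H) H) (hb : b ∈ Ioo (-H) H)
    {p : E 2} (h0 : p 0 = (L a - L b) / 2) (h1 : p 1 = (a - b) / 2) :
    p ∈ interior (Wset H L) := by
  have hnb : -b ∈ Ioo (-H) H := ⟨by linarith [hb.2], by linarith [hb.1]⟩
  have hna : -a ∈ Ioo (-H) H := ⟨by linarith [ha.2], by linarith [ha.1]⟩
  have i1 := h.neg_of_mem ha
  have i2 := h.neg_of_mem hb
  have i3 := h.neg_of_mem hna
  have i4 := h.neg_of_mem hnb
  refine h.mem_interior ?_ ?_ ?_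
  · rw [h1, abs_lt]; constructor <;> linarith [ha.1, ha.2, hb.1, hb.2]
  · rw [h1, h0]
    have := h.mid_le (Ioo_subset_Icc_self ha) (Ioo_subset_Icc_self hnb)
    have e : (a - b) / 2 = (a + -b) / 2 := by ring
    rw [e]
    linarith
  · rw [h1, h0]
    have := h.mid_le (Ioo_subset_Icc_self hna) (Ioo_subset_Icc_self hb)
    have e : -((a - b) / 2) = (-a + b) / 2 := by ring
    rw [e]
    linarith

end Poly

end Pool.Agent.MPbd65ca
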