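import Pool.Agent.Lib.MP_bd65ca_an.PolyBasic
import Pool.Agent.Lib.MP_bd65ca_an.Ineq

/-!
# The frequencies
-/

open MeasureTheory Pointwise Filter Topology Set
open scoped RealInnerProductSpace

namespace Pool.Agent.MPbd65ca

variable {H : ℝ} {N : ℕ} {y σ : ℕ → ℝ} {L : ℝ → ℝ}

/-- The vertices. -/
noncomputable def vtx (L : ℝ → ℝ) (y : ℕ → ℝ) (j : ℕ) : E 2 := !₂[L (y j), y j]

/-- The frequencies of the trigonometric polynomial for `lam = 0`. -/
noncomputable def fr (H : ℝ) (L : ℝ → ℝ) (y : ℕ → ℝ) (n κ : ℕ) (q : ℕ → Prop)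
    [DecidablePred q] : ℕ ⊕ (ℕ ⊕ Fin 4) → E 2
  | .inl i => vtx L y (κ + 1) - vtx L y (i + 1)
  | .inr (.inl i) => if q i then vtx L y (κ + 1) + vtx L y (i + 1) - (2 : ℝ) • !₂[0, H]
      else vtx L y (κ + 1) + vtx L y (i + 1)
  | .inr (.inr 0) => vtx L y (κ + 1) + vtx L y 0
  | .inr (.inr 1) => vtx L y (κ + 1) - vtx L y 0
  | .inr (.inr 2) => vtx L y (κ + 1) + vtx L y (n + 1)
  | .inr (.inr 3) => vtx L y (κ + 1) - vtx L y (n + 1)

/-- The frequencies which are shifted. -/
def sh : ℕ ⊕ (ℕ ⊕ Fin 4) → ℝ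
  | .inl _ => 0
  | .inr (.inl _) => 1
  | .inr (.inr 0) => 1
  | .inr (.inr 1) => 0
  | .inr (.inr 2) => 1
  | .inr (.inr 3) => 0

/-- The coefficients. -/
noncomputable def co (G0 : ℕ → ℝ) (n : ℕ) : ℕ ⊕ (ℕ ⊕ Fin 4) → ℝ
  | .inl i => -(G0 i - G0 (i + 1))
  | .inr (.inl i) => -(G0 i - G0 (i + 1))
  | .inr (.inr 0) => G0 0
  | .inr (.inr 1) => G0 0
  | .inr (.inr 2) => -G0 n
  | .inr (.inr 3) => -G0 n

/-- The index set. -/
def ix (n κ : ℕ) : Finset (ℕ ⊕ (ℕ ⊕ Fin 4)) :=
  ((Finset.range n).erase κ).disjSum ((Finset.range n).disjSum Finset.univ)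

theorem inner_mk (x : E 2) (a b : ℝ) : ⟪x, !₂[a, b]⟫ = a * x 0 + b * x 1 := by
  rw [PiLp.inner_apply, Fin.sum_univ_two]
  simp

theorem sum_eq_hfun {n κ : ℕ} (G0 : ℕ → ℝ) (q : ℕ → Prop) [DecidablePred q] (H lam : ℝ)
    (L : ℝ → ℝ) (y : ℕ → ℝ) (x : E 2) :
    ∑ i ∈ ix n κ, co G0 n i * Real.cos (2 * Real.pi *
      ⟪x, fr H L y n κ q i - (2 * lam * sh i) • !₂[1, 0]⟫) - (G0 κ - G0 (κ + 1)) / 4 =
    hfun n κ G0 (fun j => 2 * Real.pi * ((L (y j) - lam) * x 0 + y j * x 1)) q
      (2 * Real.pi * (H * x 1)) := by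
  unfold ix hfun
  rw [Finset.sum_disjSum, Finset.sum_disjSum, Fin.sum_univ_four]
  have hA : ∑ i ∈ (Finset.range n).erase κ, co G0 n (Sum.inl i) * Real.cos (2 * Real.pi *
      ⟪x, fr H L y n κ q (Sum.inl i) - (2 * lam * sh (Sum.inl i)) • !₂[1, 0]⟫) =
      - ∑ i ∈ (Finset.range n).erase κ, (G0 i - G0 (i + 1)) *
        Real.cos (2 * Real.pi * ((L (y (κ + 1)) - lam) * x 0 + y (κ + 1) * x 1) -
          2 * Real.pi * ((L (y (i + 1)) - lam) * x 0 + y (i + 1) * x 1)) := by
    rw [← Finset.sum_neg_distrib]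
    refine Finset.sum_congr rfl fun i _ => ?_
    simp only [co, fr, sh, vtx, inner_sub_right, inner_smul_right, inner_mk]
    ring_nf
  have hB : ∑ i ∈ Finset.range n, co G0 n (Sum.inr (Sum.inl i)) * Real.cos (2 * Real.pi *
      ⟪x, fr H L y n κ q (Sum.inr (Sum.inl i)) -
        (2 * lam * sh (Sum.inr (Sum.inl i))) • !₂[1, 0]⟫) =
      - ∑ i ∈ Finset.range n, (G0 i - G0 (i + 1)) *
        (if q i then Real.cos (2 * Real.pi * ((L (y (κ + 1)) - lam) * x 0 + y (κ + 1) * x 1) +
          2 * Real.pi * ((L (y (i + 1)) - lam) * x 0 + y (i + 1) * x 1) -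
            2 * (2 * Real.pi * (H * x 1)))
        else Real.cos (2 * Real.pi * ((L (y (κ + 1)) - lam) * x 0 + y (κ + 1) * x 1) +
          2 * Real.pi * ((L (y (i + 1)) - lam) * x 0 + y (i + 1) * x 1))) := by
    rw [← Finset.sum_neg_distrib]
    refine Finset.sum_congr rfl fun i _ => ?_
    by_cases hq : q i
    · simp only [co, fr, sh, vtx, if_pos hq, inner_sub_right, inner_add_right, inner_smul_right,
        inner_mk]
      ring_nf
    · simp only [co, fr, sh, vtx, if_neg hq, inner_sub_right, inner_add_right, inner_smul_right,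
        inner_mk]
      ring_nf
  rw [hA, hB]
  have hcos : ∀ a b : ℝ, Real.cos (a + b) + Real.cos (a - b) = 2 * Real.cos a * Real.cos b := by
    intro a b
    rw [Real.cos_add, Real.cos_sub]; ring
  have e0 := hcos (2 * Real.pi * ((L (y (κ + 1)) - lam) * x 0 + y (κ + 1) * x 1))
    (2 * Real.pi * ((L (y 0) - lam) * x 0 + y 0 * x 1))
  have e1 := hcos (2 * Real.pi * ((L (y (κ + 1)) - lam) * x 0 + y (κ + 1) * x 1))
    (2 * Real.pi * ((L (y (n + 1)) - lam) * x 0 + y (n + 1) * x 1))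
  have f0 : 2 * Real.pi * ⟪x, fr H L y n κ q (Sum.inr (Sum.inr 0)) -
      (2 * lam * sh (Sum.inr (Sum.inr 0))) • !₂[1, 0]⟫ =
      2 * Real.pi * ((L (y (κ + 1)) - lam) * x 0 + y (κ + 1) * x 1) +
      2 * Real.pi * ((L (y 0) - lam) * x 0 + y 0 * x 1) := by
    simp only [fr, sh, vtx, inner_sub_right, inner_add_right, inner_smul_right, inner_mk]
    ring
  have f1 : 2 * Real.pi * ⟪x, fr H L y n κ q (Sum.inr (Sum.inr 1)) -
      (2 * lam * sh (Sum.inr (Sum.inr 1))) • !₂[1, 0]⟫ =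
      2 * Real.pi * ((L (y (κ + 1)) - lam) * x 0 + y (κ + 1) * x 1) -
      2 * Real.pi * ((L (y 0) - lam) * x 0 + y 0 * x 1) := by
    simp only [fr, sh, vtx, inner_sub_right, inner_smul_right, inner_mk]
    ring
  have f2 : 2 * Real.pi * ⟪x, fr H L y n κ q (Sum.inr (Sum.inr 2)) -
      (2 * lam * sh (Sum.inr (Sum.inr 2))) • !₂[1, 0]⟫ =
      2 * Real.pi * ((L (y (κ + 1)) - lam) * x 0 + y (κ + 1) * x 1) +
      2 * Real.pi * ((L (y (n + 1)) - lam) * x 0 + y (n + 1) * x 1) := by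
    simp only [fr, sh, vtx, inner_sub_right, inner_add_right, inner_smul_right, inner_mk]
    ring
  have f3 : 2 * Real.pi * ⟪x, fr H L y n κ q (Sum.inr (Sum.inr 3)) -
      (2 * lam * sh (Sum.inr (Sum.inr 3))) • !₂[1, 0]⟫ =
      2 * Real.pi * ((L (y (κ + 1)) - lam) * x 0 + y (κ + 1) * x 1) -
      2 * Real.pi * ((L (y (n + 1)) - lam) * x 0 + y (n + 1) * x 1) := by
    simp only [fr, sh, vtx, inner_sub_right, inner_smul_right, inner_mk]
    ring
  rw [f0, f1, f2, f3]
  simp only [co]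
  linear_combination (G0 0) * e0 - (G0 n) * e1

theorem Poly.fr_mem (h : Poly H N y σ L) {n κ : ℕ} (hn : N = n + 1) (hκ : κ + 2 = n)
    {i : ℕ ⊕ (ℕ ⊕ Fin 4)} (hi : i ∈ ix n κ) :
    (1 / 2 : ℝ) • fr H L y n κ (fun i => n ≤ i + 3) i ∈ interior (Wset H L) ∧
      fr H L y n κ (fun i => n ≤ i + 3) i ≠ 0 := by
  have hN := h.hN
  have hH := h.hH
  have hk : y (κ + 1) ∈ Ioo (-H) H := h.y_mem' (by omega) (by omega)
  have hkc := Ioo_subset_Icc_self hk
  have hLk := h.neg_of_mem hk
  have hH1 : -H ∈ Icc (-H) H := ⟨le_rfl, by linarith⟩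
  have hH2 : H ∈ Icc (-H) H := ⟨by linarith, le_rfl⟩
  have ne0 : ∀ {p : E 2}, p 0 ≠ 0 → p ≠ 0 := by
    rintro p hp rfl
    exact hp rfl
  have ne1 : ∀ {p : E 2}, p 1 ≠ 0 → p ≠ 0 := by
    rintro p hp rfl
    exact hp rfl
  have hyN : y (n + 1) = H := by rw [← hn, h.yN]
  have hy0 := h.y0
  have hL0 := h.L0
  have hLN := h.LN
  -- the two midpoints with the apexes
  have hup : ∀ p : E 2, p 0 = L (y (κ + 1)) / 2 → p 1 = (y (κ + 1) + H) / 2 →
      p ∈ interior (Wset H L) := by
    intro p h0 h1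
    refine h.mid_mem (a := y (κ + 1)) (b := H) hkc hH2 (i := κ + 2) (by omega) (by omega)
      (h.y_strict (by omega) (by omega)) (h.y_mem' (by omega) (by omega)).2 ?_ h1
    rw [h0, hLN, add_zero]
  have hdn : ∀ p : E 2, p 0 = L (y (κ + 1)) / 2 → p 1 = (y (κ + 1) - H) / 2 →
      p ∈ interior (Wset H L) := by
    intro p h0 h1
    refine h.mid_mem (a := -H) (b := y (κ + 1)) hH1 hkc (i := 1) (by omega) (by omega)
      (h.y_mem' (by omega) (by omega)).1 (h.y_strict (by omega) (by omega)) ?_ ?_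
    · rw [h0, hL0, zero_add]
    · rw [h1]; ring
  unfold ix at hi
  rcases i with i | i | i
  · rw [Finset.inl_mem_disjSum, Finset.mem_erase, Finset.mem_range] at hi
    obtain ⟨hiκ, hin⟩ := hi
    have hyi : y (i + 1) ∈ Ioo (-H) H := h.y_mem' (by omega) (by omega)
    have hne : y (κ + 1) ≠ y (i + 1) := by
      rcases lt_or_gt_of_ne hiκ with hc | hc
      · exact (h.y_strict (i := i + 1) (j := κ + 1) (by omega) (by omega)).ne'
      · exact (h.y_strict (i := κ + 1) (j := i + 1) (by omega) (by omega)).ne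
    constructor
    · refine h.diff_mem hk hyi ?_ ?_
      · simp [fr, vtx]; ring
      · simp [fr, vtx]; ring
    · apply ne1
      simp only [fr, vtx]
      simpa [sub_eq_zero] using hne
  · rw [Finset.inr_mem_disjSum, Finset.inl_mem_disjSum, Finset.mem_range] at hi
    have hyi : y (i + 1) ∈ Ioo (-H) H := h.y_mem' (by omega) (by omega)
    have hLi := h.neg_of_mem hyi
    by_cases hq : n ≤ i + 3
    · constructor
      · refine h.shift (i + 1) (by omega) (by omega) _ ?_ ?_
        · have e : N - 2 = κ + 1 := by omega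
          rw [e]
          simp [fr, vtx, hq]; ring
        · have e : N - 2 = κ + 1 := by omega
          rw [e]
          simp [fr, vtx, hq]; ring
      · apply ne1
        simp only [fr, vtx, if_pos hq]
        have h1 := hk.2
        have h2 := hyi.2
        intro h3
        simp at h3
        linarith
    · constructor
      · refine h.mid_mem (a := y (i + 1)) (b := y (κ + 1)) (Ioo_subset_Icc_self hyi) hkc
          (i := i + 2) (by omega) (by omega) (h.y_strict (by omega) (by omega))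
          (h.y_strict (by omega) (by omega)) ?_ ?_
        · simp [fr, vtx, hq]; ring
        · simp [fr, vtx, hq]; ring
      · apply ne0
        simp only [fr, vtx, if_neg hq]
        intro h3
        simp at h3
        linarith
  · clear hi
    fin_cases i
    · constructor
      · apply hdn
        · simp [fr, vtx, hy0, hL0]; ring
        · simp [fr, vtx, hy0, hL0]; ring
      · apply ne0
        intro h3
        simp [fr, vtx, hy0, hL0] at h3
        linarith
    · constructor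
      · apply hup
        · simp [fr, vtx, hy0, hL0]; ring
        · simp [fr, vtx, hy0, hL0]; ring
      · apply ne0
        intro h3
        simp [fr, vtx, hy0, hL0] at h3
        linarith
    · constructor
      · apply hup
        · simp [fr, vtx, hyN, hLN]; ring
        · simp [fr, vtx, hyN, hLN]; ring
      · apply ne0
        intro h3
        simp [fr, vtx, hyN, hLN] at h3
        linarith
    · constructor
      · apply hdn
        · simp [fr, vtx, hyN, hLN]; ring
        · simp [fr, vtx, hyN, hLN]; ring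
      · apply ne0
        intro h3
        simp [fr, vtx, hyN, hLN] at h3
        linarith

end Pool.Agent.MPbd65ca
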