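import Pool.Agent.Lib.MP_bd65ca_an.Defs

/-!
# Choice of the direction, and comparison of the coefficients
-/

open Finset Real

namespace Pool.Agent.MPbd65ca

theorem exists_tau {n κ : ℕ} (hκ : κ < n) (σ : ℕ → ℝ) (hσ : ∀ i < n, σ i < σ (i + 1)) :
    ∃ τ : ℝ, 0 < τ ∧ τ ≤ 1 ∧ (∀ j ≤ n, |σ j| * τ ≤ 1 / 8) ∧
      (∀ i < n, (1 + σ (i + 1) * τ)⁻¹ ≤ (1 + σ i * τ)⁻¹) ∧ 0 ≤ (1 + σ n * τ)⁻¹ ∧
      16 * ((1 + σ 0 * τ)⁻¹ - (1 + σ n * τ)⁻¹) ^ 2 ≤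
        (1 + σ κ * τ)⁻¹ - (1 + σ (κ + 1) * τ)⁻¹ ∧
      (1 + σ 0 * τ)⁻¹ - (1 + σ n * τ)⁻¹ ≤ 1 / 2 ∧
      0 < (1 + σ κ * τ)⁻¹ - (1 + σ (κ + 1) * τ)⁻¹ := by
  set S : ℝ := 1 + ∑ j ∈ range (n + 1), |σ j| with hS
  have hS1 : 1 ≤ S := by
    have : 0 ≤ ∑ j ∈ range (n + 1), |σ j| := Finset.sum_nonneg fun _ _ => abs_nonneg _
    linarith
  have hSj : ∀ j ≤ n, |σ j| ≤ S := by
    intro j hj
    have := Finset.single_le_sum (f := fun j => |σ j|) (fun i _ => abs_nonneg (σ i))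
      (mem_range.2 (Nat.lt_succ_of_le hj))
    linarith
  set δ : ℝ := σ (κ + 1) - σ κ with hδ
  have hδ0 : 0 < δ := sub_pos.2 (hσ κ hκ)
  have hδS : δ ≤ 2 * S := by
    have h1 := abs_le.1 (hSj κ hκ.le)
    have h2 := abs_le.1 (hSj (κ + 1) hκ)
    linarith [h1.1, h2.2]
  set τ : ℝ := δ / (512 * S ^ 2) with hτ
  have hτ0 : 0 < τ := by positivity
  have hSτ : S * τ ≤ 1 / 256 := by
    rw [hτ, ← mul_div_assoc, div_le_iff₀ (by positivity)]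
    nlinarith
  have hτ1 : τ ≤ 1 := by nlinarith
  have hj : ∀ j ≤ n, |σ j * τ| ≤ 1 / 256 := by
    intro j hj
    rw [abs_mul, abs_of_pos hτ0]
    exact (mul_le_mul_of_nonneg_right (hSj j hj) hτ0.le).trans hSτ
  have hlo : ∀ j ≤ n, 255 / 256 ≤ 1 + σ j * τ := fun j h => by
    linarith [(abs_le.1 (hj j h)).1]
  have hhi : ∀ j ≤ n, 1 + σ j * τ ≤ 257 / 256 := fun j h => by
    linarith [(abs_le.1 (hj j h)).2]
  have hpos : ∀ j ≤ n, 0 < 1 + σ j * τ := fun j h => by linarith [hlo j h]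
  have hdiff : ∀ i j, i ≤ n → j ≤ n → (1 + σ i * τ)⁻¹ - (1 + σ j * τ)⁻¹ =
      τ * (σ j - σ i) / ((1 + σ i * τ) * (1 + σ j * τ)) := by
    intro i j hi hj
    have h1 := (hpos i hi).ne'
    have h2 := (hpos j hj).ne'
    rw [inv_sub_inv h1 h2]
    congr 1
    ring
  have hκ1 : κ + 1 ≤ n := hκ
  have hε : τ * δ / 2 ≤ (1 + σ κ * τ)⁻¹ - (1 + σ (κ + 1) * τ)⁻¹ := by
    rw [hdiff κ (κ + 1) hκ.le hκ1, ← hδ]
    have h1 := hlo κ hκ.le
    have h2 := hlo (κ + 1) hκ1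
    have h3 := hhi κ hκ.le
    have h4 := hhi (κ + 1) hκ1
    apply div_le_div_of_nonneg_left (by positivity) (by nlinarith)
    nlinarith
  refine ⟨τ, hτ0, hτ1, ?_, ?_, ?_, ?_, ?_, ?_⟩
  · intro j h
    have := hj j h
    rw [abs_mul, abs_of_pos hτ0] at this
    linarith
  · intro i hi
    apply inv_anti₀ (hpos i hi.le)
    have := mul_le_mul_of_nonneg_right (hσ i hi).le hτ0.le
    linarith
  · exact inv_nonneg.2 (hpos n le_rfl).le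
  · refine le_trans ?_ hε
    rw [hdiff 0 n (Nat.zero_le _) le_rfl]
    have h1 := hlo 0 (Nat.zero_le _)
    have h2 := hlo n le_rfl
    have h5 : |τ * (σ n - σ 0) / ((1 + σ 0 * τ) * (1 + σ n * τ))| ≤ 8 / 3 * (S * τ) := by
      rw [abs_div, abs_mul, abs_of_pos hτ0, abs_of_pos (mul_pos (hpos 0 (Nat.zero_le _))
        (hpos n le_rfl)), div_le_iff₀ (mul_pos (hpos 0 (Nat.zero_le _)) (hpos n le_rfl))]
      have h6 : |σ n - σ 0| ≤ 2 * S := by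
        have := abs_sub (σ n) (σ 0)
        linarith [hSj n le_rfl, hSj 0 (Nat.zero_le _)]
      have h7 : (3 / 4 : ℝ) ≤ (1 + σ 0 * τ) * (1 + σ n * τ) := by nlinarith
      have h8 : 0 ≤ S * τ := by positivity
      nlinarith
    rw [← sq_abs]
    have h9 : |τ * (σ n - σ 0) / ((1 + σ 0 * τ) * (1 + σ n * τ))| ^ 2 ≤ (8 / 3 * (S * τ)) ^ 2 :=
      pow_le_pow_left₀ (abs_nonneg _) h5 2
    have h10 : S ^ 2 * τ = δ / 512 := by
      rw [hτ]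
      field_simp
    have h11 : (8 / 3 * (S * τ)) ^ 2 = 64 / 9 * (δ / 512) * τ := by
      rw [← h10]; ring
    rw [h11] at h9
    nlinarith [mul_pos hδ0 hτ0]
  · rw [hdiff 0 n (Nat.zero_le _) le_rfl, div_le_iff₀ (mul_pos (hpos 0 (Nat.zero_le _))
        (hpos n le_rfl))]
    have h1 := hlo 0 (Nat.zero_le _)
    have h2 := hlo n le_rfl
    have h6 : σ n - σ 0 ≤ 2 * S := by
      have h3 := abs_le.1 (hSj n le_rfl)
      have h4 := abs_le.1 (hSj 0 (Nat.zero_le _))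
      linarith [h3.2, h4.1]
    have h7 : (3 / 4 : ℝ) ≤ (1 + σ 0 * τ) * (1 + σ n * τ) := by nlinarith
    have h8 := mul_le_mul_of_nonneg_left h6 hτ0.le
    nlinarith
  · have : 0 < τ * δ / 2 := by positivity
    linarith

/-- Comparison of the coefficients. -/
theorem coeff_close {σ τ S R D x0 x1 : ℝ} (hτ1 : τ ≤ 1) (hτ0 : 0 < τ) (hστ : |σ| * τ ≤ 1 / 8)
    (hS : |σ| ≤ S) (h0 : |x0 - τ * D| ≤ R) (h1 : |x1 - D| ≤ R)
    (hD : 3 * (1 + S) * R ≤ D) (hD0 : 0 < D) :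
    0 < x1 + σ * x0 ∧ |x1 / (x1 + σ * x0) - (1 + σ * τ)⁻¹| ≤ 5 * S * R / D := by
  have hR : 0 ≤ R := (abs_nonneg _).trans h0
  have hS0 : 0 ≤ S := (abs_nonneg _).trans hS
  have e1 : x1 + σ * x0 = D + σ * τ * D + ((x1 - D) + σ * (x0 - τ * D)) := by ring
  have e2 : |σ * τ * D| ≤ D / 8 := by
    rw [abs_mul, abs_mul, abs_of_pos hτ0, abs_of_pos hD0]
    nlinarith
  have e3 : |(x1 - D) + σ * (x0 - τ * D)| ≤ (1 + S) * R := by
    refine (abs_add_le _ _).trans ?_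
    rw [abs_mul]
    have := mul_le_mul hS h0 (abs_nonneg _) hS0
    linarith
  have e4 : D / 2 ≤ x1 + σ * x0 := by
    rw [e1]
    have := (abs_le.1 e2).1
    have := (abs_le.1 e3).1
    nlinarith
  have e5 : 7 / 8 ≤ 1 + σ * τ := by
    have : |σ * τ| ≤ 1 / 8 := by rwa [abs_mul, abs_of_pos hτ0]
    linarith [(abs_le.1 this).1]
  have e6 : 0 < x1 + σ * x0 := by linarith
  have e7 : 0 < 1 + σ * τ := by linarith
  refine ⟨e6, ?_⟩
  have e8 : x1 / (x1 + σ * x0) - (1 + σ * τ)⁻¹ =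
      σ * (τ * (x1 - D) - (x0 - τ * D)) / ((x1 + σ * x0) * (1 + σ * τ)) := by
    field_simp
    ring
  rw [e8, abs_div, abs_mul, abs_of_pos (mul_pos e6 e7), div_le_div_iff₀ (mul_pos e6 e7) hD0]
  have e9 : |τ * (x1 - D) - (x0 - τ * D)| ≤ 2 * R := by
    refine (abs_sub _ _).trans ?_
    rw [abs_mul, abs_of_pos hτ0]
    have := mul_le_mul hτ1 h1 (abs_nonneg _) zero_le_one
    linarith
  have e10 : |σ| * |τ * (x1 - D) - (x0 - τ * D)| ≤ S * (2 * R) :=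
    mul_le_mul hS e9 (abs_nonneg _) hS0
  have e11 : D / 2 * (7 / 8) ≤ (x1 + σ * x0) * (1 + σ * τ) :=
    mul_le_mul e4 e5 (by norm_num) e6.le
  have e12 : 0 ≤ S * R := mul_nonneg hS0 hR
  calc |σ| * |τ * (x1 - D) - (x0 - τ * D)| * D ≤ S * (2 * R) * D :=
        mul_le_mul_of_nonneg_right e10 hD0.le
    _ ≤ 5 * S * R * (D / 2 * (7 / 8)) := by nlinarith
    _ ≤ 5 * S * R * ((x1 + σ * x0) * (1 + σ * τ)) :=
        mul_le_mul_of_nonneg_left e11 (by positivity)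

end Pool.Agent.MPbd65ca
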