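import Pool.Agent.Lib.MP_bd65ca_an.PolyFreq
import Pool.Agent.Lib.MP_bd65ca_an.Tau
import Pool.Agent.Lib.MP_bd65ca_an.Perturb
import Pool.Agent.Lib.MP_bd65ca_an.Plane
import Pool.Agent.Lib.MP_bd65ca_an.CosT
import Pool.Agent.Lib.MP_bd65ca_an.Bump

/-!
# The polygons violate the conjecture
-/

open MeasureTheory Pointwise Filter Topology Set
open scoped RealInnerProductSpace

namespace Pool.Agent.MPbd65ca

variable {H : ℝ} {N : ℕ} {y σ : ℕ → ℝ} {L : ℝ → ℝ}

theorem exists_rho {ι : Type*} (s : Finset ι) (f : ι → E 2) {W : Set (E 2)}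
    (hf : ∀ i ∈ s, (1 / 2 : ℝ) • f i ∈ interior W ∧ f i ≠ 0) (h0 : (0 : E 2) ∈ interior W) :
    ∃ ρ : ℝ, 0 < ρ ∧ (∀ i ∈ s, Metric.closedBall ((1 / 2 : ℝ) • f i) ρ ⊆ W ∧ 2 * ρ < ‖f i‖) ∧
      Metric.closedBall (0 : E 2) ρ ⊆ W := by
  have key : ∀ p : E 2, p ∈ interior W → ∀ᶠ ρ in 𝓝[>] (0 : ℝ), Metric.closedBall p ρ ⊆ W := by
    intro p hp
    obtain ⟨ε, hε, hεs⟩ := Metric.nhds_basis_closedBall.mem_iff.1 (mem_interior_iff_mem_nhds.1 hp)
    filter_upwards [Ioo_mem_nhdsGT hε] with ρ hρ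
    exact (Metric.closedBall_subset_closedBall hρ.2.le).trans hεs
  have h1 : ∀ᶠ ρ in 𝓝[>] (0 : ℝ), ∀ i ∈ s, Metric.closedBall ((1 / 2 : ℝ) • f i) ρ ⊆ W ∧
      2 * ρ < ‖f i‖ := by
    rw [Filter.eventually_all_finset]
    intro i hi
    refine (key _ (hf i hi).1).and ?_
    have : 0 < ‖f i‖ / 2 := by have := norm_pos_iff.2 (hf i hi).2; positivity
    filter_upwards [Ioo_mem_nhdsGT this] with ρ hρ
    linarith [hρ.2]
  obtain ⟨ρ, ⟨h2, h3⟩, h4⟩ := ((h1.and (key 0 h0)).and
    (Ioo_mem_nhdsGT (zero_lt_one' ℝ))).exists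
  exact ⟨ρ, h4.1, h2, h3⟩

theorem Wset_mono {lam : ℝ} (hl : 0 ≤ lam) {p : E 2} (hp : p ∈ Wset H L) :
    p ∈ Wset H (fun t => L t - lam) ∧ p - lam • !₂[1, 0] ∈ Wset H (fun t => L t - lam) := by
  obtain ⟨h1, h2, h3⟩ := hp
  refine ⟨⟨h1, ?_, ?_⟩, ⟨?_, ?_, ?_⟩⟩
  · simp only; linarith
  · simp only; linarith
  · simpa using h1
  · simp; exact h2
  · simp; linarith

/-- The main theorem for the polygons. -/
theorem poly_main (h : Poly H N y σ L) {ε' : ℝ} (hε' : 0 < ε') :
    ∃ lam, 0 < lam ∧ lam < ε' ∧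
      ∃ F ∈ cls (Wset H (fun t => L t - lam) + Wset H (fun t => L t - lam)),
        ∫ x, F x < 1 / volume.real (Wset H (fun t => L t - lam)) := by
  have hN := h.hN
  have hH := h.hH
  obtain ⟨n, hn⟩ : ∃ n, N = n + 1 := ⟨N - 1, by omega⟩
  obtain ⟨κ, hκ⟩ : ∃ κ, κ + 2 = n := ⟨n - 2, by omega⟩
  have hκn : κ < n := by omega
  -- the direction
  obtain ⟨τ, hτ0, hτ1, hτσ, hanti, hGn, hE, hE2, hε⟩ := exists_tau hκn σ
    (fun i hi => h.σmono i (by omega))
  set G0 : ℕ → ℝ := fun j => (1 + σ j * τ)⁻¹ with hG0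
  set ε : ℝ := G0 κ - G0 (κ + 1) with hεd
  -- the frequencies
  set q : ℕ → Prop := fun i => n ≤ i + 3 with hq
  obtain ⟨ρ, hρ, hρf, hρ0⟩ := exists_rho (ix n κ) (fr H L y n κ (fun i => n ≤ i + 3))
    (fun i hi => h.fr_mem hn hκ hi)
    (h.mem_interior (p := 0) (by simpa using hH)
      (by simpa using h.neg_of_mem (t := 0) ⟨by linarith, hH⟩)
      (by simpa using h.neg_of_mem (t := 0) ⟨by linarith, hH⟩))
  -- the lump
  obtain ⟨Ψ, hΨc, hΨ0, hΨi, hΨ2, hΨt, hΨv1, hΨv2⟩ := exists_bump 2 hρ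
  obtain ⟨C, hC0, hC⟩ : ∃ C : ℝ, 0 < C ∧ ∀ x, Ψ x ≤ C := by
    have h1 : ∀ᶠ x in cocompact (E 2), Ψ x < 1 := hΨt.eventually_lt_const one_pos
    obtain ⟨K, hK, hKs⟩ := mem_cocompact.1 h1
    obtain ⟨C, hC⟩ := hK.exists_bound_of_continuousOn hΨc.continuousOn
    refine ⟨|C| + 1, by positivity, fun x => ?_⟩
    by_cases hx : x ∈ K
    · have := hC x hx
      rw [Real.norm_eq_abs, abs_of_nonneg (hΨ0 x)] at this
      linarith [le_abs_self C]
    · have : Ψ x < 1 := hKs hx
      linarith [abs_nonneg C]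
  set B : ℝ := 8 * G0 0 with hB
  have hG00 : 1 ≤ G0 0 := by
    have h1 : σ 0 < 0 := by
      have h2 := h.lin 0 (by omega) (y 1) ⟨(h.ymono 0 (by omega)).le, le_rfl⟩
      have h3 := h.neg_of_mem (h.y_mem' (i := 1) (by omega) (by omega))
      have h4 := h.ymono 0 (by omega)
      rw [h.y0, h.L0] at h2
      rw [h.y0] at h4
      by_contra hc
      push Not at hc
      have := mul_nonneg hc (by linarith : 0 ≤ y 1 - -H)
      simp only [zero_add] at h4
      linarith
    have h5 := hτσ 0 (Nat.zero_le _)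
    have h6 : |σ 0 * τ| ≤ 1 / 8 := by rwa [abs_mul, abs_of_pos hτ0]
    have h7 := (abs_le.1 h6).1
    have h8 : σ 0 * τ < 0 := mul_neg_of_neg_of_pos h1 hτ0
    exact (one_le_inv₀ (by linarith)).2 (by linarith)
  have hB0 : 0 < B := by positivity
  set I1 : ℝ := ∫ x, Ψ x with hI1
  set I2 : ℝ := ∫ x, Ψ x ^ 2 with hI2
  have hI10 : 0 ≤ I1 := integral_nonneg hΨ0
  set M : ℝ := ε / 4 * I2 / (2 * (I1 + 1)) with hM
  have hM0 : 0 < M := by positivity
  have hMint : M * I1 < ε / 4 * I2 := by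
    rw [hM, div_mul_eq_mul_div, div_lt_iff₀ (by positivity)]
    have : 0 < ε / 4 * I2 := by positivity
    exact mul_lt_mul_of_pos_left (by linarith) this
  -- the radius
  obtain ⟨R, hR0, hR⟩ : ∃ R : ℝ, 0 < R ∧ ∀ x : E 2, R < ‖x‖ → Ψ x * B ≤ M := by
    have h1 : ∀ᶠ x in cocompact (E 2), Ψ x < M / B := hΨt.eventually_lt_const (by positivity)
    obtain ⟨K, hK, hKs⟩ := mem_cocompact.1 h1
    obtain ⟨R, hR⟩ := hK.isBounded.exists_norm_le
    refine ⟨|R| + 1, by positivity, fun x hx => ?_⟩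
    have h2 : x ∉ K := fun hxK => by
      have := hR x hxK
      linarith [le_abs_self R]
    have : Ψ x < M / B := hKs h2
    rw [lt_div_iff₀ hB0] at this
    exact this.le
  -- a bound for the slopes
  obtain ⟨S, hS0, hS⟩ : ∃ S : ℝ, 0 < S ∧ ∀ j ≤ n, |σ j| ≤ S := by
    refine ⟨1 + ∑ j ∈ Finset.range (n + 1), |σ j|, ?_, fun j hj => ?_⟩
    · have : 0 ≤ ∑ j ∈ Finset.range (n + 1), |σ j| := Finset.sum_nonneg fun _ _ => abs_nonneg _
      linarith
    · have := Finset.single_le_sum (f := fun j => |σ j|) (fun i _ => abs_nonneg (σ i))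
        (Finset.mem_range.2 (Nat.lt_succ_of_le hj))
      linarith
  set δ : ℝ := ε / (24 * (n + 1)) with hδ
  have hδ0 : 0 < δ := by positivity
  -- the distance
  obtain ⟨D, hD0, hD1, hD2, hD3, hD4, hD5, hD6⟩ : ∃ D : ℝ, 0 < D ∧ 3 * (1 + S) * R ≤ D ∧
      5 * S * R / δ ≤ D ∧ 2 * R / τ < D ∧ 1 / (4 * τ * ε') < D ∧ 1 / (2 * τ * ρ) < D ∧
      R < D := by
    have := (((((((eventually_gt_atTop (0 : ℝ)).and
      (eventually_ge_atTop (3 * (1 + S) * R))).and
      (eventually_ge_atTop (5 * S * R / δ))).and (eventually_gt_atTop (2 * R / τ))).and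
      (eventually_gt_atTop (1 / (4 * τ * ε')))).and
      (eventually_gt_atTop (1 / (2 * τ * ρ)))).and (eventually_gt_atTop R)).exists
    obtain ⟨D, ⟨⟨⟨⟨⟨⟨a1, a2⟩, a3⟩, a4⟩, a5⟩, a6⟩, a7⟩⟩ := this
    exact ⟨D, a1, a2, a3, a4, a5, a6, a7⟩
  set lam : ℝ := 1 / (4 * τ * D) with hlam
  have hlam0 : 0 < lam := by positivity
  have hlamD : 4 * lam * (τ * D) = 1 := by
    rw [hlam]; field_simp
  have hlame : lam < ε' := by
    rw [div_lt_iff₀ (by positivity)] at hD4
    rw [hlam, div_lt_iff₀ (by positivity)]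
    linarith
  have hlamρ : 2 * lam < ρ := by
    rw [div_lt_iff₀ (by positivity)] at hD5
    have : 2 * lam = 1 / (2 * τ * D) := by rw [hlam]; field_simp; ring
    rw [this, div_lt_iff₀ (by positivity)]
    linarith
  refine ⟨lam, hlam0, hlame, ?_⟩
  set W := Wset H (fun t => L t - lam) with hW
  have hWb : IsBody W := h.isBody hlam0.le
  have hWpos : 0 < volume.real W := by
    have : 0 < volume W := lt_of_lt_of_le
      (isOpen_interior.measure_pos volume hWb.nonempty_interior) (measure_mono interior_subset)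
    exact ENNReal.toReal_pos this.ne' hWb.isCompact.measure_lt_top.ne
  -- the center
  set x₀ : E 2 := !₂[τ * D, D] with hx₀
  have hx00 : x₀ 0 = τ * D := by simp [hx₀]
  have hx01 : x₀ 1 = D := by simp [hx₀]
  have hcoord : ∀ x : E 2, ∀ i, |x i| ≤ ‖x‖ := fun x i => by
    have := PiLp.norm_apply_le x i
    simpa using this
  set X1 : ℝ := τ * D + R with hX1
  set X2 : ℝ := D + R with hX2
  have hX1p : 0 < X1 := by positivity
  have hX2p : 0 < X2 := by positivity
  set t : ℝ := ε / (36 * Real.pi ^ 4 * C ^ 2 * X1 ^ 2 * X2 ^ 2) with ht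
  have hpi := Real.pi_pos
  have ht0 : 0 < t := by positivity
  -- the polynomial as a sum of cosines
  set f : ℕ ⊕ (ℕ ⊕ Fin 4) → E 2 := fun i =>
    fr H L y n κ (fun i => n ≤ i + 3) i - (2 * lam * sh i) • !₂[1, 0] with hf
  have hsum : ∀ x : E 2, ∑ i ∈ ix n κ, co G0 n i * Real.cos (2 * Real.pi * ⟪x, f i⟫) - ε / 4 =
      hfun n κ G0 (fun j => 2 * Real.pi * ((L (y j) - lam) * x 0 + y j * x 1))
        (fun i => n ≤ i + 3) (2 * Real.pi * (H * x 1)) :=
    fun x => sum_eq_hfun G0 _ H lam L y x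
  have hbound : ∀ x : E 2,
      |∑ i ∈ ix n κ, co G0 n i * Real.cos (2 * Real.pi * ⟪x, f i⟫) - ε / 4| ≤ B := by
    intro x
    rw [hsum x]
    exact abs_hfun_le hκn _ hanti hGn
  -- far from the center
  have hfar : ∀ x : E 2, R < ‖x - x₀‖ → 0 ≤ Ψ (x - x₀) ^ 2 *
      (∑ i ∈ ix n κ, co G0 n i * Real.cos (2 * Real.pi * ⟪x, f i⟫) - ε / 4) +
        M * Ψ (x - x₀) := by
    intro x hx
    have h1 := hR _ hx
    have h2 := (abs_le.1 (hbound x)).1
    have h3 := hΨ0 (x - x₀)
    have h4 : -M ≤ Ψ (x - x₀) *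
      (∑ i ∈ ix n κ, co G0 n i * Real.cos (2 * Real.pi * ⟪x, f i⟫) - ε / 4) := by
      have := mul_le_mul_of_nonneg_left h2 h3
      linarith
    have h5 := mul_le_mul_of_nonneg_left h4 h3
    rw [sq, mul_assoc]
    linarith
  refine perturb hWb.isCompact hWb.neg_mem hWpos (cosT_props hWb.isCompact hWb.neg_mem)
    hΨc hΨv1 hΨv2 (ix n κ) f (co G0 n) (β := ε / 4) (M := M) ht0 ?_ ?_ ?_ x₀ ?_ ?_ hMint
  · -- frequencies inside
    intro i hi z hz
    obtain ⟨h1, -⟩ := hρf i hi
    have hsh : sh i = 0 ∨ sh i = 1 := by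
      rcases i with i | i | i
      · left; rfl
      · right; rfl
      · fin_cases i <;> simp [sh]
    rw [mem_closedBall_iff_norm] at hz
    have h2 : (1 / 2 : ℝ) • (z + (2 * lam * sh i) • !₂[1, 0]) ∈ Wset H L := by
      apply h1
      rw [mem_closedBall_iff_norm, ← smul_sub, norm_smul]
      have e : z + (2 * lam * sh i) • !₂[1, 0] - fr H L y n κ (fun i => n ≤ i + 3) i =
          z - f i := by
        simp only [hf]; abel
      rw [e]
      have : ‖(1 / 2 : ℝ)‖ = 1 / 2 := by norm_num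
      rw [this]
      linarith
    obtain ⟨h3, h4⟩ := Wset_mono hlam0.le h2
    rcases hsh with h5 | h5
    · rw [h5] at h3
      simp only [mul_zero, zero_smul, add_zero] at h3
      refine ⟨_, h3, _, h3, ?_⟩
      simp only
      rw [← two_smul ℝ, smul_smul]
      norm_num
    · rw [h5] at h4
      refine ⟨_, h4, _, h4, ?_⟩
      simp only
      rw [← two_smul ℝ, smul_sub, smul_smul, smul_smul]
      norm_num
  · -- frequencies are nonzero
    intro i hi
    obtain ⟨-, h1⟩ := hρf i hi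
    have hsh : |sh i| ≤ 1 := by
      rcases i with i | i | i
      · simp [sh]
      · simp [sh]
      · fin_cases i <;> simp [sh]
    have h2 : ‖(2 * lam * sh i) • (!₂[1, 0] : E 2)‖ ≤ 2 * lam := by
      rw [norm_smul]
      have : ‖(!₂[1, 0] : E 2)‖ = 1 := by
        rw [EuclideanSpace.norm_eq, Fin.sum_univ_two]
        simp
      rw [this, mul_one, Real.norm_eq_abs, abs_mul, abs_of_pos (by positivity : 0 < 2 * lam)]
      exact mul_le_of_le_one_right (by positivity) hsh
    have h3 := norm_sub_norm_le (fr H L y n κ (fun i => n ≤ i + 3) i)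
      ((2 * lam * sh i) • (!₂[1, 0] : E 2))
    simp only [hf]
    linarith
  · -- the ball around zero
    intro z hz
    have h1 : (1 / 2 : ℝ) • z ∈ Wset H L := by
      apply hρ0
      rw [mem_closedBall_iff_norm, sub_zero] at hz ⊢
      rw [norm_smul]
      have : ‖(1 / 2 : ℝ)‖ = 1 / 2 := by norm_num
      rw [this]
      linarith
    have h3 := (Wset_mono hlam0.le h1).1
    refine ⟨_, h3, _, h3, ?_⟩
    simp only
    rw [← two_smul ℝ, smul_smul]
    norm_num
  · -- nonnegativity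
    intro x
    rcases lt_or_ge R ‖x - x₀‖ with hx | hx
    · have := mul_nonneg ht0.le (hfar x hx)
      have h2 := sq_nonneg (cosT W x)
      linarith
    · have a0 : |x 0 - τ * D| ≤ R := by
        have := hcoord (x - x₀) 0
        rw [PiLp.sub_apply, hx00] at this
        exact this.trans hx
      have a1 : |x 1 - D| ≤ R := by
        have := hcoord (x - x₀) 1
        rw [PiLp.sub_apply, hx01] at this
        exact this.trans hx
      have hcc : ∀ j ≤ n, 0 < x 1 + σ j * x 0 ∧
          |x 1 / (x 1 + σ j * x 0) - (1 + σ j * τ)⁻¹| ≤ 5 * S * R / D :=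
        fun j hj => coeff_close hτ1 hτ0 (hτσ j hj) (hS j hj) a0 a1 hD1 hD0
      have hδD : 5 * S * R / D ≤ δ := by
        rw [div_le_iff₀ hδ0] at hD2
        rw [div_le_iff₀ hD0]
        linarith
      have hx0p : 0 < x 0 := by
        have h1 := (abs_le.1 a0).1
        rw [div_lt_iff₀ hτ0] at hD3
        linarith
      have hx1p : 0 < x 1 := by
        have h1 := (abs_le.1 a1).1
        linarith
      -- the inequality
      have hsin : 1 / 2 ≤ |Real.sin (2 * Real.pi * (lam * x 0))| := by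
        have e1 : 2 * Real.pi * (lam * x 0) = Real.pi / 2 -
            (-(2 * Real.pi * lam * (x 0 - τ * D))) := by
          have : Real.pi / 2 = 2 * Real.pi * (lam * (τ * D)) := by
            have : lam * (τ * D) = 1 / 4 := by linarith
            rw [this]; ring
          rw [this]; ring
        rw [e1, Real.sin_pi_div_two_sub]
        refine le_trans ?_ (le_abs_self _)
        refine le_trans ?_ (Real.one_sub_sq_div_two_le_cos)
        have e2 : |-(2 * Real.pi * lam * (x 0 - τ * D))| ≤ 1 := by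
          rw [abs_neg, abs_mul, abs_of_pos (by positivity : 0 < 2 * Real.pi * lam)]
          have e3 : 2 * Real.pi * lam * |x 0 - τ * D| ≤ 2 * Real.pi * lam * R :=
            mul_le_mul_of_nonneg_left a0 (by positivity)
          have e4 : 2 * Real.pi * lam * R ≤ 1 := by
            rw [div_lt_iff₀ hτ0] at hD3
            have e5 : 2 * R * (4 * lam) < 1 := by
              have := mul_lt_mul_of_pos_right hD3 (by positivity : 0 < 4 * lam)
              linarith
            have e6 := Real.pi_le_four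
            have e7 : 0 < lam * R := by positivity
            have e9 := mul_le_mul_of_nonneg_right e6 e7.le
            linarith
          linarith
        have e8 : (-(2 * Real.pi * lam * (x 0 - τ * D))) ^ 2 ≤ 1 :=
          (sq_le_one_iff_abs_le_one _).2 e2
        linarith
      set θ : ℕ → ℝ := fun j => 2 * Real.pi * ((L (y j) - lam) * x 0 + y j * x 1) with hθ
      set G : ℕ → ℝ := fun j => x 1 / (x 1 + σ j * x 0) with hG
      have hineq := ineq hκn (G0 := G0) (G := G) (θ := θ) (fun i => n ≤ i + 3)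
        (u := 2 * Real.pi * (H * x 1)) (s := 2 * Real.pi * (lam * x 0)) (δ := δ) hanti hG00 hsin
        (by simp only [hθ]; rw [h.y0, h.L0]; ring)
        (by
          simp only [hθ]
          rw [← hn, h.yN, h.LN]; ring)
        (fun i hi => ((hcc i hi).2).trans hδD)
        (by
          rw [hδ]
          have : (24 * ((n : ℝ) + 1)) ≠ 0 := by positivity
          apply le_of_eq
          field_simp
          exact hεd)
        hE hE2 hε
      set P : ℝ := ∑ i ∈ Finset.range (n + 1), G i * (Real.cos (θ (i + 1)) - Real.cos (θ i))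
        with hP
      -- the cosine transform
      have hcos : cosT W x = P / (2 * Real.pi ^ 2 * x 0 * x 1) := by
        have h1 := cosT_Wset (L := fun t => L t - lam) hH h.y0 h.yN h.ymono
          (by
            intro j hj t ht
            have := h.lin j hj t ht
            linarith)
          (by
            intro t ht
            have i1 := h.nonpos_of_mem ht
            have i2 := h.nonpos_of_mem (t := -t) ⟨by linarith [ht.2], by linarith [ht.1]⟩
            linarith)
          x hx0p.ne' (fun j hj => (hcc j (by omega)).1.ne')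
        rw [hW, h1, hn, hP, Finset.mul_sum, Finset.sum_div]
        refine Finset.sum_congr rfl fun j hj => ?_
        have h2 := (hcc j (by have := Finset.mem_range.1 hj; omega)).1.ne'
        have h3 := hx0p.ne'
        have h4 := hx1p.ne'
        simp only [hG, hθ]
        field_simp
      have hx0le : x 0 ≤ X1 := by linarith [(abs_le.1 a0).2]
      have hx1le : x 1 ≤ X2 := by linarith [(abs_le.1 a1).2]
      have hlow : t * C ^ 2 * (9 / ε * P ^ 2) ≤ cosT W x ^ 2 := by
        rw [hcos, div_pow, le_div_iff₀ (by positivity)]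
        have e1 : t * C ^ 2 * (9 / ε * P ^ 2) * (2 * Real.pi ^ 2 * x 0 * x 1) ^ 2 =
            P ^ 2 * ((x 0 / X1) ^ 2 * (x 1 / X2) ^ 2) := by
          rw [ht]
          field_simp
          ring
        rw [e1]
        have e2 : (x 0 / X1) ^ 2 ≤ 1 := by
          rw [sq_le_one_iff₀ (by positivity), div_le_one hX1p]
          exact hx0le
        have e3 : (x 1 / X2) ^ 2 ≤ 1 := by
          rw [sq_le_one_iff₀ (by positivity), div_le_one hX2p]
          exact hx1le
        have e4 : (x 0 / X1) ^ 2 * (x 1 / X2) ^ 2 ≤ 1 := mul_le_one₀ e2 (sq_nonneg _) e3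
        have := mul_le_mul_of_nonneg_left e4 (sq_nonneg P)
        linarith
      rw [hsum x]
      set h' : ℝ := hfun n κ G0 (fun j => 2 * Real.pi * ((L (y j) - lam) * x 0 + y j * x 1))
        (fun i => n ≤ i + 3) (2 * Real.pi * (H * x 1)) with hh'
      have hψ := hΨ0 (x - x₀)
      have hψ2 : Ψ (x - x₀) ^ 2 ≤ C ^ 2 := pow_le_pow_left₀ hψ (hC _) 2
      have h9 : 0 ≤ 9 / ε * P ^ 2 := by positivity
      have h10 : -(9 / ε * P ^ 2) ≤ h' := by linarith
      have h11 : -(C ^ 2 * (9 / ε * P ^ 2)) ≤ Ψ (x - x₀) ^ 2 * h' := by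
        have i1 := mul_le_mul_of_nonneg_left h10 (sq_nonneg (Ψ (x - x₀)))
        have i2 := mul_le_mul_of_nonneg_right hψ2 h9
        linarith
      have h12 : 0 ≤ M * Ψ (x - x₀) := mul_nonneg hM0.le hψ
      have h13 := mul_le_mul_of_nonneg_left h11 ht0.le
      have h14 := mul_nonneg ht0.le h12
      linarith
  · -- value at zero
    have h1 := hfar 0 (by
      rw [zero_sub, norm_neg]
      have := hcoord x₀ 1
      rw [hx01, abs_of_pos hD0] at this
      linarith)
    simpa using h1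

end Pool.Agent.MPbd65ca
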